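import Pool.Agent.Lib.MP_2696ff_co.Two.SpecA

/-!
# MP_2696ff_co, `Two/ADeg`: degrees of the entries of `adj (X - A)`
-/

set_option autoImplicit false

namespace Pool.Agent.MP2696.Two

open Matrix Polynomial

private theorem deg_rec {n : ℕ} (A : Matrix (Fin n) (Fin n) ℤ) (i j : Fin n) :
    X * al A i j = ∑ k, C (A i k) * al A k j + (if i = j then A.charpoly else 0) := by
  have h : (charmatrix A * al A) i j =
      ((charmatrix A).det • (1 : Matrix (Fin n) (Fin n) ℤ[X])) i j := by
    rw [al, mul_adjugate]
  have h5 : ∀ k, charmatrix A i k * al A k j = (if i = k then X * al A k j else 0) -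
      C (A i k) * al A k j := by
    intro k
    rw [charmatrix_apply, sub_mul, Matrix.diagonal_apply]
    split_ifs <;> ring
  rw [Matrix.mul_apply, Matrix.smul_apply, Matrix.one_apply] at h
  simp only [h5, Finset.sum_sub_distrib] at h
  rw [Finset.sum_ite_eq, if_pos (Finset.mem_univ i)] at h
  have h6 : (charmatrix A).det • (if i = j then (1 : ℤ[X]) else 0) =
      if i = j then A.charpoly else 0 := by
    split_ifs <;> simp [Matrix.charpoly]
  rw [h6] at h
  linear_combination h

private theorem deg_le {n : ℕ} (A : Matrix (Fin n) (Fin n) ℤ) (j : Fin n) :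
    ∀ i, (al A i j).natDegree ≤ n - 1 := by
  have hn : 0 < n := Fin.pos j
  obtain ⟨i0, -, hi0⟩ := Finset.exists_max_image Finset.univ (fun i => (al A i j).natDegree)
    ⟨j, Finset.mem_univ j⟩
  have hcp : A.charpoly.natDegree = n := by
    rw [A.charpoly_natDegree_eq_dim, Fintype.card_fin]
  have h1 : (al A i0 j).natDegree ≤ n - 1 := by
    by_contra hcon
    push Not at hcon
    have h0 : al A i0 j ≠ 0 := by
      intro h0
      rw [h0, natDegree_zero] at hcon
      omega
    have h2 : (X * al A i0 j).natDegree = (al A i0 j).natDegree + 1 := natDegree_X_mul h0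
    have h3 : (X * al A i0 j).natDegree ≤ (al A i0 j).natDegree := by
      rw [deg_rec]
      refine natDegree_add_le_of_degree_le ?_ ?_
      · refine natDegree_sum_le_of_forall_le _ _ fun k _ => ?_
        exact (natDegree_C_mul_le _ _).trans (hi0 k (Finset.mem_univ k))
      · split_ifs
        · rw [hcp]; omega
        · simp
    omega
  exact fun i => (hi0 i (Finset.mem_univ i)).trans h1

private theorem deg_le2 {n : ℕ} (A : Matrix (Fin n) (Fin n) ℤ) (i j : Fin n) (hij : i ≠ j) :
    (al A i j).natDegree ≤ n - 2 := by
  by_cases h0 : al A i j = 0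
  · rw [h0]; simp
  have h2 : (X * al A i j).natDegree = (al A i j).natDegree + 1 := natDegree_X_mul h0
  have h3 : (X * al A i j).natDegree ≤ n - 1 := by
    rw [deg_rec, if_neg hij, add_zero]
    refine natDegree_sum_le_of_forall_le _ _ fun k _ => ?_
    exact (natDegree_C_mul_le _ _).trans (deg_le A j k)
  omega

theorem tDeg : S_Deg := by
  intro n A i j hij
  refine ⟨deg_le2 A i j hij, ?_⟩
  have hn : 2 ≤ n := by
    have h1 := i.2
    have h2 := j.2
    have h3 : (i : ℕ) ≠ j := fun h => hij (Fin.ext h)
    omega
  have h := congrArg (fun p => coeff p (n - 2 + 1)) (deg_rec A i j)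
  simp only [if_neg hij, add_zero, coeff_X_mul, finsetSum_coeff, coeff_C_mul] at h
  rw [h, Finset.sum_eq_single j]
  · have h1 : (del A j).charpoly.coeff (n - 2 + 1) = 1 := by
      have h2 : (del A j).charpoly.natDegree = n - 2 + 1 := by
        rw [(del A j).charpoly_natDegree_eq_dim, Fintype.card_subtype_compl]
        simp
        omega
      rw [← h2]
      exact (del A j).charpoly_monic
    rw [charpoly_del] at h1
    rw [al, h1, mul_one]
  · intro k _ hk
    rw [coeff_eq_zero_of_natDegree_lt, mul_zero]
    have := deg_le2 A k j hk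
    omega
  · intro hj
    exact absurd (Finset.mem_univ j) hj

end Pool.Agent.MP2696.Two
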