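import Pool.Agent.Lib.MP_2696ff_co.Two.SpecA

set_option autoImplicit false

namespace Pool.Agent.MP2696.Two

open Matrix Polynomial

private noncomputable def Ck {n : ℕ} (A : Matrix (Fin n) (Fin n) ℤ) (k : ℕ) :
    Matrix (Fin n) (Fin n) ℤ := Matrix.of fun i j => (al A i j).coeff k

private theorem al_rec {n : ℕ} (A : Matrix (Fin n) (Fin n) ℤ) (i j : Fin n) :
    X * al A i j = ∑ k, C (A i k) * al A k j + (if i = j then A.charpoly else 0) := by
  have h : (charmatrix A * adjugate (charmatrix A)) i j =
      ((charmatrix A).det • (1 : Matrix (Fin n) (Fin n) ℤ[X])) i j := by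
    rw [mul_adjugate]
  rw [Matrix.mul_apply, Matrix.smul_apply, Matrix.one_apply, smul_eq_mul] at h
  have h5 : ∀ k, charmatrix A i k * adjugate (charmatrix A) k j =
      (if i = k then X * al A k j else 0) - C (A i k) * al A k j := by
    intro k
    rw [charmatrix_apply, sub_mul, Matrix.diagonal_apply]
    split_ifs <;> simp [al]
  simp only [h5, Finset.sum_sub_distrib] at h
  rw [Finset.sum_ite_eq] at h
  simp only [Finset.mem_univ, if_true] at h
  have h6 : (charmatrix A).det * (if i = j then 1 else 0) = if i = j then A.charpoly else 0 := by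
    split_ifs <;> simp [Matrix.charpoly]
  rw [h6] at h
  linear_combination h

private theorem Ck_rec {n : ℕ} (A : Matrix (Fin n) (Fin n) ℤ) (k : ℕ) :
    Ck A k = A * Ck A (k + 1) + (A.charpoly.coeff (k + 1)) • 1 := by
  ext i j
  have h := congrArg (fun p : ℤ[X] => p.coeff (k + 1)) (al_rec A i j)
  simp only [coeff_X_mul, coeff_add, finsetSum_coeff, coeff_C_mul] at h
  rw [Ck, Matrix.of_apply, h, Matrix.add_apply, Matrix.mul_apply, Matrix.smul_apply,
    Matrix.one_apply]
  congr 1
  split_ifs <;> simp

private theorem Ck_zero {n : ℕ} (A : Matrix (Fin n) (Fin n) ℤ) (k : ℕ) (hk : n ≤ k) :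
    Ck A k = 0 := by
  obtain ⟨K, hK⟩ : ∃ K : ℕ, ∀ k, K ≤ k → Ck A k = 0 := by
    refine ⟨(∑ i, ∑ j, (al A i j).natDegree) + 1, fun k hk => ?_⟩
    ext i j
    rw [Ck, Matrix.of_apply, Matrix.zero_apply]
    apply coeff_eq_zero_of_natDegree_lt
    have h1 : (al A i j).natDegree ≤ ∑ j, (al A i j).natDegree :=
      Finset.single_le_sum (f := fun j => (al A i j).natDegree) (fun _ _ => Nat.zero_le _)
        (Finset.mem_univ j)
    have h2 : ∑ j, (al A i j).natDegree ≤ ∑ i, ∑ j, (al A i j).natDegree :=
      Finset.single_le_sum (f := fun i => ∑ j, (al A i j).natDegree) (fun _ _ => Nat.zero_le _)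
        (Finset.mem_univ i)
    omega
  have key : ∀ d k, n ≤ k → K ≤ k + d → Ck A k = 0 := by
    intro d
    induction d with
    | zero => exact fun k _ h => hK k (by simpa using h)
    | succ d ih =>
      intro k hk h
      rw [Ck_rec, ih (k + 1) (by omega) (by omega)]
      have : A.charpoly.coeff (k + 1) = 0 := by
        apply coeff_eq_zero_of_natDegree_lt
        rw [charpoly_natDegree_eq_dim, Fintype.card_fin]
        omega
      rw [this]
      simp
  exact key K k hk (by omega)

private theorem Ck_sum {n : ℕ} (A : Matrix (Fin n) (Fin n) ℤ) (m : ℕ) (hm : m < n) :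
    Ck A (n - 1 - m) = ∑ l ∈ Finset.range (m + 1), (A.charpoly.coeff (n - l)) • A ^ (m - l) := by
  induction m with
  | zero =>
    rw [Ck_rec, Ck_zero A _ (by omega)]
    have : n - 1 + 1 = n := by omega
    simp [this]
  | succ m ih =>
    have e1 : n - 1 - (m + 1) + 1 = n - 1 - m := by omega
    have e2 : n - (m + 1) = n - 1 - m := by omega
    rw [Ck_rec, e1, ih (by omega), Finset.sum_range_succ _ (m + 1), e2, Nat.sub_self, pow_zero,
      Finset.mul_sum]
    congr 1
    refine Finset.sum_congr rfl fun l hl => ?_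
    have hl' : l ≤ m := by
      have := Finset.mem_range.1 hl
      omega
    rw [Matrix.mul_smul, ← pow_succ', show m - l + 1 = m + 1 - l by omega]

theorem tDiag : S_Diag := by
  intro n A B c h m
  induction m using Nat.strong_induction_on with
  | _ m ih =>
    intro hm i
    have hA := congrFun (congrFun (Ck_sum A m hm) i) i
    have hB := congrFun (congrFun (Ck_sum B m hm) i) i
    have hc : ∀ l, l ≤ m → B.charpoly.coeff (n - l) = A.charpoly.coeff (n - l) := by
      intro l hl
      rw [h.cp, coeff_add, coeff_C, if_neg (by omega), add_zero]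
    have hmon : A.charpoly.coeff n = 1 := by
      have := A.charpoly_monic
      rwa [Monic, leadingCoeff, charpoly_natDegree_eq_dim, Fintype.card_fin] at this
    rw [Finset.sum_range_succ'] at hA hB
    simp only [Matrix.add_apply, Matrix.sum_apply, Matrix.smul_apply, smul_eq_mul, Nat.sub_zero] at hA hB
    have h0 := hc 0 (Nat.zero_le _)
    rw [Nat.sub_zero] at h0
    rw [h0] at hB
    rw [hmon, one_mul] at hA hB
    have hd : Ck A (n - 1 - m) i i = Ck B (n - 1 - m) i i := by
      rw [Ck, Ck, Matrix.of_apply, Matrix.of_apply, h.diag i]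
    have hs : ∑ l ∈ Finset.range m, A.charpoly.coeff (n - (l + 1)) * (A ^ (m - (l + 1))) i i =
        ∑ l ∈ Finset.range m, B.charpoly.coeff (n - (l + 1)) * (B ^ (m - (l + 1))) i i := by
      refine Finset.sum_congr rfl fun l hl => ?_
      have hl' := Finset.mem_range.1 hl
      rw [hc (l + 1) (by omega), ih (m - (l + 1)) (by omega) (by omega) i]
    rw [hd, hB, hs] at hA
    linarith

end Pool.Agent.MP2696.Two
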