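import Pool.Agent.Lib.MP_2696ff_co.Two.SpecA

/-!
# MP_2696ff_co, `Two`: even order, `c` odd (helper73)
-/

set_option autoImplicit false

namespace Pool.Agent.MP2696.Two

open Matrix Polynomial

private theorem ev1_symm {n : ℕ} (A : Matrix (Fin n) (Fin n) ℤ) (h : Sz A) (i j : Fin n) :
    al A i j = al A j i := by
  have hA : Aᵀ = A := by
    ext i j
    exact h.1 j i
  have h1 : (al A)ᵀ = al A := by
    unfold al
    rw [adjugate_transpose, ← charmatrix_transpose, hA]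
  exact congrFun (congrFun h1 j) i

theorem tEv1 : S_Half → S_Q1 → S_Q2 → S_Ev1 := by
  intro hH hQ1 hQ2 q A B c hM hc ψ hψ k hk
  obtain ⟨Ψ, -, hΨ⟩ := hH (2 * q) (al A - al B) ⊤
    ⟨fun i j => by rw [Matrix.sub_apply, Matrix.sub_apply, ev1_symm A hM.szA i j,
      ev1_symm B hM.szB i j], fun i => by rw [Matrix.sub_apply, hM.diag i, sub_self]⟩
    (fun _ _ => Submodule.mem_top) (fun _ => 1)
  have hΨ' : ∑ i, ∑ j, (al A i j - al B i j) = 2 * Ψ := by
    rw [← hΨ]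
    refine Finset.sum_congr rfl fun i _ => Finset.sum_congr rfl fun j _ => ?_
    rw [mul_one, mul_one, Matrix.sub_apply]
  have h1 := hQ2 q A B c hM hc ψ hψ Ψ hΨ'
  rw [hQ1 (2 * q) A B c hM hc ψ hψ Ψ hΨ'] at h1
  obtain ⟨k', rfl⟩ : ∃ k', k = k' + 1 := ⟨k - 1, by omega⟩
  have h2 := congrArg (fun f => f.coeff (2 * k' + 1 + 1)) h1
  simp only [coeff_X_mul, coeff_derivative, coeff_add, coeff_C_succ, add_zero] at h2
  have h3 : ((2 * k' + 1 : ℕ) : ZMod 2) + 1 = 0 := by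
    have h4 : (2 : ZMod 2) = 0 := rfl
    push_cast
    linear_combination (k' + 1) * h4
  rw [h3, mul_zero] at h2
  rw [show 2 * (k' + 1) = 2 * k' + 1 + 1 by ring]
  exact h2.symm

end Pool.Agent.MP2696.Two
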