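import Pool.Agent.Lib.MP_2696ff_co.Two.SpecA

/-!
# MP_2696ff_co, `Two/AEv2`: even order, `c` even: `4 ∣ c`
-/

set_option autoImplicit false

namespace Pool.Agent.MP2696.Two

open Matrix Polynomial

/-- The constant coefficient of the characteristic polynomial modulo 4. -/
private theorem ev2_aux (hFP : S_FP) (q : ℕ) (A : Matrix (Fin (2 * q)) (Fin (2 * q)) ℤ)
    (hA : Sz A) : ∃ s t : ℤ, A.charpoly.coeff 0 = (-1) ^ q * s ^ 2 + 4 * t := by
  obtain ⟨s, t, h⟩ := hFP q (A.map (C : ℤ →+* ℤ[X]))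
    ⟨fun i j => by simp [hA.1 i j], fun i => by simp [hA.2 i]⟩
  refine ⟨s.eval 0, t.eval 0, ?_⟩
  have h1 : (A.map (C : ℤ →+* ℤ[X])).det = C A.det := (RingHom.map_det _ _).symm
  have h2 := Matrix.det_eq_sign_charpoly_coeff A
  have h3 : (-1 : ℤ) ^ Fintype.card (Fin (2 * q)) = 1 := by simp
  rw [h3, one_mul] at h2
  rw [← h2]
  have h4 := congrArg (eval 0) h
  rw [h1] at h4
  simpa using h4

theorem tEv2 : S_FP → S_Ev2 := by
  intro hFP q A B c hM h2
  obtain ⟨s, t, hA⟩ := ev2_aux hFP q A hM.szA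
  obtain ⟨s', t', hB⟩ := ev2_aux hFP q B hM.szB
  have h := congrArg (fun p => coeff p 0) hM.cp
  simp only [coeff_add, coeff_C_zero] at h
  rw [hA, hB] at h
  obtain ⟨k, hk⟩ := h2
  subst hk
  obtain ⟨a, ha | ha⟩ := Int.even_or_odd' s <;> obtain ⟨b, hb | hb⟩ := Int.even_or_odd' s' <;>
    rcases neg_one_pow_eq_or ℤ q with hq | hq <;> rw [hq] at h <;> subst ha <;> subst hb <;>
    ring_nf at h <;> omega

end Pool.Agent.MP2696.Two
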