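import Pool.Agent.Lib.MP_2696ff_co.Two.SpecA

/-!
# MP_2696ff_co, `Two.AExp`: `det (M + 2 Z)` modulo 4
-/

set_option autoImplicit false

namespace Pool.Agent.MP2696.Two

open Matrix Polynomial

private theorem det_mod_two {R : Type*} [CommRing R] {n : ℕ} (A B : Matrix (Fin n) (Fin n) R)
    (h : ∀ i j, (2 : R) ∣ A i j - B i j) : (2 : R) ∣ A.det - B.det := by
  rw [← Ideal.mem_span_singleton, ← Ideal.Quotient.mk_eq_mk_iff_sub_mem, RingHom.map_det,
    RingHom.map_det]
  refine congrArg det ?_
  ext i j
  simp only [RingHom.mapMatrix_apply, Matrix.map_apply]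
  rw [Ideal.Quotient.mk_eq_mk_iff_sub_mem, Ideal.mem_span_singleton]
  exact h i j

/-- The rows in `T` are replaced by `M i + 2 Z i`. -/
private def mx {R : Type*} [CommRing R] {n : ℕ} (M Z : Matrix (Fin n) (Fin n) R)
    (T : Finset (Fin n)) : Matrix (Fin n) (Fin n) R :=
  Matrix.of fun i j => if i ∈ T then M i j + 2 * Z i j else M i j

private theorem det_mx {R : Type*} [CommRing R] {n : ℕ} (M Z : Matrix (Fin n) (Fin n) R)
    (T : Finset (Fin n)) :
    ∃ t : R, (mx M Z T).det = M.det + 2 * ∑ j ∈ T, (M.updateRow j (Z j)).det + 4 * t := by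
  induction T using Finset.induction_on with
  | empty =>
    refine ⟨0, ?_⟩
    have : mx M Z ∅ = M := by
      ext i j
      simp [mx]
    rw [this]
    simp
  | insert j T hj ih =>
    obtain ⟨t, ht⟩ := ih
    have h1 : mx M Z (insert j T) = (mx M Z T).updateRow j (M j + (2 : R) • Z j) := by
      ext a b
      by_cases h : a = j
      · subst h
        simp [mx]
      · rw [updateRow_ne h]
        simp [mx, h]
    have h2 : (mx M Z T).updateRow j (M j) = mx M Z T := by
      have : M j = (mx M Z T) j := by
        ext b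
        simp [mx, hj]
      rw [this, updateRow_eq_self]
    have h3 : (2 : R) ∣ ((mx M Z T).updateRow j (Z j)).det - (M.updateRow j (Z j)).det := by
      apply det_mod_two
      intro a b
      by_cases h : a = j
      · subst h
        simp
      · rw [updateRow_ne h, updateRow_ne h]
        by_cases h' : a ∈ T
        · exact ⟨Z a b, by simp [mx, h']⟩
        · exact ⟨0, by simp [mx, h']⟩
    obtain ⟨u, hu⟩ := h3
    refine ⟨t + u, ?_⟩
    rw [h1, det_updateRow_add, det_updateRow_smul, h2, ht, Finset.sum_insert hj]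
    linear_combination 2 * hu

theorem tExp : S_Exp := by
  intro n M Z
  obtain ⟨t, ht⟩ := det_mx M Z Finset.univ
  refine ⟨t, ?_⟩
  have h1 : mx M Z Finset.univ = M + (2 : ℤ[X]) • Z := by
    ext i j : 2
    simp [mx]
  have h2 : ∑ j, (M.updateRow j (Z j)).det = (adjugate M * Z).trace := by
    have h3 : ∀ j, (M.updateRow j (Z j)).det = ∑ k, adjugate M k j * Z j k := by
      intro j
      rw [← cramer_transpose_apply, cramer_eq_adjugate_mulVec, ← adjugate_transpose]
      rfl
    rw [Finset.sum_congr rfl fun j _ => h3 j, Finset.sum_comm]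
    rfl
  rw [← h1, ht, h2]

end Pool.Agent.MP2696.Two
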