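import Pool.Agent.Lib.MP_2696ff_co.Two.SpecA

/-!
# MP_2696ff_co, `Two.AFP`: the determinant of a symmetric matrix with zero diagonal modulo 4
-/

set_option autoImplicit false

namespace Pool.Agent.MP2696.Two

open Matrix Polynomial

private theorem sq_of_frac (hPf : S_Pf) {n : ℕ} (S : Matrix (Fin n) (Fin n) ℤ[X])
    (hS : Sᵀ = -S) : ∃ s : ℤ[X], S.det = s ^ 2 := by
  have hinj : Function.Injective (algebraMap ℤ[X] (FractionRing ℤ[X])) :=
    IsFractionRing.injective ℤ[X] (FractionRing ℤ[X])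
  have : CharZero (FractionRing ℤ[X]) := charZero_of_injective_algebraMap hinj
  obtain ⟨z, hz⟩ := hPf (FractionRing ℤ[X]) n (S.map (algebraMap ℤ[X] (FractionRing ℤ[X]))) (by
    ext i j
    have := congrFun (congrFun hS i) j
    simp only [transpose_apply, Matrix.neg_apply, Matrix.map_apply] at this ⊢
    rw [this, map_neg])
  have h1 : (S.map (algebraMap ℤ[X] (FractionRing ℤ[X]))).det =
      algebraMap ℤ[X] (FractionRing ℤ[X]) S.det := by
    rw [RingHom.map_det]
    rfl
  rw [h1] at hz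
  obtain ⟨s, hs⟩ := IsIntegrallyClosed.exists_algebraMap_eq_of_isIntegral_pow (R := ℤ[X])
    (K := FractionRing ℤ[X]) (x := z) (n := 2) two_pos (hz ▸ isIntegral_algebraMap)
  refine ⟨s, hinj ?_⟩
  rw [hz, map_pow, hs]

theorem tFP : S_Pf → S_Exp → S_FP := by
  intro hPf hExp q M hM
  rcases Nat.eq_zero_or_pos q with rfl | hq
  · refine ⟨1, 0, ?_⟩
    have : M.det = 1 := det_isEmpty (n := Fin 0)
    rw [this]
    ring
  let L : Matrix (Fin (2 * q)) (Fin (2 * q)) ℤ[X] := Matrix.of fun i j => if i < j then M i j else 0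
  let S := L - Lᵀ
  have hS : Sᵀ = -S := by
    simp only [S, transpose_sub, transpose_transpose, neg_sub]
  have hMS : M = S + (2 : ℤ[X]) • Lᵀ := by
    ext i j : 2
    simp only [S, L, Matrix.add_apply, Matrix.sub_apply, Matrix.smul_apply, transpose_apply,
      Matrix.of_apply, smul_eq_mul]
    rcases lt_trichotomy i j with h | h | h
    · rw [if_pos h, if_neg (not_lt.mpr h.le)]
      ring_nf
    · subst h
      rw [if_neg (lt_irrefl _), hM.2 i]
      ring_nf
    · rw [if_pos h, if_neg (not_lt.mpr h.le), hM.1 i j]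
      ring_nf
  obtain ⟨t, ht⟩ := hExp (2 * q) S Lᵀ
  rw [← hMS] at ht
  obtain ⟨s, hs⟩ := sq_of_frac hPf S hS
  have hadj : (adjugate S)ᵀ = -adjugate S := by
    rw [adjugate_transpose, hS, ← neg_one_smul ℤ[X] S, adjugate_smul, Fintype.card_fin,
      Odd.neg_one_pow ⟨q - 1, by omega⟩, neg_one_smul]
  have hx : (adjugate S * L).trace = -(adjugate S * Lᵀ).trace := by
    rw [← trace_transpose (adjugate S * L), transpose_mul, hadj, Matrix.mul_neg, trace_neg,
      trace_mul_comm]
  have hy : (adjugate S * S).trace = (2 * (q : ℤ[X])) * S.det := by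
    rw [adjugate_mul, trace_smul, trace_one, Fintype.card_fin, smul_eq_mul]
    push_cast
    ring
  have hz : (adjugate S * S).trace = (adjugate S * L).trace - (adjugate S * Lᵀ).trace := by
    rw [← trace_sub, ← Matrix.mul_sub]
  have hw : (adjugate S * Lᵀ).trace = -(q : ℤ[X]) * S.det := by
    have h2 : (2 : ℤ[X]) ≠ 0 := two_ne_zero
    apply mul_left_cancel₀ h2
    rw [hy, hx] at hz
    linear_combination hz
  rw [hw, hs] at ht
  rcases Nat.even_or_odd' q with ⟨k, rfl | rfl⟩
  · refine ⟨s, t - (k : ℤ[X]) * s ^ 2, ?_⟩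
    rw [ht, Even.neg_one_pow ⟨k, by ring⟩]
    push_cast
    ring
  · refine ⟨s, t - (k : ℤ[X]) * s ^ 2, ?_⟩
    rw [ht, Odd.neg_one_pow ⟨k, rfl⟩]
    push_cast
    ring

end Pool.Agent.MP2696.Two
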