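import Pool.Agent.Lib.MP_2696ff_co.Two.Aux1

set_option autoImplicit false

namespace Pool.Agent.MP2696.Two

open Matrix Polynomial

theorem tForm : S_Par → S_Form := by
  intro hP n A hA
  set P := A.charpoly with hPdef
  have hPn : P.natDegree = n := by
    rw [hPdef, charpoly_natDegree_eq_dim, Fintype.card_fin]
  set ψ : ℤ[X] := ∑ j ∈ Finset.range (n / 2 + 1), C (P.coeff (2 * j + n % 2)) * X ^ j with hψ
  have hψc : ∀ k, ψ.coeff k = P.coeff (2 * k + n % 2) := by
    intro k
    rw [hψ, finset_sum_coeff]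
    simp only [coeff_C_mul, coeff_X_pow, mul_ite, mul_one, mul_zero]
    rw [Finset.sum_ite_eq]
    split_ifs with h
    · rfl
    · rw [Finset.mem_range, not_lt] at h
      rw [coeff_eq_zero_of_natDegree_lt]
      rw [hPn]
      omega
  have hsq : red P = X ^ (n % 2) * red ψ ^ 2 := by
    rw [← ZMod.expand_card]
    ext k
    rw [coeff_X_pow_mul', red_coeff]
    split_ifs with h
    · rw [coeff_expand two_pos]
      split_ifs with h2
      · obtain ⟨m, hm⟩ := h2
        rw [hm, Nat.mul_div_cancel_left _ two_pos, red_coeff, hψc]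
        have : k = 2 * m + n % 2 := by omega
        rw [this]
      · have h3 := hP n A hA k (by omega)
        rw [(ZMod.intCast_zmod_eq_zero_iff_dvd _ 2).2]
        exact_mod_cast h3
    · have h3 := hP n A hA k (by omega)
      rw [(ZMod.intCast_zmod_eq_zero_iff_dvd _ 2).2]
      exact_mod_cast h3
  have h1 : red P = red (X ^ (n % 2) * ψ ^ 2) := by
    rw [hsq, map_mul, map_pow, map_pow, red_X]
  obtain ⟨τ, hτ⟩ := (red_eq_iff _ _).1 h1
  obtain ⟨h2, h3⟩ := natDegree_of_sq hsq
  exact ⟨ψ, τ, hτ, h2, h3⟩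

end Pool.Agent.MP2696.Two
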