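import Pool.Agent.Lib.MP_2696ff_co.Two.SpecA

set_option autoImplicit false

namespace Pool.Agent.MP2696.Two

open Matrix Polynomial

theorem tHalf : S_Half := by
  intro n N I hN hI w
  refine ⟨∑ i, ∑ j, (if i < j then N i j * w i * w j else 0), ?_, ?_⟩
  · refine Ideal.sum_mem _ fun i _ => Ideal.sum_mem _ fun j _ => ?_
    split_ifs
    · exact Ideal.mul_mem_right _ _ (Ideal.mul_mem_right _ _ (hI i j))
    · exact Ideal.zero_mem _
  · have h1 : ∀ i j, N i j * w i * w j = (if i < j then N i j * w i * w j else 0) +
        (if j < i then N j i * w j * w i else 0) := by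
      intro i j
      rcases lt_trichotomy i j with h | h | h
      · rw [if_pos h, if_neg h.not_gt, add_zero]
      · subst h
        simp [hN.2 i]
      · rw [if_neg h.not_gt, if_pos h, zero_add, hN.1 i j]
        ring
    rw [Finset.sum_congr rfl fun i _ => Finset.sum_congr rfl fun j _ => h1 i j]
    simp only [Finset.sum_add_distrib]
    rw [Finset.sum_comm (f := fun i j => if j < i then N j i * w j * w i else 0)]
    ring

end Pool.Agent.MP2696.Two
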