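import Pool.Agent.Lib.MP_2696ff_co.Two.SpecA

set_option autoImplicit false

namespace Pool.Agent.MP2696.Two

open Matrix Polynomial

private theorem jac_gen {R : Type*} [CommRing R] [IsDomain R] {n : ℕ} (M : Matrix (Fin n) (Fin n) R)
    (hd : M.det ≠ 0) {i j : Fin n} (hij : i ≠ j) :
    M.det ∣ adjugate M i i * adjugate M j j - adjugate M i j * adjugate M j i := by
  set a := adjugate M with ha
  set U : Matrix (Fin n) (Fin 2) R :=
    Matrix.of fun k l => if l = 0 then a k i - (1 : Matrix (Fin n) (Fin n) R) k i
      else a k j - (1 : Matrix (Fin n) (Fin n) R) k j with hU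
  set W : Matrix (Fin 2) (Fin n) R :=
    Matrix.of fun l k => if l = 0 then (1 : Matrix (Fin n) (Fin n) R) i k
      else (1 : Matrix (Fin n) (Fin n) R) j k with hW
  have h1 : (1 + U * W).det = a i i * a j j - a i j * a j i := by
    rw [det_one_add_mul_comm, det_fin_two]
    simp [hU, hW, Matrix.mul_apply, Matrix.one_apply, hij, hij.symm]
  have hP : 1 + U * W = ((1 : Matrix (Fin n) (Fin n) R).updateCol i (a.col i)).updateCol j (a.col j) := by
    ext k l
    rw [Matrix.add_apply, Matrix.mul_apply, Fin.sum_univ_two]
    by_cases hlj : l = j
    · subst hlj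
      simp [hU, hW, Matrix.one_apply, hij]
    · by_cases hli : l = i
      · subst hli
        simp [hU, hW, Matrix.one_apply, hlj, Ne.symm hlj]
      · simp [hU, hW, Matrix.one_apply, hlj, hli, Ne.symm hlj, Ne.symm hli]
  have hM : M * (1 + U * W) = (M.updateCol i (M.det • Pi.single i 1)).updateCol j
      (M.det • Pi.single j 1) := by
    have hMa : M * a = M.det • (1 : Matrix (Fin n) (Fin n) R) := mul_adjugate M
    rw [hP]
    ext k l
    rw [Matrix.mul_apply]
    by_cases hlj : l = j
    · subst hlj
      have := congrFun (congrFun hMa k) l
      rw [Matrix.mul_apply] at this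
      simp only [Matrix.updateCol_self, Matrix.col_apply, this]
      simp [Matrix.one_apply, Pi.single_apply]
    · by_cases hli : l = i
      · subst hli
        have := congrFun (congrFun hMa k) l
        rw [Matrix.mul_apply] at this
        simp only [Matrix.updateCol_ne hlj, Matrix.updateCol_self, Matrix.col_apply, this]
        simp [Matrix.one_apply, Pi.single_apply]
      · simp [Matrix.updateCol_ne hlj, Matrix.updateCol_ne hli, Matrix.one_apply]
  have h2 : (M * (1 + U * W)).det = M.det ^ 2 *
      ((M.updateCol i (Pi.single i 1)).updateCol j (Pi.single j 1)).det := by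
    rw [hM, det_updateCol_smul]
    have : (M.updateCol i (M.det • Pi.single i (1 : R))).updateCol j (Pi.single j 1) =
        (M.updateCol j (Pi.single j 1)).updateCol i (M.det • Pi.single i 1) := by
      ext k l
      by_cases hlj : l = j
      · subst hlj
        simp [Matrix.updateCol_apply, hij.symm]
      · by_cases hli : l = i
        · subst hli
          simp [Matrix.updateCol_apply, hlj]
        · simp [Matrix.updateCol_apply, hlj, hli]
    rw [this, det_updateCol_smul]
    have h3 : (M.updateCol j (Pi.single j (1 : R))).updateCol i (Pi.single i 1) =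
        (M.updateCol i (Pi.single i 1)).updateCol j (Pi.single j 1) := by
      ext k l
      by_cases hlj : l = j
      · subst hlj
        simp [Matrix.updateCol_apply, hij.symm]
      · by_cases hli : l = i
        · subst hli
          simp [Matrix.updateCol_apply, hlj]
        · simp [Matrix.updateCol_apply, hlj, hli]
    rw [h3]
    ring
  rw [det_mul, h1] at h2
  refine ⟨((M.updateCol i (Pi.single i 1)).updateCol j (Pi.single j 1)).det, ?_⟩
  apply mul_left_cancel₀ hd
  rw [h2]
  ring

theorem tJac : S_Jac := by
  intro n A i j
  by_cases hij : i = j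
  · subst hij
    simp
  · exact jac_gen (charmatrix A) (A.charpoly_monic.ne_zero) hij

end Pool.Agent.MP2696.Two
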