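import Pool.Agent.Lib.MP_2696ff_co.Two.SpecA

set_option autoImplicit false

namespace Pool.Agent.MP2696.Two

open Matrix Polynomial

theorem tLoc : S_Loc := by
  intro p ψ τ v α a hp hτ hψ h
  obtain ⟨ψ₁, rfl⟩ := hψ
  have key : ∀ r ≤ a, p ^ r ∣ v := by
    intro r
    induction r with
    | zero => intro _; simp
    | succ r ih =>
      intro hr
      obtain ⟨v₁, rfl⟩ := ih (by omega)
      obtain ⟨s, rfl⟩ : ∃ s, a = r + 1 + s := ⟨a - (r + 1), by omega⟩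
      obtain ⟨w, hw⟩ := h
      have h1 : p ^ (2 * r) * (v₁ * (τ * v₁ + p ^ (s + 1) * ψ₁ * α)) =
          p ^ (2 * r) * (p * (p ^ (2 * s + 1) * ψ₁ ^ 2 * w)) := by
        calc p ^ (2 * r) * (v₁ * (τ * v₁ + p ^ (s + 1) * ψ₁ * α))
            = p ^ r * v₁ * (τ * (p ^ r * v₁) + p ^ (r + 1 + s) * ψ₁ * α) := by ring
          _ = (p ^ (r + 1 + s) * ψ₁) ^ 2 * w := hw
          _ = p ^ (2 * r) * (p * (p ^ (2 * s + 1) * ψ₁ ^ 2 * w)) := by ring
      have h2 := mul_left_cancel₀ (pow_ne_zero _ hp.ne_zero) h1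
      have h3 : p ∣ v₁ * (τ * v₁ + p ^ (s + 1) * ψ₁ * α) := ⟨_, h2⟩
      rw [pow_succ]
      refine mul_dvd_mul_left _ ?_
      rcases hp.prime.dvd_or_dvd h3 with h4 | h4
      · exact h4
      · have h5 : p ∣ p ^ (s + 1) * ψ₁ * α :=
          Dvd.dvd.mul_right (Dvd.dvd.mul_right (dvd_pow_self p (Nat.succ_ne_zero s)) _) _
        have h6 : p ∣ τ * v₁ := (dvd_add_left h5).1 h4
        exact (hp.prime.dvd_or_dvd h6).resolve_left hτ
  exact key a le_rfl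

end Pool.Agent.MP2696.Two
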