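import Pool.Agent.Lib.MP_2696ff_co.Two.SpecA

/-!
# MP_2696ff_co, `Two`: from equal decks to `Mate`
-/

set_option autoImplicit false

namespace Pool.Agent.MP2696.Two

open Matrix Polynomial

private theorem amate_bij {n : ℕ} (A B : Matrix (Fin n) (Fin n) ℤ)
    (h : (Finset.univ : Finset (Fin n)).val.map (fun v => (del A v).charpoly) =
      (Finset.univ : Finset (Fin n)).val.map (fun v => (del B v).charpoly)) :
    ∃ σ : Fin n ≃ Fin n, ∀ v, (del B (σ v)).charpoly = (del A v).charpoly := by
  classical
  have hcount : ∀ c : ℤ[X], Fintype.card {a : Fin n // (del A a).charpoly = c} =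
      Fintype.card {b : Fin n // (del B b).charpoly = c} := by
    intro c
    have h1 := congrArg (Multiset.count c) h
    rw [Multiset.count_map, Multiset.count_map] at h1
    rw [Fintype.card_subtype, Fintype.card_subtype]
    simp only [Finset.card, Finset.filter]
    simpa [eq_comm] using h1
  let e0 : ∀ c : ℤ[X], {a : Fin n // (fun v => (del A v).charpoly) a = c} ≃
      {b : Fin n // (fun v => (del B v).charpoly) b = c} :=
    fun c => Fintype.equivOfCardEq (hcount c)
  exact ⟨Equiv.ofFiberEquiv e0, fun v => Equiv.ofFiberEquiv_map e0 v⟩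

theorem tMate : S_Mate := by
  intro n A B hn hA hB h
  obtain ⟨σ, hσ⟩ := amate_bij A B h
  have hB' : Adj (B.submatrix σ σ) := hB.submatrix σ
  have hd : ∀ v, (del A v).charpoly = (del (B.submatrix σ σ) v).charpoly := by
    intro v
    rw [charpoly_del_submatrix B σ v, hσ]
  have hder : derivative (B.submatrix σ σ).charpoly = derivative A.charpoly := by
    rw [derivative_charpoly, derivative_charpoly]
    exact Finset.sum_congr rfl fun v _ => (hd v).symm
  have h0 : derivative ((B.submatrix σ σ).charpoly - A.charpoly) = 0 := by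
    rw [derivative_sub, hder, sub_self]
  have h1 := eq_C_of_derivative_eq_zero h0
  refine ⟨σ, ((B.submatrix σ σ).charpoly - A.charpoly).coeff 0, ⟨⟨hA.symm, hA.diag⟩,
    ⟨hB'.symm, hB'.diag⟩, ?_, ?_⟩, ?_⟩
  · intro i
    rw [al, al, ← charpoly_del, ← charpoly_del]
    exact hd i
  · rw [← h1]
    ring
  · exact row_sums A (B.submatrix σ σ) hA hB' (by rw [Fintype.card_fin]; exact hn) hd

end Pool.Agent.MP2696.Two
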