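import Pool.Agent.Lib.MP_2696ff_co.Two.SpecA

set_option autoImplicit false

namespace Pool.Agent.MP2696.Two

open Matrix Polynomial

private theorem al_symm {n : ℕ} (A : Matrix (Fin n) (Fin n) ℤ) (hA : Sz A) (i j : Fin n) :
    al A i j = al A j i := by
  have h : (charmatrix A)ᵀ = charmatrix A := by
    ext a b : 1
    rw [Matrix.transpose_apply, charmatrix_apply, charmatrix_apply, hA.1 a b]
    by_cases h : a = b
    · subst h; rfl
    · rw [Matrix.diagonal_apply_ne _ h, Matrix.diagonal_apply_ne _ (Ne.symm h)]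
  have h2 : (al A)ᵀ = al A := by
    rw [al, adjugate_transpose, h]
  exact congrFun (congrFun h2 j) i

private theorem red_C (c : ℤ) : red (C c) = C (c : ZMod 2) := by
  simp [red]

theorem tN0 : S_Jac → S_N0 := by
  intro hJ n A B c hM hc ψ hψ i j
  have hcB : red B.charpoly = red A.charpoly := by
    rw [hM.cp, map_add, red_C]
    have : (c : ZMod 2) = 0 := (ZMod.intCast_zmod_eq_zero_iff_dvd c 2).2 (by exact_mod_cast hc)
    rw [this, C_0, add_zero]
  obtain ⟨m, hm⟩ := hJ n A i j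
  obtain ⟨m', hm'⟩ := hJ n B i j
  rw [al_symm A hM.szA j i] at hm
  rw [al_symm B hM.szB j i, ← hM.diag, ← hM.diag] at hm'
  have h1 : red (al A i j - al B i j) ^ 2 = X ^ (n % 2) * ψ ^ 2 * (red m' - red m) := by
    have e1 := congrArg red hm
    have e2 := congrArg red hm'
    rw [map_sub, map_mul, map_mul, map_mul, hψ] at e1
    rw [map_sub, map_mul, map_mul, map_mul, hcB, hψ] at e2
    rw [map_sub]
    have h2 : (2 : (ZMod 2)[X]) = 0 := by
      have : (2 : ZMod 2) = 0 := by decide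
      rw [← C_ofNat, this, C_0]
    linear_combination e2 - e1 + (red (al B i j) ^ 2 - red (al A i j) * red (al B i j)) * h2
  have hne : X ^ (n % 2) * ψ ^ 2 ≠ 0 := by
    rw [← hψ]
    exact (A.charpoly_monic.map (Int.castRingHom (ZMod 2))).ne_zero
  have hψ0 : ψ ≠ 0 := by
    rintro rfl
    simp at hne
  have h3 : ψ ^ 2 ∣ red (al A i j - al B i j) ^ 2 := by
    rw [h1]
    exact Dvd.dvd.mul_right (Dvd.intro_left _ rfl) _
  have h4 : ψ ∣ red (al A i j - al B i j) := (IsIntegrallyClosed.pow_dvd_pow_iff two_ne_zero).1 h3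
  obtain ⟨h, hh⟩ := h4
  rw [hh, mul_comm]
  refine mul_dvd_mul_left _ ?_
  rcases Nat.mod_two_eq_zero_or_one n with h5 | h5
  · rw [h5]
    simp
  · rw [h5, pow_one]
    rw [hh, h5, pow_one] at h1
    have h6 : ψ ^ 2 * h ^ 2 = ψ ^ 2 * (X * (red m' - red m)) := by
      rw [← mul_pow, h1]
      ring
    have h7 := mul_left_cancel₀ (pow_ne_zero 2 hψ0) h6
    exact Polynomial.prime_X.dvd_of_dvd_pow ⟨_, h7⟩

end Pool.Agent.MP2696.Two
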