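import Pool.Agent.Lib.MP_2696ff_co.Two.Aux1

set_option autoImplicit false

namespace Pool.Agent.MP2696.Two

open Matrix Polynomial

theorem tN1 : S_Jac → S_N0 → S_N1 := by
  intro hJ hN0 n A B c hM hc ψ τ hψ i j
  have hred : red A.charpoly = X ^ (n % 2) * red ψ ^ 2 := by
    rw [hψ, map_add, map_mul, map_mul, map_pow, map_pow, red_X, red_two, zero_mul, add_zero]
  have hc2 : (2 : ℤ) ∣ c := dvd_trans (by norm_num) hc
  obtain ⟨v, hv⟩ := hN0 n A B c hM hc2 (red ψ) hred i j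
  refine ⟨v, hv, ?_⟩
  obtain ⟨V, rfl⟩ := red_surjective v
  have h1 : red (al A i j - al B i j) = red (X ^ (n % 2) * ψ * V) := by
    rw [hv, map_mul, map_mul, map_pow, red_X]
  obtain ⟨U, hU⟩ := (red_eq_iff _ _).1 h1
  obtain ⟨c', hc'⟩ := hc
  obtain ⟨m, hm⟩ := hJ n A i j
  obtain ⟨m', hm'⟩ := hJ n B i j
  rw [aux_al_symm hM.szA j i] at hm
  rw [aux_al_symm hM.szB j i, ← hM.diag, ← hM.diag, hM.cp] at hm'
  have hcC : (C c : ℤ[X]) = 4 * C c' := by rw [hc', C_mul, C_ofNat]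
  rw [hcC] at hm'
  set φ := A.charpoly with hφ
  set α := al A i j with hα
  set Y : ℤ[X] := X ^ (n % 2) with hY
  have hβ : al B i j = α - (Y * ψ * V + 2 * U) := by
    rw [← hU]
    ring
  rw [hβ] at hm'
  have e1 : 2 * (Y * (α * ψ * V + τ * V ^ 2)) = φ * (m' - m + Y * V ^ 2) +
      2 * (2 * (C c' * m' + U * Y * ψ * V - U * α + U ^ 2)) := by
    linear_combination hm' - hm - Y * V ^ 2 * hψ
  have hφ0 : red φ ≠ 0 := (red_charpoly_monic A).ne_zero
  have e2 : red (m' - m + Y * V ^ 2) = 0 := by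
    have h2 := congrArg red e1
    rw [map_add, map_mul red 2, map_mul red 2, red_two, zero_mul, zero_mul, add_zero, map_mul] at h2
    exact (mul_eq_zero.1 h2.symm).resolve_left hφ0
  obtain ⟨m1, hm1⟩ := (red_eq_zero_iff _).1 e2
  rw [hm1] at e1
  have e3 : (2 : ℤ[X]) * (Y * (α * ψ * V + τ * V ^ 2)) = 2 * (φ * m1 +
      2 * (C c' * m' + U * Y * ψ * V - U * α + U ^ 2)) := by
    rw [e1]
    ring
  have h20 : (2 : ℤ[X]) ≠ 0 := two_ne_zero
  have e4 := mul_left_cancel₀ h20 e3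
  have e5 := congrArg red e4
  rw [map_add, map_mul red 2, red_two, zero_mul, add_zero, map_mul, map_mul, hred] at e5
  have hYr : red Y = X ^ (n % 2) := by rw [hY, map_pow, red_X]
  rw [hYr, mul_assoc (X ^ (n % 2)) (red ψ ^ 2) (red m1)] at e5
  have e6 := mul_left_cancel₀ (pow_ne_zero _ (X_ne_zero : (X : (ZMod 2)[X]) ≠ 0)) e5
  refine ⟨red m1, ?_⟩
  rw [← e6, map_add, map_mul, map_mul, map_mul, map_pow]
  ring

end Pool.Agent.MP2696.Two
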