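import Pool.Agent.Lib.MP_2696ff_co.Two.Aux1

set_option autoImplicit false

namespace Pool.Agent.MP2696.Two

open Matrix Polynomial

private theorem sum_even {n : ℕ} {A : Matrix (Fin n) (Fin n) ℤ} (hH : S_Half) (hA : Sz A) :
    (2 : ℤ) ∣ ∑ i, ∑ k, A i k := by
  obtain ⟨P, -, hP⟩ := hH n (A.map C) ⊤ ⟨fun i j => by simp [hA.1 i j], fun i => by simp [hA.2 i]⟩
    (fun _ _ => Submodule.mem_top) (fun _ => 1)
  have h1 : C (∑ i, ∑ k, A i k) = C (2 : ℤ) * P := by
    rw [C_ofNat, ← hP, map_sum]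
    refine Finset.sum_congr rfl fun i _ => ?_
    rw [map_sum]
    refine Finset.sum_congr rfl fun j _ => ?_
    simp
  have h2 := congrArg (fun p => p.coeff 0) h1
  simp only [coeff_C_mul, coeff_C_zero] at h2
  exact ⟨_, h2⟩

theorem tOdd : S_Par → S_Form → S_N0 → S_Half → S_Wid → S_Odd := by
  intro hP hF hN0 hH hW n A B c hn hn1 hM hd
  have hc2 : (2 : ℤ) ∣ c := by
    have h1 := hP n A hM.szA 0 (by omega)
    have h2 := hP n B hM.szB 0 (by omega)
    rw [hM.cp, coeff_add, coeff_C_zero] at h2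
    exact (dvd_add_right h1).1 h2
  obtain ⟨ψ, τ, hψ, hψm, hψd⟩ := hF n A hM.szA
  have hred : red A.charpoly = X ^ (n % 2) * red ψ ^ 2 := by
    rw [hψ, map_add, map_mul, map_mul, map_pow, map_pow, red_X, red_two, zero_mul, add_zero]
  have hN := hN0 n A B c hM hc2 (red ψ) hred
  rw [hn1, pow_one] at hN
  set N : Matrix (Fin n) (Fin n) ℤ[X] := Matrix.of fun i j => al A i j - al B i j with hNdef
  have hNij : ∀ i j, N i j = al A i j - al B i j := fun i j => rfl
  have hNsz : Sz N := by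
    refine ⟨fun i j => ?_, fun i => ?_⟩
    · rw [hNij, hNij, aux_al_symm hM.szA i j, aux_al_symm hM.szB i j]
    · rw [hNij, hM.diag i, sub_self]
  set I : Ideal ℤ[X] := Ideal.comap red (Ideal.span {X * red ψ}) with hI
  have hmem : ∀ x, x ∈ I ↔ X * red ψ ∣ red x := by
    intro x
    rw [hI, Ideal.mem_comap, Ideal.mem_span_singleton]
  have hNI : ∀ i j, N i j ∈ I := fun i j => (hmem _).2 (hN i j)
  obtain ⟨P0, hP0, hP0e⟩ := hH n N I hNsz hNI (fun _ => 1)
  obtain ⟨P1, hP1, hP1e⟩ := hH n N I hNsz hNI (fun i => C (∑ k, A i k))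
  obtain ⟨c', hc'⟩ := hc2
  set s := ∑ i, ∑ k, A i k with hs
  have hsB : ∑ i, ∑ k, B i k = s := Finset.sum_congr rfl fun i _ => (hd i).symm
  have hWA := hW n A hM.szA
  have hWB := hW n B hM.szB
  rw [hsB, hM.cp] at hWB
  simp_rw [← hd] at hWB
  have e0 : ∑ i, ∑ j, al A i j - ∑ i, ∑ j, al B i j = 2 * P0 := by
    rw [← hP0e, ← Finset.sum_sub_distrib]
    refine Finset.sum_congr rfl fun i _ => ?_
    rw [← Finset.sum_sub_distrib]
    refine Finset.sum_congr rfl fun j _ => ?_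
    rw [hNij, mul_one, mul_one]
  have e1 : ∑ i, ∑ j, al A i j * C (∑ k, A i k) * C (∑ k, A j k) -
      ∑ i, ∑ j, al B i j * C (∑ k, A i k) * C (∑ k, A j k) = 2 * P1 := by
    rw [← hP1e, ← Finset.sum_sub_distrib]
    refine Finset.sum_congr rfl fun i _ => ?_
    rw [← Finset.sum_sub_distrib]
    refine Finset.sum_congr rfl fun j _ => ?_
    rw [hNij]
    ring
  have e2 : (2 : ℤ[X]) * P1 = 2 * (X ^ 2 * P0 + (X * C (n : ℤ) + C s) * C c') := by
    have hcC : (C c : ℤ[X]) = 2 * C c' := by rw [hc', C_mul, C_ofNat]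
    rw [← e1, hWA, hWB, hcC]
    linear_combination X ^ 2 * e0
  have h20 : (2 : ℤ[X]) ≠ 0 := two_ne_zero
  have e3 := mul_left_cancel₀ h20 e2
  have e4 : (X * C (n : ℤ) + C s) * C c' ∈ I := by
    have : (X * C (n : ℤ) + C s) * C c' = P1 - X ^ 2 * P0 := by
      rw [e3]
      ring
    rw [this]
    exact I.sub_mem hP1 (I.mul_mem_left _ hP0)
  rw [hmem, map_mul, map_add, map_mul, red_X, red_C, red_C, red_C] at e4
  have hs0 : ((s : ℤ) : ZMod 2) = 0 :=
    (ZMod.intCast_zmod_eq_zero_iff_dvd _ 2).2 (by exact_mod_cast sum_even hH hM.szA)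
  have hn0 : (((n : ℕ) : ℤ) : ZMod 2) = 1 := by
    have : n = 2 * (n / 2) + 1 := by omega
    rw [this]
    push_cast
    have h2 : (2 : ZMod 2) = 0 := by decide
    rw [h2, zero_mul, zero_add]
  rw [hs0, hn0, C_0, C_1, mul_one, add_zero] at e4
  by_cases h : ((c' : ℤ) : ZMod 2) = 0
  · have h5 := (ZMod.intCast_zmod_eq_zero_iff_dvd _ 2).1 h
    obtain ⟨d, hd'⟩ := h5
    refine ⟨d, ?_⟩
    rw [hc', hd']
    push_cast
    ring
  · exfalso
    rw [zmod2_ne_zero h, C_1, mul_one] at e4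
    have h6 : X * red ψ ∣ X * 1 := by rwa [mul_one]
    have h7 := (mul_dvd_mul_iff_left (X_ne_zero : (X : (ZMod 2)[X]) ≠ 0)).1 h6
    have h8 := natDegree_eq_zero_of_isUnit (isUnit_of_dvd_one h7)
    rw [hψd] at h8
    omega

end Pool.Agent.MP2696.Two
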