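import Pool.Agent.Lib.MP_2696ff_co.Two.SpecA

set_option autoImplicit false

namespace Pool.Agent.MP2696.Two

open Matrix Polynomial

theorem tPar : S_Par := by
  intro n A hA k hk
  set S : Matrix (Fin n) (Fin n) ℤ := Matrix.of fun i j => if i < j then A i j else - A i j with hS
  have hSij : ∀ i j, S i j = if i < j then A i j else - A i j := fun i j => rfl
  have hST : ∀ i j, S i j = - S j i := by
    intro i j
    rw [hSij, hSij]
    rcases lt_trichotomy i j with h | h | h
    · rw [if_pos h, if_neg h.asymm, hA.1 i j, neg_neg]
    · subst h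
      simp [hA.2 i]
    · rw [if_neg h.asymm, if_pos h, hA.1 i j]
  have hred : S.map (Int.castRingHom (ZMod 2)) = A.map (Int.castRingHom (ZMod 2)) := by
    ext i j : 1
    rw [Matrix.map_apply, Matrix.map_apply, hSij]
    split_ifs with h
    · rfl
    · rw [map_neg, CharTwo.neg_eq]
  have hcp : red S.charpoly = red A.charpoly := by
    have h1 : red S.charpoly = (S.map (Int.castRingHom (ZMod 2))).charpoly := (charpoly_map _ _).symm
    have h2 : red A.charpoly = (A.map (Int.castRingHom (ZMod 2))).charpoly := (charpoly_map _ _).symm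
    rw [h1, h2, hred]
  have hcomp : S.charpoly.comp (C (-1) * X) = (-1) ^ n * S.charpoly := by
    have h1 : S.charpoly.comp (C (-1) * X) = (compRingHom (C (-1) * X)) S.charpoly := rfl
    rw [h1, charpoly, RingHom.map_det]
    have h2 : (compRingHom (C (-1 : ℤ) * X)).mapMatrix (charmatrix S) = -(charmatrix Sᵀ) := by
      ext i j : 1
      rw [RingHom.mapMatrix_apply, map_apply, neg_apply, charmatrix_apply, charmatrix_apply,
        transpose_apply, hST i j]
      by_cases h : i = j
      · subst h
        simp only [diagonal_apply_eq, map_sub, map_neg, map_one, coe_compRingHom_apply, X_comp, C_comp]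
        ring
      · simp only [diagonal_apply_ne _ h, map_sub, map_neg, coe_compRingHom_apply, zero_comp, C_comp]
        ring
    rw [h2, det_neg, Fintype.card_fin]
    have h3 : (charmatrix Sᵀ).det = (charmatrix S).det := charpoly_transpose S
    rw [h3]
  have h1 := congrArg (fun p => p.coeff k) hcomp
  simp only [comp_C_mul_X_coeff] at h1
  have h2 : ((-1 : ℤ[X]) ^ n * S.charpoly).coeff k = (-1) ^ n * S.charpoly.coeff k := by
    have : (-1 : ℤ[X]) ^ n = C ((-1) ^ n) := by simp
    rw [this, coeff_C_mul]
  rw [h2] at h1
  have h3 : S.charpoly.coeff k = 0 := by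
    rcases Nat.even_or_odd n with hn | hn
    · have hk' : Odd k := by
        rw [Nat.odd_iff]
        rw [Nat.even_iff] at hn
        omega
      rw [hn.neg_one_pow, hk'.neg_one_pow] at h1
      linarith
    · have hk' : Even k := by
        rw [Nat.even_iff]
        rw [Nat.odd_iff] at hn
        omega
      rw [hn.neg_one_pow, hk'.neg_one_pow] at h1
      linarith
  have h4 := congrArg (fun p => p.coeff k) hcp
  simp only [red, coe_mapRingHom, coeff_map, h3, map_zero] at h4
  have h5 : ((A.charpoly.coeff k : ℤ) : ZMod 2) = 0 := h4.symm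
  exact_mod_cast (ZMod.intCast_zmod_eq_zero_iff_dvd _ 2).1 h5

end Pool.Agent.MP2696.Two
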