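import Pool.Agent.Lib.MP_2696ff_co.Two.SpecA

/-!
# MP_2696ff_co, `Two.APf`: the determinant of a skew symmetric matrix is a square
-/

set_option autoImplicit false

namespace Pool.Agent.MP2696.Two

open Matrix Polynomial

private theorem pf_gen (K : Type) [Field K] [CharZero K] : ∀ (m : ℕ) (κ : Type) [Fintype κ]
    [DecidableEq κ] (M : Matrix κ κ K), Fintype.card κ ≤ m → Mᵀ = -M → ∃ t : K, M.det = t ^ 2 := by
  intro m
  induction m with
  | zero =>
    intro κ _ _ M hκ _
    have : IsEmpty κ := Fintype.card_eq_zero_iff.mp (Nat.le_zero.mp hκ)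
    exact ⟨1, by rw [det_isEmpty]; ring⟩
  | succ m ih =>
    intro κ _ _ M hκ hM
    by_cases h0 : ∃ i j, M i j ≠ 0
    · obtain ⟨i, j, hij⟩ := h0
      have hs : ∀ a b, M a b = - M b a := fun a b => by
        have := congrFun (congrFun hM b) a
        simpa using this
      have hd : ∀ a, M a a = 0 := fun a => by
        have := hs a a
        exact self_eq_neg.mp this
      have hne : i ≠ j := fun h => hij (h ▸ hd i)
      let f : Fin 2 ⊕ {k : κ // k ≠ i ∧ k ≠ j} → κ := Sum.elim ![i, j] Subtype.val
      have hf : Function.Bijective f := by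
        constructor
        · rintro (a | a) (b | b) hab
          · fin_cases a <;> fin_cases b
            · rfl
            · exact absurd hab hne
            · exact absurd hab.symm hne
            · rfl
          · have hb := b.2
            fin_cases a
            · exact absurd hab.symm hb.1
            · exact absurd hab.symm hb.2
          · have hb := a.2
            fin_cases b
            · exact absurd hab hb.1
            · exact absurd hab hb.2
          · exact congrArg Sum.inr (Subtype.ext hab)
        · intro k
          by_cases h1 : k = i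
          · exact ⟨Sum.inl 0, h1.symm⟩
          by_cases h2 : k = j
          · exact ⟨Sum.inl 1, h2.symm⟩
          exact ⟨Sum.inr ⟨k, h1, h2⟩, rfl⟩
      let e := Equiv.ofBijective f hf
      have hcard : Fintype.card {k : κ // k ≠ i ∧ k ≠ j} ≤ m := by
        have := Fintype.card_congr e
        rw [Fintype.card_sum, Fintype.card_fin] at this
        omega
      set u := M i j with hu
      let A : Matrix (Fin 2) (Fin 2) K := !![0, u; -u, 0]
      let Ai : Matrix (Fin 2) (Fin 2) K := !![0, -u⁻¹; u⁻¹, 0]
      let _ : Invertible A := ⟨Ai, by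
        ext a b
        fin_cases a <;> fin_cases b <;> simp [A, Ai, Matrix.mul_apply, hij], by
        ext a b
        fin_cases a <;> fin_cases b <;> simp [A, Ai, Matrix.mul_apply, hij]⟩
      let F : Matrix (Fin 2) {k : κ // k ≠ i ∧ k ≠ j} K := Matrix.of fun a b => M (f (Sum.inl a)) b.1
      let D : Matrix {k : κ // k ≠ i ∧ k ≠ j} {k : κ // k ≠ i ∧ k ≠ j} K :=
        Matrix.of fun a b => M a.1 b.1
      have hM' : M.submatrix e e = fromBlocks A F (-Fᵀ) D := by
        ext a b
        rcases a with a | a <;> rcases b with b | b
        · fin_cases a <;> fin_cases b <;> simp [e, f, A, hd, hs j i, ← hu]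
        · rfl
        · simp only [submatrix_apply, fromBlocks_apply₂₁, Matrix.neg_apply, transpose_apply]
          exact hs _ _
        · rfl
      have hAi : Aiᵀ = -Ai := by
        ext a b
        fin_cases a <;> fin_cases b <;> simp [Ai]
      have hinv : ⅟A = Ai := rfl
      have hDt : Dᵀ = -D := by
        ext a b
        exact hs _ _
      have hS : (D - -Fᵀ * ⅟A * F)ᵀ = -(D - -Fᵀ * ⅟A * F) := by
        rw [hinv, transpose_sub, transpose_mul, transpose_mul, hAi, hDt, transpose_neg,
          transpose_transpose]
        simp only [Matrix.neg_mul, Matrix.mul_neg, neg_neg, Matrix.mul_assoc]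
        abel
      obtain ⟨t, ht⟩ := ih _ (D - -Fᵀ * ⅟A * F) hcard hS
      refine ⟨u * t, ?_⟩
      rw [← det_submatrix_equiv_self e M, hM', det_fromBlocks₁₁, ht, det_fin_two]
      simp [A]
      ring
    · push Not at h0
      have hM0 : M = 0 := by
        ext a b
        exact h0 a b
      rcases isEmpty_or_nonempty κ with hκ0 | hκ0
      · exact ⟨1, by rw [det_isEmpty]; ring⟩
      · exact ⟨0, by rw [hM0, det_zero]; ring⟩

theorem tPf : S_Pf := by
  intro K _ _ n M hM
  exact pf_gen K n (Fin n) M (by simp) hM

end Pool.Agent.MP2696.Two
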