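import Pool.Agent.Lib.MP_2696ff_co.Two.SpecA

set_option autoImplicit false

namespace Pool.Agent.MP2696.Two

open Matrix Polynomial

private noncomputable def Hs {n : ℕ} {R : Type*} [CommRing R] (f : Fin n → Fin n → R) : R :=
  ∑ i, ∑ j, if i < j then f i j else 0

private theorem Hs_split {n : ℕ} {R : Type*} [CommRing R] (f : Fin n → Fin n → R)
    (hf : ∀ i j, f i j = f j i) : ∑ i, ∑ j, f i j = ∑ i, f i i + 2 * Hs f := by
  have h1 : ∀ i j, f i j = (if i = j then f i i else 0) + (if i < j then f i j else 0) +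
      (if j < i then f j i else 0) := by
    intro i j
    rcases lt_trichotomy i j with h | h | h
    · rw [if_neg h.ne, if_pos h, if_neg h.not_gt]; ring
    · subst h
      simp
    · rw [if_neg h.ne', if_neg h.not_gt, if_pos h, hf i j]; ring
  have h2 : ∑ i, ∑ j, f i j = ∑ i, ∑ j, ((if i = j then f i i else 0) +
      (if i < j then f i j else 0) + (if j < i then f j i else 0)) :=
    Finset.sum_congr rfl fun i _ => Finset.sum_congr rfl fun j _ => h1 i j
  rw [h2]
  simp only [Finset.sum_add_distrib]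
  have h3 : ∑ i, ∑ j, (if j < i then f j i else 0) = Hs f := by
    rw [Finset.sum_comm]
    rfl
  have h4 : ∑ i, ∑ j, (if i = j then f i i else 0) = ∑ i, f i i := by
    refine Finset.sum_congr rfl fun i _ => ?_
    rw [Finset.sum_ite_eq]
    simp
  rw [h3, h4]
  show ∑ i, f i i + Hs f + Hs f = _
  ring

private theorem Hs_sub {n : ℕ} {R : Type*} [CommRing R] (f g : Fin n → Fin n → R) (c : R) :
    Hs (fun i j => f i j + c * g i j) = Hs f + c * Hs g := by
  unfold Hs
  rw [Finset.mul_sum, ← Finset.sum_add_distrib]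
  refine Finset.sum_congr rfl fun i _ => ?_
  rw [Finset.mul_sum, ← Finset.sum_add_distrib]
  refine Finset.sum_congr rfl fun j _ => ?_
  split_ifs <;> simp

private theorem char2_sq_sum {ι : Type*} (s : Finset ι) (f : ι → (ZMod 2)[X]) :
    (∑ i ∈ s, f i) ^ 2 = ∑ i ∈ s, f i ^ 2 := by
  have := map_sum (frobenius (ZMod 2)[X] 2) f s
  simp only [frobenius_def] at this
  exact this

private theorem Hs_sq {n : ℕ} (f : Fin n → Fin n → (ZMod 2)[X]) :
    Hs (fun i j => f i j ^ 2) = Hs f ^ 2 := by
  unfold Hs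
  rw [char2_sq_sum]
  refine Finset.sum_congr rfl fun i _ => ?_
  rw [char2_sq_sum]
  refine Finset.sum_congr rfl fun j _ => ?_
  split_ifs <;> simp

private theorem Hs_map {n : ℕ} {R S : Type*} [CommRing R] [CommRing S] (r : R →+* S)
    (f : Fin n → Fin n → R) : r (Hs f) = Hs (fun i j => r (f i j)) := by
  unfold Hs
  rw [map_sum]
  refine Finset.sum_congr rfl fun i _ => ?_
  rw [map_sum]
  refine Finset.sum_congr rfl fun j _ => ?_
  split_ifs <;> simp

private theorem al_symm {n : ℕ} {A : Matrix (Fin n) (Fin n) ℤ} (hA : Sz A) (i j : Fin n) :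
    al A i j = al A j i := by
  have h1 : (charmatrix A)ᵀ = charmatrix A := by
    ext a b : 1
    rw [Matrix.transpose_apply, charmatrix_apply, charmatrix_apply, hA.1 b a]
    by_cases h : a = b
    · subst h; rfl
    · rw [Matrix.diagonal_apply_ne _ h, Matrix.diagonal_apply_ne _ (Ne.symm h)]
  have h2 : (al A)ᵀ = al A := by
    rw [al, adjugate_transpose, h1]
  exact congrFun (congrFun h2 j) i

private theorem der2 (p : ℤ[X]) : ∃ u : ℤ[X], derivative (derivative p) = 2 * u := by
  refine ⟨hasseDeriv 2 p, ?_⟩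
  have h := congrFun (Polynomial.factorial_smul_hasseDeriv (R := ℤ) 2) p
  simp only [Pi.smul_apply, Function.iterate_succ, Function.iterate_zero, Function.comp_apply, id] at h
  rw [← h]
  simp [Nat.factorial, two_mul, two_smul]

private theorem red_two : red 2 = 0 := by
  have : red 2 = 2 := map_ofNat red 2
  rw [this]
  exact CharTwo.two_eq_zero

private theorem red_der (p : ℤ[X]) : red (derivative p) = derivative (red p) := by
  show (derivative p).map _ = derivative (p.map _)
  rw [derivative_map]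

theorem tQ1 : S_Tr → S_Q1 := by
  intro hTr n A B c h hc ψ hψ Ψ hΨ
  set φ := A.charpoly with hφ
  have hdd : derivative B.charpoly = derivative φ := by
    rw [h.cp, derivative_add, derivative_C, add_zero]
  have two_ne : (2 : ℤ[X]) ≠ 0 := two_ne_zero
  -- Ψ
  have hP : Ψ = Hs (fun i j => al A i j - al B i j) := by
    have h1 := Hs_split (fun i j => al A i j - al B i j)
      (fun i j => by rw [al_symm h.szA i j, al_symm h.szB i j])
    rw [hΨ] at h1
    have h2 : ∑ i, (al A i i - al B i i) = 0 := Finset.sum_eq_zero fun i _ => by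
      rw [h.diag i, sub_self]
    rw [h2, zero_add] at h1
    exact mul_left_cancel₀ two_ne h1
  set Θ := Hs (fun i j => (al A i j - al B i j) ^ 2) with hΘ
  have hred : red Θ = red Ψ ^ 2 := by
    rw [hP, hΘ, Hs_map, Hs_map, ← Hs_sq]
    congr 1
    funext i j
    rw [map_pow]
  -- traces
  have trA := hTr n A
  have trB := hTr n B
  have tr_eq : ∀ M : Matrix (Fin n) (Fin n) ℤ, Sz M →
      (al M * al M).trace = ∑ i, al M i i ^ 2 + 2 * Hs (fun i j => al M i j ^ 2) := by
    intro M hM
    have h1 := Hs_split (fun i j => al M i j ^ 2) (fun i j => by rw [al_symm hM i j])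
    rw [← h1, Matrix.trace]
    refine Finset.sum_congr rfl fun i _ => ?_
    rw [Matrix.diag_apply, Matrix.mul_apply]
    refine Finset.sum_congr rfl fun j _ => ?_
    rw [al_symm hM j i, sq]
  rw [tr_eq A h.szA] at trA
  rw [tr_eq B h.szB, hdd, h.cp] at trB
  have hdiag : ∑ i, al B i i ^ 2 = ∑ i, al A i i ^ 2 :=
    Finset.sum_congr rfl fun i _ => by rw [h.diag i]
  rw [hdiag] at trB
  set F := ∑ i, al A i i ^ 2 with hF
  set Λ := Hs (fun i j => al A i j * al B i j) with hΛ
  have hΘ2 : Θ = Hs (fun i j => al A i j ^ 2) + Hs (fun i j => al B i j ^ 2) - 2 * Λ := by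
    have h1 := Hs_sub (fun i j => al A i j ^ 2 + (1 : ℤ[X]) * al B i j ^ 2)
      (fun i j => al A i j * al B i j) (-2)
    have h2 := Hs_sub (fun i j => al A i j ^ 2) (fun i j => al B i j ^ 2) (1 : ℤ[X])
    rw [h2] at h1
    have h3 : Θ = Hs (fun i j => al A i j ^ 2 + (1 : ℤ[X]) * al B i j ^ 2 +
        -2 * (al A i j * al B i j)) := by
      rw [hΘ]
      congr 1
      funext i j
      ring
    rw [h3, h1]
    ring
  obtain ⟨χ, hχ⟩ := der2 φ
  rw [hχ] at trA trB
  have hΘ3 : Θ = derivative φ ^ 2 - (2 * φ + C c) * χ - F - 2 * Λ := by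
    apply mul_left_cancel₀ two_ne
    rw [hΘ2]
    linear_combination trA + trB
  -- reductions
  have hFr : red F = red (derivative φ) ^ 2 := by
    have h1 : red (derivative φ) = ∑ i, red (al A i i) := by
      rw [hφ, derivative_charpoly, map_sum]
      refine Finset.sum_congr rfl fun i _ => ?_
      rw [charpoly_del]
      rfl
    rw [h1, char2_sq_sum, hF, map_sum]
    refine Finset.sum_congr rfl fun i _ => ?_
    rw [map_pow]
  have hcr : red (C c) = 1 := by
    have : red (C c) = C (c : ZMod 2) := by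
      show (C c).map _ = _
      rw [Polynomial.map_C]
      rfl
    rw [this]
    have h1 : (c : ZMod 2) = 1 := by
      have h2 : (c : ZMod 2) ≠ 0 := fun h0 => hc ((ZMod.intCast_zmod_eq_zero_iff_dvd c 2).1 h0)
      revert h2
      generalize (c : ZMod 2) = z
      revert z
      decide
    rw [h1, C_1]
  have hr1 : red Ψ ^ 2 = red χ := by
    rw [← hred, hΘ3]
    simp only [map_sub, map_mul, map_add, map_pow, red_two, hcr, hFr]
    have : (-red χ : (ZMod 2)[X]) = red χ := CharTwo.neg_eq _
    linear_combination this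
  obtain ⟨ψ₀, hψ₀⟩ : ∃ p : ℤ[X], red p = ψ :=
    Polynomial.map_surjective _ (ZMod.ringHom_surjective _) ψ
  obtain ⟨τ, hτ⟩ : ∃ τ : ℤ[X], φ = ψ₀ ^ 2 + 2 * τ := by
    have h1 : red (φ - ψ₀ ^ 2) = 0 := by
      rw [map_sub, map_pow, hψ₀, hψ, sub_self]
    have h2 : C (2 : ℤ) ∣ φ - ψ₀ ^ 2 := by
      rw [C_dvd_iff_dvd_coeff]
      intro k
      have h3 := congrArg (fun p : (ZMod 2)[X] => p.coeff k) h1
      have h4 : (red (φ - ψ₀ ^ 2)).coeff k = (((φ - ψ₀ ^ 2).coeff k : ℤ) : ZMod 2) := by
        show ((φ - ψ₀ ^ 2).map _).coeff k = _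
        rw [coeff_map]
        rfl
      simp only [h4, coeff_zero] at h3
      exact (ZMod.intCast_zmod_eq_zero_iff_dvd _ 2).1 h3
    obtain ⟨τ, hτ⟩ := h2
    refine ⟨τ, ?_⟩
    have : (C (2 : ℤ) : ℤ[X]) = 2 := by simp
    rw [this] at hτ
    linear_combination hτ
  obtain ⟨u, hu⟩ := der2 ψ₀
  obtain ⟨w, hw⟩ := der2 τ
  have hχ2 : χ = derivative ψ₀ ^ 2 + 2 * (ψ₀ * u + w) := by
    apply mul_left_cancel₀ two_ne
    rw [← hχ, hτ]
    have e1 : derivative (ψ₀ ^ 2 + 2 * τ) = 2 * (ψ₀ * derivative ψ₀) + 2 * derivative τ := by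
      rw [derivative_add, sq, derivative_mul, show (2 : ℤ[X]) = C 2 by simp, derivative_C_mul]
      ring_nf
      simp
    have e2 : derivative (2 * (ψ₀ * derivative ψ₀) + 2 * derivative τ) =
        2 * (derivative ψ₀ * derivative ψ₀ + ψ₀ * derivative (derivative ψ₀)) +
        2 * derivative (derivative τ) := by
      rw [show (2 : ℤ[X]) = C 2 by simp, derivative_add, derivative_C_mul, derivative_C_mul,
        derivative_mul]
    rw [e1, e2, hu, hw]
    ring
  have hr2 : red χ = derivative ψ ^ 2 := by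
    rw [hχ2, map_add, map_mul, red_two, zero_mul, add_zero, map_pow, red_der, hψ₀]
  have hr3 : (frobenius (ZMod 2)[X] 2) (red Ψ) = (frobenius (ZMod 2)[X] 2) (derivative ψ) := by
    rw [frobenius_def, frobenius_def, hr1, hr2]
  exact frobenius_inj (ZMod 2)[X] 2 hr3

end Pool.Agent.MP2696.Two
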