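import Pool.Agent.Lib.MP_2696ff_co.Two.SpecA

set_option autoImplicit false

namespace Pool.Agent.MP2696.Two

open Matrix Polynomial

private noncomputable def Hs {n : ℕ} {R : Type*} [CommRing R] (f : Fin n → Fin n → R) : R :=
  ∑ i, ∑ j, if i < j then f i j else 0

private theorem Hs_split {n : ℕ} {R : Type*} [CommRing R] (f : Fin n → Fin n → R)
    (hf : ∀ i j, f i j = f j i) : ∑ i, ∑ j, f i j = ∑ i, f i i + 2 * Hs f := by
  have h1 : ∀ i j, f i j = (if i = j then f i i else 0) + (if i < j then f i j else 0) +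
      (if j < i then f j i else 0) := by
    intro i j
    rcases lt_trichotomy i j with h | h | h
    · rw [if_neg h.ne, if_pos h, if_neg h.not_gt]; ring
    · subst h
      simp
    · rw [if_neg h.ne', if_neg h.not_gt, if_pos h, hf i j]; ring
  have h2 : ∑ i, ∑ j, f i j = ∑ i, ∑ j, ((if i = j then f i i else 0) +
      (if i < j then f i j else 0) + (if j < i then f j i else 0)) :=
    Finset.sum_congr rfl fun i _ => Finset.sum_congr rfl fun j _ => h1 i j
  rw [h2]
  simp only [Finset.sum_add_distrib]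
  have h3 : ∑ i, ∑ j, (if j < i then f j i else 0) = Hs f := by
    rw [Finset.sum_comm]
    rfl
  have h4 : ∑ i, ∑ j, (if i = j then f i i else 0) = ∑ i, f i i := by
    refine Finset.sum_congr rfl fun i _ => ?_
    rw [Finset.sum_ite_eq]
    simp
  rw [h3, h4]
  show ∑ i, f i i + Hs f + Hs f = _
  ring

private theorem al_symm {n : ℕ} {A : Matrix (Fin n) (Fin n) ℤ} (hA : Sz A) (i j : Fin n) :
    al A i j = al A j i := by
  have h1 : (charmatrix A)ᵀ = charmatrix A := by
    ext a b : 1
    rw [Matrix.transpose_apply, charmatrix_apply, charmatrix_apply, hA.1 b a]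
    by_cases h : a = b
    · subst h; rfl
    · rw [Matrix.diagonal_apply_ne _ h, Matrix.diagonal_apply_ne _ (Ne.symm h)]
  have h2 : (al A)ᵀ = al A := by
    rw [al, adjugate_transpose, h1]
  exact congrFun (congrFun h2 j) i

private theorem red_two : red 2 = 0 := by
  have : red 2 = 2 := map_ofNat red 2
  rw [this]
  exact CharTwo.two_eq_zero

private theorem red_four : red 4 = 0 := by
  rw [show (4 : ℤ[X]) = 2 * 2 by norm_num, map_mul, red_two, zero_mul]

private theorem red_der (p : ℤ[X]) : red (derivative p) = derivative (red p) := by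
  show (derivative p).map _ = derivative (p.map _)
  rw [derivative_map]

private theorem red_C (m : ℤ) : red (C m) = C (m : ZMod 2) := by
  show (C m).map _ = _
  rw [Polynomial.map_C]
  rfl

/-- The sum of all entries is the derivative modulo 2. -/
private theorem red_sum {n : ℕ} {A : Matrix (Fin n) (Fin n) ℤ} (hA : Sz A) :
    red (∑ i, ∑ j, al A i j) = derivative (red A.charpoly) := by
  rw [Hs_split _ (al_symm hA), map_add, map_mul, red_two, zero_mul, add_zero, ← red_der,
    derivative_charpoly]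
  congr 1
  refine Finset.sum_congr rfl fun i _ => ?_
  rw [charpoly_del]
  rfl

private theorem sz_pert {n : ℕ} {A : Matrix (Fin n) (Fin n) ℤ} (hA : Sz A) :
    Sz (Matrix.of fun i j => C (A i j) + (if i = j then 0 else (X : ℤ[X]))) := by
  constructor
  · intro i j
    rw [Matrix.of_apply, Matrix.of_apply, hA.1 i j]
    by_cases h : i = j
    · rw [if_pos h, if_pos h.symm]
    · rw [if_neg h, if_neg (Ne.symm h)]
  · intro i
    rw [Matrix.of_apply, hA.2 i, if_pos rfl, C_0, add_zero]

private theorem ker_red (p : ℤ[X]) (h : red p = 0) : ∃ u, p = 2 * u := by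
  have h2 : C (2 : ℤ) ∣ p := by
    rw [C_dvd_iff_dvd_coeff]
    intro k
    have h3 := congrArg (fun p : (ZMod 2)[X] => p.coeff k) h
    have h4 : (red p).coeff k = ((p.coeff k : ℤ) : ZMod 2) := by
      show (p.map _).coeff k = _
      rw [coeff_map]
      rfl
    simp only [h4, coeff_zero] at h3
    exact (ZMod.intCast_zmod_eq_zero_iff_dvd _ 2).1 h3
  obtain ⟨u, hu⟩ := h2
  refine ⟨u, ?_⟩
  rw [hu]
  simp

theorem tQ2 : S_FP → S_Rk → S_Q2 := by
  intro hFP hRk q A B c h hc ψ hψ Ψ hΨ
  have two_ne : (2 : ℤ[X]) ≠ 0 := two_ne_zero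
  set φ := A.charpoly with hφ
  set EA := ∑ i, ∑ j, al A i j with hEA
  set EB := ∑ i, ∑ j, al B i j with hEB
  have hE : EA - EB = 2 * Ψ := by
    rw [← hΨ, hEA, hEB, ← Finset.sum_sub_distrib]
    refine Finset.sum_congr rfl fun i _ => ?_
    rw [← Finset.sum_sub_distrib]
  obtain ⟨s, t, hs⟩ := hFP q _ (sz_pert h.szA)
  obtain ⟨s', t', hs'⟩ := hFP q _ (sz_pert h.szB)
  rw [hRk q A, ← hφ, ← hEA] at hs
  rw [hRk q B, h.cp, ← hφ, ← hEB] at hs'
  have hc1 : (c : ZMod 2) = 1 := by
    have h2 : (c : ZMod 2) ≠ 0 := fun h0 => hc ((ZMod.intCast_zmod_eq_zero_iff_dvd c 2).1 h0)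
    revert h2
    generalize (c : ZMod 2) = z
    revert z
    decide
  have hcr : red (C c) = 1 := by rw [red_C, hc1, C_1]
  have hder : derivative (ψ ^ 2) = 0 := by
    rw [sq, derivative_mul, mul_comm (derivative ψ) ψ]
    exact CharTwo.add_self_eq_zero _
  have hrA : red EA = 0 := by
    rw [hEA, red_sum h.szA, ← hφ, hψ, hder]
  have hrB : red EB = 0 := by
    rw [hEB, red_sum h.szB, h.cp, map_add, ← hφ, hψ, hcr, derivative_add, hder, derivative_one,
      add_zero]
  -- the sign
  obtain ⟨e, he⟩ : ∃ e : ℤ, (-1 : ℤ) ^ q = 1 + 2 * e := by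
    rcases neg_one_pow_eq_or ℤ q with h1 | h1
    · exact ⟨0, by rw [h1]; norm_num⟩
    · exact ⟨-1, by rw [h1]; norm_num⟩
  have heX : ((-1 : ℤ[X])) ^ q = 1 + 2 * C e := by
    have := congrArg (fun z : ℤ => (C z : ℤ[X])) he
    simpa using this
  have hre : red ((-1 : ℤ[X]) ^ q) = 1 := by
    rw [heX, map_add, map_mul, red_two, zero_mul, add_zero, map_one]
  have hinj := frobenius_inj (ZMod 2)[X] 2
  have hsr : red s = ψ := by
    have h1 := congrArg red hs
    rw [map_sub, map_mul, hrA, mul_zero, sub_zero, hψ, map_add, map_mul, map_mul, red_four, hre,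
      map_pow, one_mul, zero_mul, add_zero] at h1
    apply hinj
    rw [frobenius_def, frobenius_def, h1]
  have hsr' : red s' = ψ + 1 := by
    have h1 := congrArg red hs'
    rw [map_sub, map_mul, hrB, mul_zero, sub_zero, map_add, hψ, hcr, map_add, map_mul, map_mul,
      red_four, hre, map_pow, one_mul, zero_mul, add_zero] at h1
    apply hinj
    rw [frobenius_def, frobenius_def, ← h1]
    have : (2 : (ZMod 2)[X]) = 0 := CharTwo.two_eq_zero
    linear_combination (-ψ) * this
  obtain ⟨r, hr⟩ : ∃ r, s' - s - 1 = 2 * r := by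
    apply ker_red
    rw [map_sub, map_sub, hsr, hsr', map_one]
    ring
  obtain ⟨m, hm⟩ : ∃ m : ℤ, (-1 : ℤ) ^ q - c = 2 * m := by
    have h1 : ((((-1 : ℤ) ^ q - c : ℤ)) : ZMod 2) = 0 := by
      rw [he]
      push_cast
      rw [hc1]
      have : (2 : ZMod 2) = 0 := by decide
      rw [this]
      ring
    exact (ZMod.intCast_zmod_eq_zero_iff_dvd _ 2).1 h1
  have hmX : ((-1 : ℤ[X])) ^ q - C c = 2 * C m := by
    have := congrArg (fun z : ℤ => (C z : ℤ[X])) hm
    simpa using this
  have hs2 : s' = s + 1 + 2 * r := by linear_combination hr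
  have main : X * Ψ = s + C m + 2 * (C e * s + (-1) ^ q * (r + r * s + r ^ 2) - (t - t')) := by
    apply mul_left_cancel₀ two_ne
    have h1 : -C c - X * (2 * Ψ) = (-1) ^ q * (s ^ 2 - s' ^ 2) + 4 * (t - t') := by
      rw [← hE]
      linear_combination hs - hs'
    rw [hs2] at h1
    have h2 : (-1 : ℤ[X]) ^ q * (2 * s) = 2 * s + 4 * (C e * s) := by
      rw [heX]; ring
    linear_combination -h1 + hmX + h2
  have hfin := congrArg red main
  rw [map_mul, map_add, map_add, map_mul, red_two, zero_mul, add_zero, hsr, red_C] at hfin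
  have hX : red X = X := by
    show (X : ℤ[X]).map _ = X
    rw [Polynomial.map_X]
  rw [hX] at hfin
  have hcoef := congrArg (fun p : (ZMod 2)[X] => p.coeff 0) hfin
  simp only [mul_coeff_zero, coeff_X_zero, zero_mul, coeff_add, coeff_C_zero] at hcoef
  have hme : (m : ZMod 2) = ψ.coeff 0 := by
    have h1 : (ψ.coeff 0 + ψ.coeff 0 : ZMod 2) = 0 := CharTwo.add_self_eq_zero _
    linear_combination -h1 - hcoef
  rw [hfin, hme]

end Pool.Agent.MP2696.Two
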