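import Pool.Agent.Lib.MP_2696ff_co.Two.SpecA

set_option autoImplicit false

namespace Pool.Agent.MP2696.Two

open Matrix Polynomial

theorem tRk : S_Rk := by
  intro q S
  have h0 : (Matrix.of fun i j => C (S i j) + (if i = j then 0 else X) :
      Matrix (Fin (2 * q)) (Fin (2 * q)) ℤ[X]) =
      - (charmatrix S + Matrix.of fun _ _ => -X) := by
    ext i j : 1
    rw [Matrix.neg_apply, Matrix.add_apply, charmatrix_apply, Matrix.of_apply, Matrix.of_apply]
    by_cases h : i = j
    · subst h
      rw [if_pos rfl, diagonal_apply_eq]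
      ring
    · rw [if_neg h, diagonal_apply_ne _ h]
      ring
  rw [h0, det_neg, Fintype.card_fin, pow_mul, neg_one_sq, one_pow, one_mul]
  apply FaithfulSMul.algebraMap_injective ℤ[X] (FractionRing ℤ[X])
  set φ := algebraMap ℤ[X] (FractionRing ℤ[X]) with hφ
  have hinj : Function.Injective φ := FaithfulSMul.algebraMap_injective ℤ[X] (FractionRing ℤ[X])
  set A : Matrix (Fin (2 * q)) (Fin (2 * q)) (FractionRing ℤ[X]) := (charmatrix S).map φ with hA
  have hdet : A.det = φ S.charpoly := by
    rw [Matrix.charpoly, RingHom.map_det]; rfl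
  have hd0 : A.det ≠ 0 := by
    rw [hdet]
    exact fun h => S.charpoly_monic.ne_zero ((map_eq_zero_iff φ hinj).1 h)
  have h1 : φ (charmatrix S + Matrix.of fun _ _ => -X).det =
      (A + replicateCol Unit (fun _ : Fin (2 * q) => (φ (-X) : FractionRing ℤ[X])) *
        replicateRow Unit (fun _ : Fin (2 * q) => (1 : FractionRing ℤ[X]))).det := by
    rw [RingHom.map_det]
    congr 1
    ext a b
    simp [hA, Matrix.mul_apply]
  have h2 : A⁻¹ = (A.det)⁻¹ • A.adjugate := by
    rw [Matrix.inv_def, Ring.inverse_eq_inv']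
  have h3 : A.adjugate = (adjugate (charmatrix S)).map φ := by
    have := RingHom.map_adjugate φ (charmatrix S)
    exact this.symm
  have h4 : ((replicateRow Unit (fun _ : Fin (2 * q) => (1 : FractionRing ℤ[X])) *
      A⁻¹ * replicateCol Unit (fun _ : Fin (2 * q) => (φ (-X) : FractionRing ℤ[X]))) () ()) =
      - (A.det⁻¹ * ∑ i, ∑ j, φ (adjugate (charmatrix S) i j) * φ X) := by
    rw [h2, h3, map_neg]
    simp only [Matrix.mul_apply, replicateRow_apply, replicateCol_apply, one_mul,
      Matrix.smul_apply, Matrix.map_apply, smul_eq_mul, mul_neg, Finset.sum_neg_distrib]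
    congr 1
    simp only [Finset.mul_sum, Finset.sum_mul]
    rw [Finset.sum_comm]
    refine Finset.sum_congr rfl fun i _ => ?_
    refine Finset.sum_congr rfl fun j _ => ?_
    ring
  have h5 : (1 + replicateRow Unit (fun _ : Fin (2 * q) => (1 : FractionRing ℤ[X])) *
      A⁻¹ * replicateCol Unit (fun _ : Fin (2 * q) => (φ (-X) : FractionRing ℤ[X]))).det =
      1 - A.det⁻¹ * ∑ i, ∑ j, φ (adjugate (charmatrix S) i j) * φ X := by
    rw [det_unique, Matrix.add_apply, Matrix.one_apply_eq, sub_eq_add_neg]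
    congr 1
  rw [h1, det_add_replicateCol_mul_replicateRow (isUnit_iff_ne_zero.2 hd0), h5, map_sub, ← hdet]
  have h6 : φ (X * ∑ i, ∑ j, al S i j) = ∑ i, ∑ j, φ (adjugate (charmatrix S) i j) * φ X := by
    rw [map_mul, map_sum, mul_comm, Finset.sum_mul]
    refine Finset.sum_congr rfl fun i _ => ?_
    rw [map_sum, Finset.sum_mul]
    rfl
  rw [h6, mul_sub, mul_one, ← mul_assoc, mul_inv_cancel₀ hd0, one_mul]

end Pool.Agent.MP2696.Two
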