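import Pool.Agent.Lib.MP_2696ff_co.Two.Aux1

set_option autoImplicit false

namespace Pool.Agent.MP2696.Two

open Matrix Polynomial

private theorem step_alg {n : ℕ} {A B : Matrix (Fin n) (Fin n) ℤ}
    (hcp : red B.charpoly = red A.charpoly) (Y D : (ZMod 2)[X]) (hY : Y ≠ 0)
    (hA : red A.charpoly = Y * D) (W : Matrix (Fin n) (Fin n) (ZMod 2)[X])
    (hW : ∀ i j, red (al A i j - al B i j) = Y * W i j) :
    (m2 A + m2 B) * aeval (m2 A) D = 0 := by
  have hmA : red.mapMatrix (charmatrix A) = charmatrix (m2 A) := by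
    rw [m2, charmatrix_map]
    rfl
  have hmB : red.mapMatrix (charmatrix B) = charmatrix (m2 B) := by
    rw [m2, charmatrix_map]
    rfl
  set αr := red.mapMatrix (al A) with hα
  set βr := red.mapMatrix (al B) with hβ
  set χ := red A.charpoly with hχ
  have h1 : αr * charmatrix (m2 A) = χ • (1 : Matrix (Fin n) (Fin n) (ZMod 2)[X]) := by
    rw [← hmA, hα, ← map_mul, al, adjugate_mul]
    ext i j : 1
    rw [RingHom.mapMatrix_apply, map_apply, Matrix.smul_apply, Matrix.smul_apply, smul_eq_mul, smul_eq_mul, map_mul]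
    congr 1
    by_cases h : i = j
    · subst h; simp
    · simp [h]
  have h1' : charmatrix (m2 A) * αr = χ • (1 : Matrix (Fin n) (Fin n) (ZMod 2)[X]) := by
    rw [← hmA, hα, ← map_mul, al, mul_adjugate]
    ext i j : 1
    rw [RingHom.mapMatrix_apply, map_apply, Matrix.smul_apply, Matrix.smul_apply, smul_eq_mul, smul_eq_mul, map_mul]
    congr 1
    by_cases h : i = j
    · subst h; simp
    · simp [h]
  have h2 : charmatrix (m2 B) * βr = χ • (1 : Matrix (Fin n) (Fin n) (ZMod 2)[X]) := by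
    rw [← hmB, hβ, ← map_mul, al, mul_adjugate]
    ext i j : 1
    rw [RingHom.mapMatrix_apply, map_apply, Matrix.smul_apply, Matrix.smul_apply, smul_eq_mul, smul_eq_mul, map_mul,
      ← hcp]
    congr 1
    by_cases h : i = j
    · subst h; simp
    · simp [h]
  set T : Matrix (Fin n) (Fin n) (ZMod 2)[X] := (m2 A - m2 B).map C with hT
  have h3 : charmatrix (m2 B) = charmatrix (m2 A) + T := by
    ext i j : 1
    rw [Matrix.add_apply, charmatrix_apply, charmatrix_apply, hT, map_apply, Matrix.sub_apply, C_sub]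
    ring
  have h4 : charmatrix (m2 B) * (αr - βr) = T * αr := by
    rw [Matrix.mul_sub, h2, h3, Matrix.add_mul, h1']
    abel
  have h5 : αr - βr = Y • W := by
    ext i j : 1
    rw [Matrix.sub_apply, Matrix.smul_apply, smul_eq_mul, ← hW i j, hα, hβ, RingHom.mapMatrix_apply, map_apply,
      RingHom.mapMatrix_apply, map_apply, map_sub]
  have h6 : Y • (charmatrix (m2 B) * W * charmatrix (m2 A)) = Y • (T * (D • 1)) := by
    rw [← Matrix.smul_mul, ← Matrix.mul_smul, ← h5, h4, Matrix.mul_assoc, h1, hA, mul_smul,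
      Matrix.mul_smul]
  have h7 : charmatrix (m2 B) * W * charmatrix (m2 A) = T * (D • 1) := by
    ext i j : 1
    have := congrFun (congrFun h6 i) j
    rw [Matrix.smul_apply, Matrix.smul_apply, smul_eq_mul, smul_eq_mul] at this
    exact mul_left_cancel₀ hY this
  apply_fun matPolyEquiv at h7
  rw [map_mul, map_mul matPolyEquiv T, matPolyEquiv_charmatrix] at h7
  apply_fun fun p => p.eval (m2 A) at h7
  rw [eval_mul_X_sub_C, hT, matPolyEquiv_map_C, eval_C_mul, matPolyEquiv_smul_one, eval_map] at h7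
  have h8 : m2 A + m2 B = m2 A - m2 B := by
    ext i j : 1
    rw [Matrix.add_apply, Matrix.sub_apply, CharTwo.sub_eq_add]
  rw [h8]
  exact h7.symm

theorem tStep : S_Deg → S_Form → S_N1 → S_Loc → S_Step := by
  intro hDeg hF hN1 hLoc n A B c hM hc ψ τ hψ
  have hred : red A.charpoly = X ^ (n % 2) * red ψ ^ 2 := by
    rw [hψ, map_add, map_mul, map_mul, map_pow, map_pow, red_X, red_two, zero_mul, add_zero]
  obtain ⟨hψm, hψd⟩ := natDegree_of_sq hred
  have hψ0 : red ψ ≠ 0 := hψm.ne_zero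
  have hcB : red B.charpoly = red A.charpoly := by
    rw [hM.cp, map_add, red_C, (ZMod.intCast_zmod_eq_zero_iff_dvd c 2).2
      (dvd_trans (by norm_num) hc), C_0, add_zero]
  choose v hv1 hv2 using fun i j => hN1 n A B c hM hc ψ τ hψ i j
  set I : Ideal (ZMod 2)[X] := Ideal.span ({red ψ} ∪ Set.range fun p : Fin n × Fin n => v p.1 p.2)
    with hI
  obtain ⟨g, hg⟩ := (IsPrincipalIdealRing.principal I).principal
  have hg' : I = Ideal.span {g} := hg
  have hgψ : g ∣ red ψ := by
    rw [← Ideal.mem_span_singleton, ← hg', hI]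
    exact Ideal.subset_span (Or.inl rfl)
  have hgv : ∀ i j, g ∣ v i j := by
    intro i j
    rw [← Ideal.mem_span_singleton, ← hg', hI]
    exact Ideal.subset_span (Or.inr ⟨(i, j), rfl⟩)
  obtain ⟨D, hD⟩ := hgψ
  choose w hw using hgv
  have hg0 : g ≠ 0 := by
    rintro rfl
    rw [zero_mul] at hD
    exact hψ0 hD
  have hD0 : D ≠ 0 := by
    rintro rfl
    rw [mul_zero] at hD
    exact hψ0 hD
  refine ⟨D, ⟨g, by rw [hD, mul_comm]⟩, ?_, ?_, ?_⟩
  · intro p hp hpD
    by_contra hpτ
    obtain ⟨a, ψ1, hnd, he⟩ := WfDvdMonoid.max_power_factor hψ0 hp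
    have h1 : ∀ i j, p ^ a ∣ v i j := fun i j =>
      hLoc p (red ψ) (red τ) (v i j) (red (al A i j)) a hp hpτ ⟨ψ1, he⟩ (hv2 i j)
    have h2 : I ≤ Ideal.span {p ^ a} := by
      rw [hI, Ideal.span_le]
      rintro x (rfl | ⟨q, rfl⟩)
      · exact Ideal.mem_span_singleton.2 ⟨ψ1, he⟩
      · exact Ideal.mem_span_singleton.2 (h1 _ _)
    have h3 : p ^ a ∣ g := by
      rw [← Ideal.mem_span_singleton]
      apply h2
      rw [hg']
      exact Ideal.mem_span_singleton_self g
    obtain ⟨g1, hg1⟩ := h3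
    obtain ⟨D1, hD1⟩ := hpD
    apply hnd
    refine ⟨g1 * D1, ?_⟩
    have h4 : p ^ a * ψ1 = p ^ a * (p * (g1 * D1)) := by
      rw [← he, hD, hg1, hD1]
      ring
    exact mul_left_cancel₀ (pow_ne_zero a hp.ne_zero) h4
  · intro hne
    have h1 : ∃ i j, m2 A i j ≠ m2 B i j := by
      by_contra h
      push Not at h
      exact hne (by ext i j : 1; exact h i j)
    obtain ⟨i, j, hij⟩ := h1
    have hij' : i ≠ j := by
      rintro rfl
      apply hij
      simp [m2, hM.szA.2 i, hM.szB.2 i]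
    have hn : 2 ≤ n := by
      have := Fintype.one_lt_card_iff.2 ⟨i, j, hij'⟩
      rw [Fintype.card_fin] at this
      omega
    obtain ⟨hA1, hA2⟩ := hDeg n A i j hij'
    obtain ⟨hB1, hB2⟩ := hDeg n B i j hij'
    have h2 : (red (al A i j - al B i j)).coeff (n - 2) ≠ 0 := by
      rw [red_coeff, coeff_sub, hA2, hB2, Int.cast_sub, sub_ne_zero]
      exact hij
    have h3 : red (al A i j - al B i j) ≠ 0 := by
      intro h
      rw [h, coeff_zero] at h2
      exact h2 rfl
    have h4 : (red (al A i j - al B i j)).natDegree ≤ n - 2 := by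
      refine natDegree_map_le.trans ?_
      exact (natDegree_sub_le _ _).trans (max_le hA1 hB1)
    have hv0 : v i j ≠ 0 := by
      intro h
      rw [hv1, h, mul_zero] at h3
      exact h3 rfl
    rw [hv1, natDegree_mul (mul_ne_zero (pow_ne_zero _ X_ne_zero) hψ0) hv0,
      natDegree_mul (pow_ne_zero _ X_ne_zero) hψ0, natDegree_X_pow, hψd] at h4
    have h5 : g.natDegree ≤ (v i j).natDegree := natDegree_le_of_dvd ⟨w i j, hw i j⟩ hv0
    have h6 : (red ψ).natDegree = g.natDegree + D.natDegree := by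
      rw [hD, natDegree_mul hg0 hD0]
    omega
  · refine step_alg hcB (X ^ (n % 2) * red ψ * g) D
      (mul_ne_zero (mul_ne_zero (pow_ne_zero _ X_ne_zero) hψ0) hg0) ?_ (Matrix.of w) ?_
    · rw [hred, sq]
      nth_rewrite 2 [hD]
      ring
    · intro i j
      rw [hv1, hw, Matrix.of_apply]
      ring

end Pool.Agent.MP2696.Two
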