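import Pool.Agent.Lib.MP_2696ff_co.Two.SpecA

/-!
# MP_2696ff_co, `Two/ATr`: the trace of the square of `adj (X - A)`
-/

set_option autoImplicit false

namespace Pool.Agent.MP2696.Two

open Matrix Polynomial

private theorem map_der_mul {n : ℕ} (M N : Matrix (Fin n) (Fin n) ℤ[X]) :
    (M * N).map derivative = M.map derivative * N + M * N.map derivative := by
  ext i j : 1
  simp only [Matrix.map_apply, Matrix.mul_apply, Matrix.add_apply, derivative_sum, derivative_mul,
    Finset.sum_add_distrib]

private theorem map_der_charmatrix {n : ℕ} (A : Matrix (Fin n) (Fin n) ℤ) :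
    (charmatrix A).map derivative = 1 := by
  ext i j : 1
  rw [Matrix.map_apply, charmatrix_apply, Matrix.diagonal_apply, Matrix.one_apply]
  split_ifs with h <;> simp

private theorem map_der_smul_one {n : ℕ} (p : ℤ[X]) :
    ((p • (1 : Matrix (Fin n) (Fin n) ℤ[X])).map derivative) =
      (derivative p) • (1 : Matrix (Fin n) (Fin n) ℤ[X]) := by
  ext i j : 1
  rw [Matrix.map_apply, Matrix.smul_apply, Matrix.smul_apply, Matrix.one_apply]
  split_ifs with h <;> simp

private theorem tr_al {n : ℕ} (A : Matrix (Fin n) (Fin n) ℤ) :
    (al A).trace = derivative A.charpoly := by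
  rw [derivative_charpoly]
  simp only [charpoly_del, Matrix.trace, Matrix.diag_apply, al]

theorem tTr : S_Tr := by
  intro n A
  have h1 : al A * charmatrix A = A.charpoly • (1 : Matrix (Fin n) (Fin n) ℤ[X]) :=
    adjugate_mul _
  have h2 : charmatrix A * al A = A.charpoly • (1 : Matrix (Fin n) (Fin n) ℤ[X]) :=
    mul_adjugate _
  have h3 := congrArg (fun M : Matrix (Fin n) (Fin n) ℤ[X] => M.map derivative) h1
  simp only [map_der_mul, map_der_charmatrix, map_der_smul_one, mul_one] at h3
  have h4 : (al A).map derivative * charmatrix A * al A + al A * al A =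
      derivative A.charpoly • al A := by
    rw [← add_mul, h3, Matrix.smul_mul, one_mul]
  rw [mul_assoc, h2, Matrix.mul_smul, mul_one] at h4
  have h5 := congrArg Matrix.trace h4
  rw [Matrix.trace_add, Matrix.trace_smul, Matrix.trace_smul, tr_al] at h5
  have h6 : ((al A).map derivative).trace = derivative (derivative A.charpoly) := by
    rw [← tr_al]
    simp only [Matrix.trace, Matrix.diag_apply, Matrix.map_apply, derivative_sum]
  rw [h6] at h5
  simp only [smul_eq_mul] at h5
  linear_combination h5

end Pool.Agent.MP2696.Two
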