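import Pool.Agent.Lib.MP_2696ff_co.Two.SpecA

set_option autoImplicit false

namespace Pool.Agent.MP2696.Two

open Matrix Polynomial

private theorem zsq (a : ZMod 2) : a * a = a := by
  revert a
  decide

private theorem quad_zero {n : ℕ} (M : Matrix (Fin n) (Fin n) (ZMod 2)) (hM : Sz M)
    (x : Fin n → ZMod 2) : ∑ a, ∑ b, x a * M a b * x b = 0 := by
  rw [← Fintype.sum_prod_type' (fun a b => x a * M a b * x b)]
  refine Finset.sum_involution (fun p _ => (p.2, p.1)) ?_ ?_ ?_ ?_
  · rintro ⟨a, b⟩ -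
    have : x b * M b a * x a = x a * M a b * x b := by
      rw [hM.1 b a]; ring
    show x a * M a b * x b + x b * M b a * x a = 0
    rw [this]
    exact CharTwo.add_self_eq_zero _
  · rintro ⟨a, b⟩ - hne heq
    apply hne
    have h1 : b = a := (Prod.mk.inj heq).1
    subst h1
    show x b * M b b * x b = 0
    rw [hM.2 b]; ring
  · rintro ⟨a, b⟩ -
    exact Finset.mem_univ _
  · rintro ⟨a, b⟩ -
    rfl

private theorem symm_pow {n : ℕ} (M : Matrix (Fin n) (Fin n) (ZMod 2)) (hM : Sz M) (k : ℕ)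
    (i j : Fin n) : (M ^ k) i j = (M ^ k) j i := by
  have h : Mᵀ = M := by
    ext a b
    exact hM.1 b a
  have h2 : (M ^ k)ᵀ = M ^ k := by rw [Matrix.transpose_pow, h]
  exact congrFun (congrFun h2 j) i

private theorem even_diag {n : ℕ} (M : Matrix (Fin n) (Fin n) (ZMod 2)) (hM : Sz M) (k : ℕ)
    (i : Fin n) : (M ^ (k + k)) i i = (M ^ k *ᵥ 1) i := by
  rw [pow_add, Matrix.mul_apply, Matrix.mulVec, dotProduct]
  refine Finset.sum_congr rfl fun l _ => ?_
  rw [symm_pow M hM k l i, zsq, Pi.one_apply, mul_one]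

private theorem odd_diag {n : ℕ} (M : Matrix (Fin n) (Fin n) (ZMod 2)) (hM : Sz M) (k : ℕ)
    (i : Fin n) : (M ^ (k + k + 1)) i i = 0 := by
  have h : M ^ (k + k + 1) = M ^ k * M * M ^ k := by
    rw [pow_succ, pow_add, Matrix.mul_assoc, Matrix.mul_assoc, ← pow_succ, ← pow_succ']
  rw [h, Matrix.mul_apply]
  have h2 := quad_zero M hM (fun a => (M ^ k) i a)
  rw [Finset.sum_comm] at h2
  rw [← h2]
  refine Finset.sum_congr rfl fun b _ => ?_
  rw [Matrix.mul_apply, Finset.sum_mul]
  refine Finset.sum_congr rfl fun a _ => ?_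
  rw [symm_pow M hM k b i]

private theorem sz_m2 {n : ℕ} {A : Matrix (Fin n) (Fin n) ℤ} (h : Sz A) : Sz (m2 A) := by
  constructor
  · intro i j
    simp only [m2, Matrix.map_apply, h.1 i j]
  · intro i
    simp only [m2, Matrix.map_apply, h.2 i, map_zero]

private theorem m2_pow {n : ℕ} (A : Matrix (Fin n) (Fin n) ℤ) (k : ℕ) :
    m2 A ^ k = m2 (A ^ k) := by
  have : ∀ B : Matrix (Fin n) (Fin n) ℤ, m2 B = (Int.castRingHom (ZMod 2)).mapMatrix B :=
    fun _ => rfl
  rw [this, this, map_pow]

theorem tWalk : S_Diag → S_Walk := by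
  intro hD q A B c h hc
  set M := m2 A with hMd
  set M' := m2 B with hMd'
  have hM : Sz M := sz_m2 h.szA
  have hM' : Sz M' := sz_m2 h.szB
  -- equal walk vectors for small exponents
  have hsmall : ∀ k, k < q → M ^ k *ᵥ 1 = M' ^ k *ᵥ (1 : Fin (2 * q) → ZMod 2) := by
    intro k hk
    funext i
    rw [← even_diag M hM, ← even_diag M' hM', hMd, hMd', m2_pow, m2_pow]
    simp only [m2, Matrix.map_apply]
    rw [hD (2 * q) A B c h (k + k) (by omega) i]
  -- the induction
  have key : ∀ p, p ≤ q → LinearIndependent (ZMod 2)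
      (fun j : Fin p => (M ^ (j : ℕ)) *ᵥ (1 : Fin (2 * q) → ZMod 2)) := by
    intro p
    induction p with
    | zero => exact fun _ => linearIndependent_empty_type
    | succ p ih =>
      intro hp
      rw [linearIndependent_fin_succ']
      refine ⟨ih (by omega), ?_⟩
      intro hmem
      have hr : Fin.init (fun j : Fin (p + 1) => (M ^ (j : ℕ)) *ᵥ (1 : Fin (2 * q) → ZMod 2)) =
          fun j : Fin p => (M ^ (j : ℕ)) *ᵥ (1 : Fin (2 * q) → ZMod 2) := rfl
      rw [hr, Submodule.mem_span_range_iff_exists_fun] at hmem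
      obtain ⟨g, hg⟩ := hmem
      rw [Fin.val_last] at hg
      have hg' : ∑ j : Fin p, g j • (M' ^ (j : ℕ)) *ᵥ (1 : Fin (2 * q) → ZMod 2) =
          M' ^ p *ᵥ 1 := by
        rw [← hsmall p (by omega), ← hg]
        refine Finset.sum_congr rfl fun j _ => ?_
        rw [hsmall j (by have := j.2; omega)]
      have step : ∀ (P : Matrix (Fin (2 * q)) (Fin (2 * q)) (ZMod 2)),
          ∑ j : Fin p, g j • (P ^ (j : ℕ)) *ᵥ (1 : Fin (2 * q) → ZMod 2) = P ^ p *ᵥ 1 →
          ∀ k, P ^ (k + p) *ᵥ 1 =
            ∑ j : Fin p, g j • (P ^ (k + (j : ℕ))) *ᵥ (1 : Fin (2 * q) → ZMod 2) := by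
        intro P hP k
        rw [pow_add, ← Matrix.mulVec_mulVec, ← hP, Matrix.mulVec_sum]
        refine Finset.sum_congr rfl fun j _ => ?_
        rw [Matrix.mulVec_smul, Matrix.mulVec_mulVec, ← pow_add]
      have hall : ∀ k, M ^ k *ᵥ 1 = M' ^ k *ᵥ (1 : Fin (2 * q) → ZMod 2) := by
        intro k
        induction k using Nat.strong_induction_on with
        | _ k ihk =>
          rcases Nat.lt_or_ge k q with hk | hk
          · exact hsmall k hk
          · obtain ⟨l, rfl⟩ : ∃ l, k = l + p := ⟨k - p, by omega⟩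
            rw [step M hg l, step M' hg' l]
            refine Finset.sum_congr rfl fun j _ => ?_
            rw [ihk (l + j) (by have := j.2; omega)]
      have hdiag : ∀ (m : ℕ) (i : Fin (2 * q)), (M ^ m) i i = (M' ^ m) i i := by
        intro m i
        rcases Nat.even_or_odd m with ⟨k, rfl⟩ | ⟨k, hk⟩
        · rw [even_diag M hM, even_diag M' hM', hall]
        · have : m = k + k + 1 := by omega
          rw [this, odd_diag M hM, odd_diag M' hM']
      have hpol : ∀ (f : (ZMod 2)[X]) (i : Fin (2 * q)), (aeval M f) i i = (aeval M' f) i i := by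
        intro f i
        rw [aeval_eq_sum_range, aeval_eq_sum_range, Matrix.sum_apply, Matrix.sum_apply]
        refine Finset.sum_congr rfl fun m _ => ?_
        rw [Matrix.smul_apply, Matrix.smul_apply, hdiag]
      have i0 : Fin (2 * q) := ⟨0, by omega⟩
      have hcp : M'.charpoly = M.charpoly + C (c : ZMod 2) := by
        have e1 : M'.charpoly = B.charpoly.map (Int.castRingHom (ZMod 2)) := by
          rw [hMd', m2, Matrix.charpoly_map]
        have e2 : M.charpoly = A.charpoly.map (Int.castRingHom (ZMod 2)) := by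
          rw [hMd, m2, Matrix.charpoly_map]
        rw [e1, e2, h.cp, Polynomial.map_add, Polynomial.map_C]
        rfl
      have h1 := congrFun (congrFun (Matrix.aeval_self_charpoly M) i0) i0
      have h2 := congrFun (congrFun (Matrix.aeval_self_charpoly M') i0) i0
      rw [hcp, map_add, Matrix.add_apply, ← hpol, h1, aeval_C, Matrix.algebraMap_matrix_apply] at h2
      simp only [if_true, Matrix.zero_apply, zero_add, Algebra.algebraMap_self, RingHom.id_apply] at h2
      exact hc ((ZMod.intCast_zmod_eq_zero_iff_dvd c 2).1 h2)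
  exact key q le_rfl

end Pool.Agent.MP2696.Two
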