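import Pool.Agent.Lib.MP_2696ff_co.Two.SpecA

set_option autoImplicit false

namespace Pool.Agent.MP2696.Two

open Matrix Polynomial

theorem tWid : S_Wid := by
  intro n A hA
  set a := al A with ha
  set φ := A.charpoly with hφ
  set A' : Matrix (Fin n) (Fin n) ℤ[X] := A.map C with hA'
  have hch : charmatrix A = scalar (Fin n) X - A' := rfl
  have h1 : charmatrix A * a = φ • (1 : Matrix (Fin n) (Fin n) ℤ[X]) := mul_adjugate _
  have h2 : a * charmatrix A = φ • (1 : Matrix (Fin n) (Fin n) ℤ[X]) := adjugate_mul _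
  have hX : ∀ N : Matrix (Fin n) (Fin n) ℤ[X], scalar (Fin n) X * N = (X : ℤ[X]) • N := by
    intro N
    rw [smul_eq_diagonal_mul]
    rfl
  have hX' : ∀ N : Matrix (Fin n) (Fin n) ℤ[X], N * scalar (Fin n) X = (X : ℤ[X]) • N := by
    intro N
    rw [smul_eq_mul_diagonal]
    rfl
  have h3 : A' * a = (X : ℤ[X]) • a - φ • (1 : Matrix (Fin n) (Fin n) ℤ[X]) := by
    rw [← h1, hch, Matrix.sub_mul, hX]
    abel
  have h4 : a * A' = (X : ℤ[X]) • a - φ • (1 : Matrix (Fin n) (Fin n) ℤ[X]) := by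
    rw [← h2, hch, Matrix.mul_sub, hX']
    abel
  have h5 : A' * a * A' = (X : ℤ[X]) • ((X : ℤ[X]) • a - φ • (1 : Matrix (Fin n) (Fin n) ℤ[X])) -
      φ • A' := by
    rw [h3, Matrix.sub_mul, Matrix.smul_mul, h4, Matrix.smul_mul, Matrix.one_mul]
  have h6 : ∑ k, ∑ l, (A' * a * A') k l = ∑ i, ∑ j, a i j * C (∑ k, A i k) * C (∑ k, A j k) := by
    have e1 : ∀ k l, (A' * a * A') k l = ∑ j, ∑ i, C (A k i) * a i j * C (A j l) := by
      intro k l
      rw [Matrix.mul_apply]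
      refine Finset.sum_congr rfl fun j _ => ?_
      rw [Matrix.mul_apply, Finset.sum_mul]
      rfl
    have e2 : ∀ i j, a i j * C (∑ k, A i k) * C (∑ k, A j k) =
        ∑ k, ∑ l, C (A k i) * a i j * C (A j l) := by
      intro i j
      have e4 : a i j * (∑ x, C (A i x)) = ∑ x, a i j * C (A i x) := Finset.mul_sum _ _ _
      rw [map_sum, map_sum, e4, Finset.sum_mul_sum]
      refine Finset.sum_congr rfl fun k _ => ?_
      refine Finset.sum_congr rfl fun l _ => ?_
      rw [hA.1 i k]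
      ring
    simp_rw [e1]
    rw [Finset.sum_congr rfl fun i _ => Finset.sum_congr rfl fun j _ => e2 i j]
    have e3 : ∀ F : Fin n → Fin n → Fin n → Fin n → ℤ[X],
        ∑ k, ∑ l, ∑ j, ∑ i, F k l j i = ∑ i, ∑ j, ∑ k, ∑ l, F k l j i := by
      intro F
      calc ∑ k, ∑ l, ∑ j, ∑ i, F k l j i = ∑ k, ∑ l, ∑ i, ∑ j, F k l j i :=
            Finset.sum_congr rfl fun k _ => Finset.sum_congr rfl fun l _ => Finset.sum_comm
        _ = ∑ k, ∑ i, ∑ l, ∑ j, F k l j i := Finset.sum_congr rfl fun k _ => Finset.sum_comm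
        _ = ∑ i, ∑ k, ∑ l, ∑ j, F k l j i := Finset.sum_comm
        _ = ∑ i, ∑ k, ∑ j, ∑ l, F k l j i :=
            Finset.sum_congr rfl fun k _ => Finset.sum_congr rfl fun l _ => Finset.sum_comm
        _ = ∑ i, ∑ j, ∑ k, ∑ l, F k l j i := Finset.sum_congr rfl fun k _ => Finset.sum_comm
    exact e3 _
  rw [← h6, h5]
  simp only [Matrix.sub_apply, Matrix.smul_apply, smul_eq_mul, Finset.sum_sub_distrib, mul_sub,
    Matrix.one_apply, hA', Matrix.map_apply]
  simp only [← Finset.mul_sum]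
  have h7 : ∑ x : Fin n, ∑ x_1 : Fin n, (if x = x_1 then (1 : ℤ[X]) else 0) = C (n : ℤ) := by
    simp
  rw [h7]
  simp only [map_sum]
  ring

end Pool.Agent.MP2696.Two
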