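import Pool.Agent.Lib.MP_2696ff_co.Two.SpecA

/-!
# MP_2696ff_co, `Two`: small lemmas on reduction modulo 2 and adjugates
-/

set_option autoImplicit false

namespace Pool.Agent.MP2696.Two

open Matrix Polynomial

theorem aux_al_symm {n : ℕ} {A : Matrix (Fin n) (Fin n) ℤ} (hA : Sz A) (i j : Fin n) :
    al A i j = al A j i := by
  have h : (charmatrix A)ᵀ = charmatrix A := by
    ext a b : 1
    rw [Matrix.transpose_apply, charmatrix_apply, charmatrix_apply, hA.1 a b]
    by_cases h : a = b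
    · subst h; rfl
    · rw [Matrix.diagonal_apply_ne _ h, Matrix.diagonal_apply_ne _ (Ne.symm h)]
  have h2 : (al A)ᵀ = al A := by
    rw [al, adjugate_transpose, h]
  exact congrFun (congrFun h2 j) i

theorem red_C (c : ℤ) : red (C c) = C (c : ZMod 2) := by
  simp [red]

theorem red_X : red X = X := by
  simp [red]

theorem red_coeff (p : ℤ[X]) (k : ℕ) : (red p).coeff k = ((p.coeff k : ℤ) : ZMod 2) := by
  simp [red]

theorem two_zmod : (2 : (ZMod 2)[X]) = 0 := by
  have : (2 : ZMod 2) = 0 := by decide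
  rw [← C_ofNat, this, C_0]

theorem red_two : red 2 = 0 := by
  rw [map_ofNat, two_zmod]

theorem red_eq_zero_iff (p : ℤ[X]) : red p = 0 ↔ ∃ t, p = 2 * t := by
  constructor
  · intro h
    have h1 : C (2 : ℤ) ∣ p := by
      rw [C_dvd_iff_dvd_coeff]
      intro i
      have h2 : (red p).coeff i = 0 := by rw [h, coeff_zero]
      rw [red_coeff] at h2
      exact_mod_cast (ZMod.intCast_zmod_eq_zero_iff_dvd _ 2).1 h2
    obtain ⟨t, ht⟩ := h1
    exact ⟨t, by rw [ht, C_ofNat]⟩
  · rintro ⟨t, rfl⟩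
    rw [map_mul, red_two, zero_mul]

theorem red_eq_iff (p q : ℤ[X]) : red p = red q ↔ ∃ t, p = q + 2 * t := by
  rw [← sub_eq_zero, ← map_sub, red_eq_zero_iff]
  constructor
  · rintro ⟨t, ht⟩
    exact ⟨t, by rw [← ht]; ring⟩
  · rintro ⟨t, ht⟩
    exact ⟨t, by rw [ht]; ring⟩

theorem red_surjective : Function.Surjective red := by
  intro p
  exact Polynomial.map_surjective (Int.castRingHom (ZMod 2)) (ZMod.ringHom_surjective _) p

theorem red_charpoly {n : ℕ} (A : Matrix (Fin n) (Fin n) ℤ) : red A.charpoly = (m2 A).charpoly :=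
  (charpoly_map _ _).symm

theorem red_charpoly_monic {n : ℕ} (A : Matrix (Fin n) (Fin n) ℤ) : (red A.charpoly).Monic :=
  A.charpoly_monic.map (Int.castRingHom (ZMod 2))

theorem red_charpoly_natDegree {n : ℕ} (A : Matrix (Fin n) (Fin n) ℤ) :
    (red A.charpoly).natDegree = n := by
  rw [red_charpoly, charpoly_natDegree_eq_dim, Fintype.card_fin]

theorem zmod2_ne_zero {a : ZMod 2} (h : a ≠ 0) : a = 1 := by
  revert a
  decide

theorem natDegree_of_sq {n : ℕ} {A : Matrix (Fin n) (Fin n) ℤ} {g : (ZMod 2)[X]}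
    (h : red A.charpoly = X ^ (n % 2) * g ^ 2) : g.Monic ∧ g.natDegree = n / 2 := by
  have h0 : X ^ (n % 2) * g ^ 2 ≠ 0 := by
    rw [← h]
    exact (red_charpoly_monic A).ne_zero
  have hg : g ≠ 0 := by
    rintro rfl
    simp at h0
  refine ⟨zmod2_ne_zero (leadingCoeff_ne_zero.2 hg), ?_⟩
  have h1 := red_charpoly_natDegree A
  rw [h, natDegree_mul (pow_ne_zero _ X_ne_zero) (pow_ne_zero _ hg), natDegree_pow, natDegree_pow,
    natDegree_X] at h1
  omega

end Pool.Agent.MP2696.Two
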