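import Pool.Agent.Lib.MP_2696ff_co.Two.SpecB

/-!
# MP_2696ff_co, `Two`: a bad prime gives an eigenvector (helper73)
-/

set_option autoImplicit false

namespace Pool.Agent.MP2696.Two

open Matrix Polynomial

section sums

variable {R : Type*} [CommRing R] {n : ℕ}

private theorem lq_split (h : Fin n → Fin n → R) :
    ∑ i, ∑ j, h i j = (∑ i, ∑ j, if i < j then h i j + h j i else 0) + ∑ i, h i i := by
  have h1 : ∀ i j, h i j = ((if i < j then h i j else 0) + (if j < i then h i j else 0)) +
      (if i = j then h i j else 0) := by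
    intro i j
    rcases lt_trichotomy i j with hij | hij | hij
    · rw [if_pos hij, if_neg hij.not_gt, if_neg hij.ne, add_zero, add_zero]
    · subst hij
      rw [if_neg (lt_irrefl _), if_pos rfl, add_zero, zero_add]
    · rw [if_pos hij, if_neg hij.not_gt, if_neg hij.ne', add_zero, zero_add]
  have h2 : ∑ i, ∑ j, (if j < i then h i j else 0) = ∑ i, ∑ j, (if i < j then h j i else 0) :=
    Finset.sum_comm
  have h3 : ∀ i j, (if i < j then h i j + h j i else 0) =
      (if i < j then h i j else 0) + (if i < j then h j i else 0) := by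
    intro i j
    split_ifs
    · rfl
    · rw [add_zero]
  calc ∑ i, ∑ j, h i j = ∑ i, ∑ j, (((if i < j then h i j else 0) +
      (if j < i then h i j else 0)) + (if i = j then h i j else 0)) :=
        Finset.sum_congr rfl fun i _ => Finset.sum_congr rfl fun j _ => h1 i j
    _ = _ := by
      simp only [Finset.sum_add_distrib, h2, h3, Finset.sum_ite_eq, Finset.mem_univ, if_true]

private theorem lq_sym (f : Fin n → Fin n → R) (hs : ∀ i j, f i j = f j i) (h0 : ∀ i, f i i = 0) :
    ∑ i, ∑ j, f i j = 2 * ∑ i, ∑ j, if i < j then f i j else 0 := by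
  rw [lq_split, Finset.sum_eq_zero (fun i _ => h0 i), add_zero, Finset.mul_sum]
  refine Finset.sum_congr rfl fun i _ => ?_
  rw [Finset.mul_sum]
  refine Finset.sum_congr rfl fun j _ => ?_
  rw [← hs i j]
  split_ifs
  · ring
  · ring

private theorem lq_sq (y : Fin n → R) :
    (∑ i, y i) ^ 2 = ∑ i, y i ^ 2 + 2 * ∑ i, ∑ j, if i < j then y i * y j else 0 := by
  have h1 : (∑ i, y i) ^ 2 = ∑ i, ∑ j, y i * y j := by
    rw [sq, Finset.sum_mul_sum]
  rw [h1, lq_split, add_comm, Finset.mul_sum]
  congr 1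
  · exact Finset.sum_congr rfl fun i _ => (sq _).symm
  · refine Finset.sum_congr rfl fun i _ => ?_
    rw [Finset.mul_sum]
    refine Finset.sum_congr rfl fun j _ => ?_
    split_ifs
    · ring
    · ring

end sums

section eigen

variable {F : Type*} [Field F] {n : ℕ} {m : Fin n → Fin n → F} {θ : F}

/-- The quadratic form. -/
private def lqQ (m : Fin n → Fin n → F) (θ : F) (x : Fin n → F) : F :=
  ∑ i, ∑ j, if i < j then (m i j + θ) * (x i * x j) else 0

private theorem lq_sum (h2 : (2 : F) = 0) (hs : ∀ i j, m i j = m j i) (h0 : ∀ i, m i i = 0)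
    (hθ : θ ≠ 0) {x : Fin n → F} (hx : ∀ i, ∑ j, m i j * x j = θ * x i) : ∑ i, x i = 0 := by
  have h1 : ∑ i, ∑ j, x i * (m i j * x j) = 0 := by
    rw [lq_sym _ (fun i j => by rw [hs i j]; ring) (fun i => by rw [h0]; ring), h2, zero_mul]
  have h3 : θ * ∑ i, x i ^ 2 = 0 := by
    rw [← h1, Finset.mul_sum]
    refine Finset.sum_congr rfl fun i _ => ?_
    rw [← Finset.mul_sum, hx i]
    ring
  have h4 := (mul_eq_zero.1 h3).resolve_left hθ
  have h5 := lq_sq x
  rw [h4, h2, zero_mul, add_zero] at h5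
  exact pow_eq_zero_iff (two_ne_zero) |>.1 h5

private theorem lq_smul (c : F) (x : Fin n → F) :
    lqQ m θ (fun i => c * x i) = c ^ 2 * lqQ m θ x := by
  unfold lqQ
  rw [Finset.mul_sum]
  refine Finset.sum_congr rfl fun i _ => ?_
  rw [Finset.mul_sum]
  refine Finset.sum_congr rfl fun j _ => ?_
  split_ifs
  · ring
  · ring

private theorem lq_add (h2 : (2 : F) = 0) (hs : ∀ i j, m i j = m j i) (h0 : ∀ i, m i i = 0)
    (hθ : θ ≠ 0) {x y : Fin n → F} (hx : ∀ i, ∑ j, m i j * x j = θ * x i)
    (hy : ∀ i, ∑ j, m i j * y j = θ * y i) :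
    lqQ m θ (fun i => x i + y i) = lqQ m θ x + lqQ m θ y := by
  have hsx := lq_sum h2 hs h0 hθ hx
  have h1 : ∑ i, ∑ j, (m i j + θ) * (x i * y j) = θ * ∑ i, x i * y i := by
    have h3 : ∀ i, ∑ j, (m i j + θ) * (x i * y j) = θ * (x i * y i) + θ * x i * ∑ j, y j := by
      intro i
      have h4 := hy i
      calc ∑ j, (m i j + θ) * (x i * y j) = x i * ∑ j, m i j * y j + θ * x i * ∑ j, y j := by
            rw [Finset.mul_sum, Finset.mul_sum, ← Finset.sum_add_distrib]
            exact Finset.sum_congr rfl fun j _ => by ring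
        _ = _ := by rw [h4]; ring
    rw [Finset.sum_congr rfl fun i _ => h3 i, Finset.sum_add_distrib, ← Finset.mul_sum,
      ← Finset.sum_mul, ← Finset.mul_sum, hsx]
    ring
  have h5 := lq_split fun i j => (m i j + θ) * (x i * y j)
  have h6 : ∑ i, (m i i + θ) * (x i * y i) = θ * ∑ i, x i * y i := by
    rw [Finset.mul_sum]
    exact Finset.sum_congr rfl fun i _ => by rw [h0]; ring
  rw [h1, h6, right_eq_add] at h5
  have h7 : lqQ m θ (fun i => x i + y i) = lqQ m θ x + lqQ m θ y +
      ∑ i, ∑ j, (if i < j then (m i j + θ) * (x i * y j) + (m j i + θ) * (x j * y i) else 0) := by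
    unfold lqQ
    rw [← Finset.sum_add_distrib, ← Finset.sum_add_distrib]
    refine Finset.sum_congr rfl fun i _ => ?_
    rw [← Finset.sum_add_distrib, ← Finset.sum_add_distrib]
    refine Finset.sum_congr rfl fun j _ => ?_
    rw [hs j i]
    split_ifs
    · ring
    · ring
  rw [h7, h5, add_zero]

/-- The kernel of a symmetric matrix with vanishing adjugate has two independent vectors, the
second one with a vanishing coordinate. -/
private theorem lq_two (N : Matrix (Fin n) (Fin n) F) (hs : ∀ i j, N i j = N j i)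
    (hdet : N.det = 0) (hadj : ∀ i, adjugate N i i = 0) :
    ∃ (x z : Fin n → F) (i : Fin n), N *ᵥ x = 0 ∧ N *ᵥ z = 0 ∧ x i ≠ 0 ∧ z i = 0 ∧ z ≠ 0 := by
  obtain ⟨x, hx0, hx⟩ := Matrix.exists_mulVec_eq_zero_iff.2 hdet
  obtain ⟨i, hi⟩ := Function.ne_iff.1 hx0
  have h1 := hadj i
  rw [adjugate_apply] at h1
  obtain ⟨z, hz0, hz⟩ := Matrix.exists_mulVec_eq_zero_iff.2 h1
  have hzi : z i = 0 := by
    have h2 := congrFun hz i
    simp only [Matrix.mulVec, Matrix.updateRow_self, single_dotProduct, one_mul,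
      Pi.zero_apply] at h2
    exact h2
  have hzk : ∀ k, k ≠ i → (N *ᵥ z) k = 0 := by
    intro k hk
    have h2 := congrFun hz k
    simp only [Matrix.mulVec, Matrix.updateRow_ne hk, Pi.zero_apply] at h2
    exact h2
  have hsym : Nᵀ = N := by
    ext a b
    exact hs b a
  have h3 : x ⬝ᵥ (N *ᵥ z) = 0 := by
    rw [Matrix.dotProduct_mulVec, ← Matrix.mulVec_transpose, hsym, hx, zero_dotProduct]
  have h4 : x ⬝ᵥ (N *ᵥ z) = x i * (N *ᵥ z) i := by
    unfold dotProduct
    refine Finset.sum_eq_single i (fun k _ hk => ?_) (fun h => absurd (Finset.mem_univ i) h)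
    rw [hzk k hk, mul_zero]
  rw [h4] at h3
  have h5 := (mul_eq_zero.1 h3).resolve_left hi
  refine ⟨x, z, i, hx, ?_, hi, hzi, hz0⟩
  funext k
  by_cases hk : k = i
  · rw [hk]
    exact h5
  · exact hzk k hk

end eigen

section main

/-- The evaluation of integer polynomials in `AdjoinRoot p`. -/
private noncomputable def lqE (p : (ZMod 2)[X]) : ℤ[X] →+* AdjoinRoot p :=
  (AdjoinRoot.mk p).comp red

private theorem lq_surj (f : (ZMod 2)[X]) : ∃ G : ℤ[X], red G = f :=
  Polynomial.map_surjective (Int.castRingHom (ZMod 2)) ZMod.intCast_surjective f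

private theorem lq_red0 (G : ℤ[X]) (h : red G = 0) : ∃ U, G = 2 * U := by
  have h1 : C (2 : ℤ) ∣ G := by
    rw [Polynomial.C_dvd_iff_dvd_coeff]
    intro i
    have h2 := congrArg (fun f => Polynomial.coeff f i) h
    simp only [red, coe_mapRingHom, coeff_map, eq_intCast, coeff_zero] at h2
    exact_mod_cast (ZMod.intCast_zmod_eq_zero_iff_dvd _ 2).1 h2
  obtain ⟨U, hU⟩ := h1
  exact ⟨U, hU⟩

private theorem lq_two_zero : (2 : (ZMod 2)[X]) = 0 := by
  have h : (C (2 : ZMod 2) : (ZMod 2)[X]) = 0 := by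
    rw [show (2 : ZMod 2) = 0 from rfl, C_0]
  exact h

private theorem lq_red2 (G : ℤ[X]) : red (2 * G) = 0 := by
  rw [map_mul, map_ofNat, lq_two_zero, zero_mul]

private theorem lq_E2 (p : (ZMod 2)[X]) (G : ℤ[X]) : lqE p (2 * G) = 0 := by
  unfold lqE
  rw [RingHom.comp_apply, lq_red2, map_zero]

private theorem lq_ker {p : (ZMod 2)[X]} {P : ℤ[X]} (hP : red P = p) (G : ℤ[X])
    (h : lqE p G = 0) : ∃ S U, G = P * S + 2 * U := by
  have h1 : p ∣ red G := AdjoinRoot.mk_eq_zero.1 h
  obtain ⟨s, hs⟩ := h1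
  obtain ⟨S, hS⟩ := lq_surj s
  obtain ⟨U, hU⟩ := lq_red0 (G - P * S) (by rw [map_sub, map_mul, hP, hS, hs, sub_self])
  exact ⟨S, U, by rw [← hU]; ring⟩

private theorem lq_col {n : ℕ} (A : Matrix (Fin n) (Fin n) ℤ) (i j : Fin n) :
    X * al A i j - ∑ k, C (A i k) * al A k j = if i = j then A.charpoly else 0 := by
  have h1 := congrFun (congrFun (Matrix.mul_adjugate (charmatrix A)) i) j
  rw [Matrix.mul_apply, Matrix.smul_apply, Matrix.one_apply, smul_eq_mul, mul_ite, mul_one,
    mul_zero] at h1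
  change _ = if i = j then A.charpoly else 0 at h1
  rw [← h1]
  simp only [charmatrix_apply, Matrix.diagonal_apply, sub_mul, ite_mul, zero_mul,
    Finset.sum_sub_distrib, Finset.sum_ite_eq, Finset.mem_univ, if_true]
  rfl

/-- The case of a vanishing adjugate. -/
private theorem lq_case2 {F : Type*} [Field F] [Finite F] {n : ℕ} {m : Fin n → Fin n → F} {θ : F}
    (h2 : (2 : F) = 0) (hs : ∀ i j, m i j = m j i) (h0 : ∀ i, m i i = 0) (hθ : θ ≠ 0)
    (N : Matrix (Fin n) (Fin n) F) (hN : ∀ i k, N i k = (if i = k then θ else 0) - m i k)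
    (hdet : N.det = 0) (hadj : ∀ i, adjugate N i i = 0) :
    ∃ x : Fin n → F, x ≠ 0 ∧ (∀ i, ∑ j, m i j * x j = θ * x i) ∧ lqQ m θ x = 0 := by
  obtain ⟨x, z, i, hx, hz', hxi, hzi, hz0⟩ := lq_two N (fun i k => by
    rw [hN, hN, hs i k]
    congr 1
    simp only [eq_comm]) hdet hadj
  have hker : ∀ y : Fin n → F, N *ᵥ y = 0 → ∀ i, ∑ k, m i k * y k = θ * y i := by
    intro y hy i
    have h1 := congrFun hy i
    simp only [Matrix.mulVec, dotProduct, hN, sub_mul, ite_mul, zero_mul,
      Finset.sum_sub_distrib, Finset.sum_ite_eq, Finset.mem_univ, if_true,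
      Pi.zero_apply] at h1
    exact (sub_eq_zero.1 h1).symm
  have hxe := hker x hx
  have hze := hker z hz'
  by_cases hQz : lqQ m θ z = 0
  · exact ⟨z, hz0, hze, hQz⟩
  · have hchar : CharP F 2 := CharTwo.of_one_ne_zero_of_two_eq_zero one_ne_zero h2
    obtain ⟨c, hc⟩ := FiniteField.isSquare_of_char_two (ringChar.eq F 2) (lqQ m θ z)
    obtain ⟨d, hd⟩ := FiniteField.isSquare_of_char_two (ringChar.eq F 2) (lqQ m θ x)
    have hsm : ∀ (c : F) (y : Fin n → F), (∀ i, ∑ k, m i k * y k = θ * y i) →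
        ∀ i, ∑ k, m i k * (c * y k) = θ * (c * y i) := by
      intro c y hy i
      calc ∑ k, m i k * (c * y k) = c * ∑ k, m i k * y k := by
            rw [Finset.mul_sum]
            exact Finset.sum_congr rfl fun k _ => by ring
        _ = _ := by rw [hy i]; ring
    have hce := hsm c x hxe
    have hde := hsm d z hze
    refine ⟨fun k => c * x k + d * z k, ?_, ?_, ?_⟩
    · intro h
      have h1 := congrFun h i
      simp only [hzi, mul_zero, add_zero, Pi.zero_apply] at h1
      have h3 := (mul_eq_zero.1 h1).resolve_right hxi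
      rw [h3, mul_zero] at hc
      exact hQz hc
    · intro i
      rw [Finset.sum_congr rfl fun k _ => mul_add _ _ _, Finset.sum_add_distrib, hce, hde,
        ← mul_add]
    · have h1 := lq_add h2 hs h0 hθ hce hde
      rw [lq_smul, lq_smul, hc, hd] at h1
      refine h1.trans ?_
      linear_combination c ^ 2 * d ^ 2 * h2

/-- The quadratic identity, general form. -/
private theorem lq_gen {R : Type*} [CommRing R] {n : ℕ} (c : Fin n → Fin n → R) (T : R)
    (hs : ∀ i j, c i j = c j i) (h0 : ∀ i, c i i = 0) (y : Fin n → R) :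
    2 * (∑ i, ∑ k, if i < k then (c i k + T) * (y i * y k) else 0) =
      T * (∑ i, y i) ^ 2 - ∑ i, (T * y i - ∑ k, c i k * y k) * y i := by
  have h4 : ∑ i, ∑ k, c i k * (y i * y k) =
      2 * ∑ i, ∑ k, if i < k then c i k * (y i * y k) else 0 :=
    lq_sym _ (fun i k => by rw [hs i k]; ring) fun i => by rw [h0, zero_mul]
  have h5 := lq_sq y
  have h7 : ∑ i, (T * y i - ∑ k, c i k * y k) * y i =
      T * ∑ i, y i ^ 2 - ∑ i, ∑ k, c i k * (y i * y k) := by
    rw [Finset.mul_sum, ← Finset.sum_sub_distrib]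
    refine Finset.sum_congr rfl fun i _ => ?_
    rw [sub_mul, Finset.sum_mul, Finset.sum_congr rfl fun k _ => by
      rw [show c i k * y k * y i = c i k * (y i * y k) by ring]]
    ring
  have h8 : (∑ i, ∑ k, if i < k then (c i k + T) * (y i * y k) else 0) =
      T * (∑ i, ∑ k, if i < k then y i * y k else 0) +
      ∑ i, ∑ k, if i < k then c i k * (y i * y k) else 0 := by
    rw [Finset.mul_sum, ← Finset.sum_add_distrib]
    refine Finset.sum_congr rfl fun i _ => ?_
    rw [Finset.mul_sum, ← Finset.sum_add_distrib]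
    refine Finset.sum_congr rfl fun k _ => ?_
    split_ifs
    · ring
    · ring
  rw [h8, h7, h4]
  linear_combination (-T) * h5

/-- The quadratic identity for a column of the adjugate. -/
private theorem lq_case1 {n : ℕ} (A : Matrix (Fin n) (Fin n) ℤ) (hAs : ∀ i j, A i j = A j i)
    (hA0 : ∀ i, A i i = 0) (P a b t u : ℤ[X]) (j : Fin n) (hab : A.charpoly = P * a + 4 * b)
    (htu : ∑ i, al A i j = P * t + 2 * u) :
    2 * (∑ i, ∑ k, if i < k then (C (A i k) + X) * (al A i j * al A k j) else 0) =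
      P * (X * (P * t ^ 2 + 4 * t * u) - a * al A j j) + 4 * (X * u ^ 2 - b * al A j j) := by
  have h5 := lq_gen (fun i k => C (A i k)) X (fun i k => by rw [hAs i k])
    (fun i => by rw [hA0, C_0]) fun i => al A i j
  have h6 : ∑ i, (X * al A i j - ∑ k, C (A i k) * al A k j) * al A i j =
      A.charpoly * al A j j := by
    rw [Finset.sum_congr rfl fun i _ => by rw [lq_col]]
    simp
  rw [h5, htu, h6, hab]
  ring

/-- If `2 Q` is in `(P, 4)` then `Q` vanishes in `AdjoinRoot p`. -/
private theorem lq_half {p : (ZMod 2)[X]} (hp : p ≠ 0) {P : ℤ[X]} (hP : red P = p)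
    (Q t' s : ℤ[X]) (h9 : 2 * Q = P * t' + 4 * s) : lqE p Q = 0 := by
  have h10 : red t' = 0 := by
    have h11 := congrArg red h9
    rw [lq_red2, map_add, map_mul, hP, show (4 : ℤ[X]) * s = 2 * (2 * s) by ring, lq_red2,
      add_zero] at h11
    exact (mul_eq_zero.1 h11.symm).resolve_left hp
  obtain ⟨t'', ht''⟩ := lq_red0 _ h10
  have h12 : Q = P * t'' + 2 * s := by
    rw [ht''] at h9
    have h13 : (2 : ℤ[X]) ≠ 0 := two_ne_zero
    refine mul_left_cancel₀ h13 ?_
    rw [h9]
    ring
  have h14 : lqE p P = 0 := by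
    change AdjoinRoot.mk p (red P) = 0
    rw [hP]
    exact AdjoinRoot.mk_self
  rw [h12, map_add, map_mul, h14, zero_mul, zero_add, lq_E2]

theorem tLemQ : S_LemQ := by
  intro n M p hM hp hdeg hbad
  have : Fact (Irreducible p) := ⟨hp⟩
  obtain ⟨ψ, τ, hcp, ⟨ψ', hψ'⟩, ⟨τ', hτ'⟩⟩ := hbad
  obtain ⟨P, hP⟩ := lq_surj p
  have h2F : (2 : AdjoinRoot p) = 0 := by
    have h := lq_E2 p 1
    rwa [mul_one, map_ofNat] at h
  have hθ : AdjoinRoot.root p ≠ 0 := by
    intro h
    have h1 : p ∣ X := AdjoinRoot.mk_eq_zero.1 h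
    have h2 := Polynomial.natDegree_le_of_dvd h1 X_ne_zero
    rw [natDegree_X] at h2
    omega
  obtain ⟨a, b, hab⟩ : ∃ a b, (lif M).charpoly = P * a + 4 * b := by
    obtain ⟨h, hh⟩ := lq_surj ψ'
    obtain ⟨k, hk⟩ := lq_red0 (ψ - P * h) (by rw [map_sub, map_mul, hP, hh, hψ', sub_self])
    obtain ⟨h', hh'⟩ := lq_surj τ'
    obtain ⟨k', hk'⟩ := lq_red0 (τ - P * h') (by rw [map_sub, map_mul, hP, hh', hτ', sub_self])
    refine ⟨X ^ (n % 2) * (P * h ^ 2 + 4 * h * k) + 2 * h', X ^ (n % 2) * k ^ 2 + k', ?_⟩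
    rw [hcp, show ψ = P * h + 2 * k by rw [← hk]; ring, show τ = P * h' + 2 * k' by
      rw [← hk']; ring]
    ring
  have hAs : ∀ i j, lif M i j = lif M j i := fun i j => by
    change ((M i j).val : ℤ) = ((M j i).val : ℤ)
    rw [hM.1 i j]
  have hA0 : ∀ i, lif M i i = 0 := fun i => by
    change ((M i i).val : ℤ) = 0
    rw [hM.2 i]
    rfl
  have hev : ∀ i j, lqE p (C (lif M i j)) = AdjoinRoot.of p (M i j) := by
    intro i j
    have h1 : red (C (lif M i j)) = C (M i j) := by
      change Polynomial.map _ (C ((M i j).val : ℤ)) = _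
      rw [Polynomial.map_C, eq_intCast, Int.cast_natCast, ZMod.natCast_zmod_val]
    change AdjoinRoot.mk p (red _) = _
    rw [h1]
    rfl
  have hs : ∀ i j, AdjoinRoot.of p (M i j) = AdjoinRoot.of p (M j i) := fun i j => by
    rw [hM.1 i j]
  have h0 : ∀ i, AdjoinRoot.of p (M i i) = 0 := fun i => by
    rw [hM.2 i, map_zero]
  have hX : lqE p X = AdjoinRoot.root p := by
    change AdjoinRoot.mk p (Polynomial.map _ X) = _
    rw [Polynomial.map_X]
    rfl
  have hφ : lqE p (lif M).charpoly = 0 := by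
    have h3 : lqE p P = 0 := by
      change AdjoinRoot.mk p (red P) = 0
      rw [hP]
      exact AdjoinRoot.mk_self
    rw [hab, map_add, map_mul, h3, zero_mul, zero_add, show 4 * b = 2 * (2 * b) by ring,
      lq_E2]
  have hcolE : ∀ i j, ∑ k, AdjoinRoot.of p (M i k) * lqE p (al (lif M) k j) =
      AdjoinRoot.root p * lqE p (al (lif M) i j) := by
    intro i j
    have h1 := congrArg (lqE p) (lq_col (lif M) i j)
    rw [map_sub, map_mul, hX, map_sum] at h1
    have h3 : lqE p (if i = j then (lif M).charpoly else 0) = 0 := by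
      split_ifs
      · exact hφ
      · exact map_zero _
    rw [h3, sub_eq_zero] at h1
    rw [h1]
    exact Finset.sum_congr rfl fun k _ => by rw [map_mul, hev]
  by_cases hz : ∃ i j, lqE p (al (lif M) i j) ≠ 0
  · obtain ⟨i0, j, hij⟩ := hz
    refine ⟨fun i => lqE p (al (lif M) i j), fun h => hij (congrFun h i0), fun i => hcolE i j, ?_⟩
    have hsum := lq_sum h2F hs h0 hθ fun i => hcolE i j
    obtain ⟨t, u, htu⟩ := lq_ker hP (∑ i, al (lif M) i j) (by rw [map_sum]; exact hsum)
    have hQ : lqE p (∑ i, ∑ k, if i < k then (C (lif M i k) + X) *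
        (al (lif M) i j * al (lif M) k j) else 0) = ∑ i, ∑ k, (if i < k then
        (AdjoinRoot.of p (M i k) + AdjoinRoot.root p) *
          (lqE p (al (lif M) i j) * lqE p (al (lif M) k j)) else 0) := by
      rw [map_sum]
      refine Finset.sum_congr rfl fun i _ => ?_
      rw [map_sum]
      refine Finset.sum_congr rfl fun k _ => ?_
      split_ifs
      · rw [map_mul, map_add, map_mul, hev, hX]
      · exact map_zero _
    rw [← hQ]
    exact lq_half hp.ne_zero hP _ _ _
      (lq_case1 (lif M) hAs hA0 P a b t u j hab htu)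
  · push Not at hz
    have hN : ∀ i k, ((charmatrix (lif M)).map (lqE p)) i k =
        (if i = k then AdjoinRoot.root p else 0) - AdjoinRoot.of p (M i k) := by
      intro i k
      rw [Matrix.map_apply, charmatrix_apply, map_sub, hev, Matrix.diagonal_apply]
      congr 1
      split_ifs
      · exact hX
      · exact map_zero _
    have hdet : ((charmatrix (lif M)).map (lqE p)).det = 0 := by
      have h1 := (lqE p).map_det (charmatrix (lif M))
      rw [RingHom.mapMatrix_apply] at h1
      rw [← h1]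
      exact hφ
    have hadj : ∀ i, adjugate ((charmatrix (lif M)).map (lqE p)) i i = 0 := by
      intro i
      have h1 := (lqE p).map_adjugate (charmatrix (lif M))
      rw [RingHom.mapMatrix_apply, RingHom.mapMatrix_apply] at h1
      rw [← h1, Matrix.map_apply]
      exact hz i i
    have hfin : Finite (AdjoinRoot p) := by
      have hfd : Module.Finite (ZMod 2) (AdjoinRoot p) :=
        (AdjoinRoot.powerBasis hp.ne_zero).finite
      exact Module.finite_of_finite (ZMod 2)
    exact lq_case2 h2F hs h0 hθ _ hN hdet hadj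

end main

end Pool.Agent.MP2696.Two
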