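import Pool.Agent.Lib.MP_2696ff_co.Two.SpecA

/-!
# MP_2696ff_co, `Two`: a rank one perturbation of `X - A`
-/

set_option autoImplicit false

namespace Pool.Agent.MP2696.Two

open Matrix Polynomial

theorem tRk33 : S_Rk := by
  intro q A
  have hneg : (Matrix.of fun i j => C (A i j) + (if i = j then 0 else X) :
      Matrix (Fin (2 * q)) (Fin (2 * q)) ℤ[X]).det =
      (charmatrix A + replicateCol Unit (fun _ : Fin (2 * q) => (-X : ℤ[X])) *
        replicateRow Unit (fun _ : Fin (2 * q) => (1 : ℤ[X]))).det := by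
    have h1 : (Matrix.of fun i j => C (A i j) + (if i = j then 0 else X) :
        Matrix (Fin (2 * q)) (Fin (2 * q)) ℤ[X]) =
        -(charmatrix A + replicateCol Unit (fun _ : Fin (2 * q) => (-X : ℤ[X])) *
          replicateRow Unit (fun _ : Fin (2 * q) => (1 : ℤ[X]))) := by
      ext1 i j
      rw [Matrix.of_apply, Matrix.neg_apply, Matrix.add_apply, Matrix.mul_apply]
      by_cases hij : i = j
      · subst hij
        rw [charmatrix_apply_eq]
        simp
      · rw [charmatrix_apply_ne _ _ _ hij]
        simp [hij]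
        ring
    rw [h1, det_neg, Fintype.card_fin, pow_mul, neg_one_sq, one_pow, one_mul]
  rw [hneg]
  apply FaithfulSMul.algebraMap_injective ℤ[X] (FractionRing ℤ[X])
  set φ := algebraMap ℤ[X] (FractionRing ℤ[X]) with hφ
  have hinj : Function.Injective φ := FaithfulSMul.algebraMap_injective ℤ[X] (FractionRing ℤ[X])
  set M : Matrix (Fin (2 * q)) (Fin (2 * q)) (FractionRing ℤ[X]) := (charmatrix A).map φ with hM
  have hdet : M.det = φ A.charpoly := by
    rw [Matrix.charpoly, RingHom.map_det]; rfl
  have hd0 : M.det ≠ 0 := by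
    rw [hdet]
    exact fun h => A.charpoly_monic.ne_zero ((map_eq_zero_iff φ hinj).1 h)
  have h1 : φ (charmatrix A + replicateCol Unit (fun _ : Fin (2 * q) => (-X : ℤ[X])) *
        replicateRow Unit (fun _ : Fin (2 * q) => (1 : ℤ[X]))).det =
      (M + replicateCol Unit (fun _ : Fin (2 * q) => (-(φ X) : FractionRing ℤ[X])) *
        replicateRow Unit (fun _ : Fin (2 * q) => (1 : FractionRing ℤ[X]))).det := by
    rw [RingHom.map_det]
    congr 1
    ext a b
    simp [hM, Matrix.mul_apply]
  have h2 : M⁻¹ = (M.det)⁻¹ • M.adjugate := by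
    rw [Matrix.inv_def, Ring.inverse_eq_inv']
  have h3 : M.adjugate = (adjugate (charmatrix A)).map φ := by
    have := RingHom.map_adjugate φ (charmatrix A)
    exact this.symm
  have h4 : ((replicateRow Unit (fun _ : Fin (2 * q) => (1 : FractionRing ℤ[X])) *
      M⁻¹ * replicateCol Unit (fun _ : Fin (2 * q) => (-(φ X) : FractionRing ℤ[X]))) () ()) =
      - (φ X * (M.det⁻¹ * ∑ i, ∑ j, φ (adjugate (charmatrix A) i j))) := by
    rw [h2, h3]
    simp only [Matrix.mul_apply, replicateRow_apply, replicateCol_apply, one_mul,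
      Matrix.smul_apply, Matrix.map_apply, smul_eq_mul, mul_neg, Finset.sum_neg_distrib]
    congr 1
    rw [Finset.sum_comm (f := fun i j => φ (adjugate (charmatrix A) i j)), Finset.mul_sum,
      Finset.mul_sum]
    refine Finset.sum_congr rfl fun i _ => ?_
    rw [← Finset.mul_sum]
    ring
  have h5 : (1 + replicateRow Unit (fun _ : Fin (2 * q) => (1 : FractionRing ℤ[X])) *
      M⁻¹ * replicateCol Unit (fun _ : Fin (2 * q) => (-(φ X) : FractionRing ℤ[X]))).det =
      1 - φ X * (M.det⁻¹ * ∑ i, ∑ j, φ (adjugate (charmatrix A) i j)) := by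
    rw [det_unique, Matrix.add_apply, Matrix.one_apply_eq, sub_eq_add_neg]
    congr 1
  rw [h1, det_add_replicateCol_mul_replicateRow (isUnit_iff_ne_zero.2 hd0), h5, map_sub, ← hdet]
  simp only [al, map_sum, map_mul]
  field_simp

end Pool.Agent.MP2696.Two
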