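import Pool.Agent.Lib.MP_2696ff_co.AA.Wal
import Pool.Agent.Lib.MP_2696ff_co.Two.ADeg
import Pool.Agent.Lib.MP_2696ff_co.Two.ADiag
import Pool.Agent.Lib.MP_2696ff_co.Two.AEv1
import Pool.Agent.Lib.MP_2696ff_co.Two.AEv2
import Pool.Agent.Lib.MP_2696ff_co.Two.AExp
import Pool.Agent.Lib.MP_2696ff_co.Two.AFP
import Pool.Agent.Lib.MP_2696ff_co.Two.AForm
import Pool.Agent.Lib.MP_2696ff_co.Two.AHalf
import Pool.Agent.Lib.MP_2696ff_co.Two.AJac
import Pool.Agent.Lib.MP_2696ff_co.Two.ALoc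
import Pool.Agent.Lib.MP_2696ff_co.Two.AMate
import Pool.Agent.Lib.MP_2696ff_co.Two.AN0
import Pool.Agent.Lib.MP_2696ff_co.Two.AN1
import Pool.Agent.Lib.MP_2696ff_co.Two.AOdd
import Pool.Agent.Lib.MP_2696ff_co.Two.APar
import Pool.Agent.Lib.MP_2696ff_co.Two.APf
import Pool.Agent.Lib.MP_2696ff_co.Two.AQ1
import Pool.Agent.Lib.MP_2696ff_co.Two.AQ2
import Pool.Agent.Lib.MP_2696ff_co.Two.AStep
import Pool.Agent.Lib.MP_2696ff_co.Two.ATr
import Pool.Agent.Lib.MP_2696ff_co.Two.AWalk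
import Pool.Agent.Lib.MP_2696ff_co.Two.AWid
import Pool.Agent.Lib.MP_2696ff_co.Two.BLemQ
import Pool.Agent.Lib.MP_2696ff_co.Two.Rk33

/-!
# MP_2696ff_co, `Two`: almost all graphs have no second graph with the same labelled deck
-/

set_option autoImplicit false
set_option linter.unusedSectionVars false

namespace Pool.Agent.MP2696.Two

open Matrix Polynomial Finset Pool.Agent.MP2696.AA

theorem lif_m2 {n : ℕ} (B : Matrix (Fin n) (Fin n) ℤ) (hB : Adj B) : lif (m2 B) = B := by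
  ext i j
  rw [lif, m2, Matrix.map_apply, Matrix.map_apply]
  rcases hB.zo i j with h | h <;> rw [h] <;> rfl

theorem m2_lif {n : ℕ} (M : Matrix (Fin n) (Fin n) (ZMod 2)) : m2 (lif M) = M := by
  ext i j
  rw [lif, m2, Matrix.map_apply, Matrix.map_apply]
  generalize M i j = a
  revert a
  decide

theorem sz_lif {n : ℕ} (M : Matrix (Fin n) (Fin n) (ZMod 2)) (hM : IsAlt M) : Sz (lif M) := by
  refine ⟨fun i j => ?_, fun i => ?_⟩
  · rw [lif, Matrix.map_apply, Matrix.map_apply, hM.1]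
  · rw [lif, Matrix.map_apply, hM.2]; rfl

theorem alt_m2 {n : ℕ} (B : Matrix (Fin n) (Fin n) ℤ) (hB : Sz B) : IsAlt (m2 B) := by
  refine ⟨fun i j => ?_, fun i => ?_⟩
  · rw [m2, Matrix.map_apply, Matrix.map_apply, hB.1]
  · rw [m2, Matrix.map_apply, hB.2, map_zero]

theorem row_lif {n : ℕ} (M : Matrix (Fin n) (Fin n) (ZMod 2)) (i : Fin n) :
    ∑ k, lif M i k = ((univ.filter fun j => M i j ≠ 0).card : ℤ) := by
  rw [card_eq_sum_ones, Nat.cast_sum, sum_filter]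
  refine sum_congr rfl fun j _ => ?_
  rw [lif, Matrix.map_apply]
  generalize M i j = a
  revert a
  decide

/-- The part for `4 ∣ c`. -/
theorem four (n : ℕ) (M : Matrix (Fin n) (Fin n) (ZMod 2)) (hM : IsAlt M)
    (B : Matrix (Fin n) (Fin n) ℤ) (c : ℤ) (hB : Adj B) (hMB : Mate (lif M) B c)
    (hrow : ∀ i, ∑ k, lif M i k = ∑ k, B i k) (hne : B ≠ lif M) (hc : (4 : ℤ) ∣ c) :
    ∃ (D : (ZMod 2)[X]) (E : Matrix (Fin n) (Fin n) (ZMod 2)), IsAlt E ∧ E ≠ 0 ∧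
      (∀ p, Irreducible p → p ∣ D → 2 ≤ p.natDegree → BadX M p) ∧ E * aeval M D = 0 ∧
      ∀ i, (univ.filter fun j => M i j ≠ 0).card =
        (univ.filter fun j => (M + E) i j ≠ 0).card := by
  obtain ⟨ψ, τ, hψ, hmon, hdeg⟩ := tForm tPar n (lif M) hMB.szA
  obtain ⟨D, hD1, hD2, -, hD4⟩ := tStep tDeg (tForm tPar) (tN1 tJac (tN0 tJac)) tLoc n (lif M) B c
    hMB hc ψ τ hψ
  rw [m2_lif] at hD4
  have hE : M + (M + m2 B) = m2 B := by
    ext i j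
    rw [Matrix.add_apply, Matrix.add_apply, ← add_assoc, CharTwo.add_self_eq_zero, zero_add]
  refine ⟨D, M + m2 B, hM.add (alt_m2 B hMB.szB), fun h0 => ?_, fun p hp hpD h2 => ?_, hD4,
    fun i => ?_⟩
  · apply hne
    have h1 : m2 B = M := by
      rw [h0, add_zero] at hE
      exact hE.symm
    rw [← lif_m2 B hB, h1]
  · exact tLemQ n M p ⟨hM.1, hM.2⟩ hp h2 ⟨ψ, τ, hψ, hpD.trans hD1, hD2 p hp hpD⟩
  · rw [hE]
    have h1 := hrow i
    rw [row_lif, ← lif_m2 B hB, row_lif] at h1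
    exact_mod_cast h1

/-- The part for `c` odd. -/
theorem odd_part (q : ℕ) (M : Matrix (Fin (2 * q)) (Fin (2 * q)) (ZMod 2))
    (B : Matrix (Fin (2 * q)) (Fin (2 * q)) ℤ) (c : ℤ) (hMB : Mate (lif M) B c)
    (hc : ¬ (4 : ℤ) ∣ c) :
    LinearIndependent (ZMod 2) (fun j : Fin q => (M ^ (j : ℕ)) *ᵥ 1) ∧
      ∃ ψ : (ZMod 2)[X], M.charpoly = ψ ^ 2 ∧ ∀ k, 1 ≤ k → ψ.coeff (2 * k) = 0 := by
  have hFP : S_FP := tFP tPf tExp
  have hc2 : ¬ (2 : ℤ) ∣ c := fun h => hc (tEv2 hFP q (lif M) B c hMB h)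
  obtain ⟨ψ, τ, hψ, hmon, hdeg⟩ := tForm tPar (2 * q) (lif M) hMB.szA
  have hr : red (lif M).charpoly = red ψ ^ 2 := by
    have h2 : red (2 : ℤ[X]) = 0 := by
      rw [map_ofNat]
      exact CharTwo.two_eq_zero
    rw [hψ, map_add, map_mul, map_mul, h2, zero_mul, add_zero, Nat.mul_mod_right, pow_zero,
      map_one, one_mul, map_pow]
  refine ⟨?_, red ψ, ?_, ?_⟩
  · have h1 := tWalk tDiag q (lif M) B c hMB hc2
    rwa [m2_lif] at h1
  · rw [← hr, red_charpoly, m2_lif]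
  · exact tEv1 tHalf (tQ1 tTr) (tQ2 hFP tRk33) q (lif M) B c hMB hc2 (red ψ) hr

/-- Almost all graphs have no second graph with the same labelled polynomial deck. -/
theorem alm (ε : ℝ) (hε : 0 < ε) : ∃ n₀ : ℕ, ∀ n ≥ n₀,
    (cn n (fun M => ∃ (B : Matrix (Fin n) (Fin n) ℤ) (c : ℤ), Adj B ∧ Mate (lif M) B c ∧
      (∀ i, ∑ k, lif M i k = ∑ k, B i k) ∧ B ≠ lif M) : ℝ) ≤ ε * 2 ^ (n.choose 2) := by
  have hε2 : 0 < ε / 2 := by positivity
  obtain ⟨n1, h1⟩ := count (ε / 2) hε2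
  obtain ⟨n2, h2⟩ := evE (ε / 2) hε2
  refine ⟨max 3 (max n1 n2), fun n hn => ?_⟩
  have hn3 : 3 ≤ n := le_trans (le_max_left _ _) hn
  have hn1 : n1 ≤ n := le_trans (le_trans (le_max_left _ _) (le_max_right _ _)) hn
  have hn2 : n2 ≤ n := le_trans (le_trans (le_max_right _ _) (le_max_right _ _)) hn
  have g1 := h1 n hn1
  rcases Nat.even_or_odd' n with ⟨q, rfl | rfl⟩
  · have g2 := h2 q hn2
    have h3 := (cn_mono (n := 2 * q) (P := fun M => ∃ (B : Matrix (Fin (2 * q)) (Fin (2 * q)) ℤ)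
      (c : ℤ), Adj B ∧ Mate (lif M) B c ∧ (∀ i, ∑ k, lif M i k = ∑ k, B i k) ∧ B ≠ lif M)
      (Q := fun A => (∃ (D : (ZMod 2)[X]) (E : Matrix (Fin (2 * q)) (Fin (2 * q)) (ZMod 2)),
        IsAlt E ∧ E ≠ 0 ∧
        (∀ p, Irreducible p → p ∣ D → 2 ≤ p.natDegree → BadX A p) ∧ E * aeval A D = 0 ∧
        ∀ i, (univ.filter fun j => A i j ≠ 0).card =
          (univ.filter fun j => (A + E) i j ≠ 0).card) ∨
        (LinearIndependent (ZMod 2) (fun j : Fin q => (A ^ (j : ℕ)) *ᵥ 1) ∧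
          ∃ ψ : (ZMod 2)[X], A.charpoly = ψ ^ 2 ∧ ∀ k, 1 ≤ k → ψ.coeff (2 * k) = 0)) (by
      rintro M hM ⟨B, c, hB, hMB, hrow, hne⟩
      by_cases hc : (4 : ℤ) ∣ c
      · exact Or.inl (four (2 * q) M hM B c hB hMB hrow hne hc)
      · exact Or.inr (odd_part q M B c hMB hc))).trans (cn_or _ _)
    have h4 : (cn (2 * q) (fun M => ∃ (B : Matrix (Fin (2 * q)) (Fin (2 * q)) ℤ)
      (c : ℤ), Adj B ∧ Mate (lif M) B c ∧ (∀ i, ∑ k, lif M i k = ∑ k, B i k) ∧ B ≠ lif M) : ℝ) ≤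
      (cn (2 * q) (fun A => ∃ (D : (ZMod 2)[X]) (E : Matrix (Fin (2 * q)) (Fin (2 * q)) (ZMod 2)),
        IsAlt E ∧ E ≠ 0 ∧
        (∀ p, Irreducible p → p ∣ D → 2 ≤ p.natDegree → BadX A p) ∧ E * aeval A D = 0 ∧
        ∀ i, (univ.filter fun j => A i j ≠ 0).card =
          (univ.filter fun j => (A + E) i j ≠ 0).card) : ℝ) +
      (cn (2 * q) (fun A => LinearIndependent (ZMod 2) (fun j : Fin q => (A ^ (j : ℕ)) *ᵥ 1) ∧
          ∃ ψ : (ZMod 2)[X], A.charpoly = ψ ^ 2 ∧ ∀ k, 1 ≤ k → ψ.coeff (2 * k) = 0) : ℝ) := by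
      exact_mod_cast h3
    refine h4.trans ?_
    have : ε * 2 ^ ((2 * q).choose 2) = ε / 2 * 2 ^ ((2 * q).choose 2) +
      ε / 2 * 2 ^ ((2 * q).choose 2) := by ring
    rw [this]
    exact add_le_add g1 g2
  · have h3 := cn_mono (n := 2 * q + 1) (P := fun M => ∃ (B : Matrix (Fin (2 * q + 1))
      (Fin (2 * q + 1)) ℤ)
      (c : ℤ), Adj B ∧ Mate (lif M) B c ∧ (∀ i, ∑ k, lif M i k = ∑ k, B i k) ∧ B ≠ lif M)
      (Q := fun A => ∃ (D : (ZMod 2)[X]) (E : Matrix (Fin (2 * q + 1)) (Fin (2 * q + 1)) (ZMod 2)),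
        IsAlt E ∧ E ≠ 0 ∧
        (∀ p, Irreducible p → p ∣ D → 2 ≤ p.natDegree → BadX A p) ∧ E * aeval A D = 0 ∧
        ∀ i, (univ.filter fun j => A i j ≠ 0).card =
          (univ.filter fun j => (A + E) i j ≠ 0).card) (by
      rintro M hM ⟨B, c, hB, hMB, hrow, hne⟩
      exact four (2 * q + 1) M hM B c hB hMB hrow hne
        (tOdd tPar (tForm tPar) (tN0 tJac) tHalf tWid (2 * q + 1) (lif M) B c hn3 (by omega)
          hMB hrow))
    have h4 : (cn (2 * q + 1) (fun M => ∃ (B : Matrix (Fin (2 * q + 1)) (Fin (2 * q + 1)) ℤ)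
      (c : ℤ), Adj B ∧ Mate (lif M) B c ∧ (∀ i, ∑ k, lif M i k = ∑ k, B i k) ∧ B ≠ lif M) : ℝ) ≤
      (cn (2 * q + 1) (fun A => ∃ (D : (ZMod 2)[X]) (E : Matrix (Fin (2 * q + 1))
        (Fin (2 * q + 1)) (ZMod 2)), IsAlt E ∧ E ≠ 0 ∧
        (∀ p, Irreducible p → p ∣ D → 2 ≤ p.natDegree → BadX A p) ∧ E * aeval A D = 0 ∧
        ∀ i, (univ.filter fun j => A i j ≠ 0).card =
          (univ.filter fun j => (A + E) i j ≠ 0).card) : ℝ) := by
      exact_mod_cast h3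
    refine h4.trans (g1.trans ?_)
    refine mul_le_mul_of_nonneg_right (by linarith) (by positivity)

end Pool.Agent.MP2696.Two
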