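import Pool.Agent.Lib.MP_2696ff_co.Two.Aux1
import Pool.Agent.Lib.MP_2696ff_co.Two.AJac
import Pool.Agent.Lib.MP_2696ff_co.Two.APar
import Pool.Agent.Lib.MP_2696ff_co.Two.ADeg
import Pool.Agent.Lib.MP_2696ff_co.Two.AForm
import Pool.Agent.Lib.MP_2696ff_co.Two.AN0
import Pool.Agent.Lib.MP_2696ff_co.Two.AHalf
import Pool.Agent.Lib.MP_2696ff_co.Two.AWid
import Pool.Agent.Lib.MP_2696ff_co.Two.AOdd
import Pool.Agent.Lib.MP_2696ff_co.Two.APf
import Pool.Agent.Lib.MP_2696ff_co.Two.AExp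
import Pool.Agent.Lib.MP_2696ff_co.Two.AFP
import Pool.Agent.Lib.MP_2696ff_co.Two.AEv2
import Pool.Agent.Lib.MP_2696ff_co.Two.ATr
import Pool.Agent.Lib.MP_2696ff_co.Two.AQ1
import Pool.Agent.Lib.MP_2696ff_co.Two.ARk
import Pool.Agent.Lib.MP_2696ff_co.Two.AQ2
import Pool.Agent.Lib.MP_2696ff_co.Two.AEv1
import Pool.Agent.Lib.MP_2696ff_co.Two.AN1
import Pool.Agent.Lib.MP_2696ff_co.Two.ALoc
import Pool.Agent.Lib.MP_2696ff_co.Two.AStep
import Pool.Agent.Lib.MP_2696ff_co.Two.AMate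

/-!
# MP_2696ff_co, `Two`: equal polynomial decks modulo 4
-/

set_option autoImplicit false

namespace Pool.Agent.MP2696.Two

open Matrix Polynomial

theorem allN0 : S_N0 := tN0 tJac
theorem allForm : S_Form := tForm tPar
theorem allOdd : S_Odd := tOdd tPar allForm allN0 tHalf tWid
theorem allFP : S_FP := tFP tPf tExp
theorem allEv2 : S_Ev2 := tEv2 allFP
theorem allEv1 : S_Ev1 := tEv1 tHalf (tQ1 tTr) (tQ2 allFP tRk)
theorem allStep : S_Step := tStep tDeg allForm (tN1 tJac allN0) tLoc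

/-- Even order and odd difference: the coefficients of `X ^ (4 k)`, `k ≥ 1`, are even. -/
theorem ev1_coeff (n : ℕ) (hn : n % 2 = 0) (A B : Matrix (Fin n) (Fin n) ℤ) (c : ℤ)
    (hM : Mate A B c) (hc : ¬ (2 : ℤ) ∣ c) (k : ℕ) (hk : 1 ≤ k) :
    (2 : ℤ) ∣ A.charpoly.coeff (4 * k) := by
  obtain ⟨q, rfl⟩ : ∃ q, n = 2 * q := ⟨n / 2, by omega⟩
  obtain ⟨ψ, τ, hψ, -, -⟩ := allForm _ A hM.szA
  rw [Nat.mul_mod_right, pow_zero, one_mul] at hψ
  have hred : red A.charpoly = red ψ ^ 2 := by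
    rw [hψ, map_add, map_mul, map_pow, red_two, zero_mul, add_zero]
  have h1 := allEv1 q A B c hM hc (red ψ) hred k hk
  have h2 : (red A.charpoly).coeff (4 * k) = 0 := by
    rw [hred, ← ZMod.expand_card, show 4 * k = (2 * k) * 2 by ring, coeff_expand_mul two_pos]
    exact h1
  rw [red_coeff] at h2
  exact_mod_cast (ZMod.intCast_zmod_eq_zero_iff_dvd _ 2).1 h2

theorem four_dvd (n : ℕ) (hn : 3 ≤ n) (A B : Matrix (Fin n) (Fin n) ℤ) (c : ℤ)
    (hM : Mate A B c) (hd : ∀ i, ∑ k, A i k = ∑ k, B i k) :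
    ((2 : ℤ) ∣ c → (4 : ℤ) ∣ c) ∧
    ((n % 4 ≠ 2 ∨ ∃ k, 1 ≤ k ∧ ¬ (2 : ℤ) ∣ A.charpoly.coeff (4 * k)) → (4 : ℤ) ∣ c) := by
  rcases Nat.mod_two_eq_zero_or_one n with h2 | h2
  · have key : (2 : ℤ) ∣ c → (4 : ℤ) ∣ c := by
      intro hc
      obtain ⟨q, rfl⟩ : ∃ q, n = 2 * q := ⟨n / 2, by omega⟩
      exact allEv2 q A B c hM hc
    refine ⟨key, fun h => ?_⟩
    by_cases hc : (2 : ℤ) ∣ c
    · exact key hc
    · exfalso
      have h3 := ev1_coeff n h2 A B c hM hc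
      rcases h with h | ⟨k, hk, hk'⟩
      · have h4 := h3 (n / 4) (by omega)
        rw [show 4 * (n / 4) = n by omega] at h4
        have h5 : A.charpoly.coeff n = 1 := by
          have h6 := A.charpoly_monic.coeff_natDegree
          rwa [charpoly_natDegree_eq_dim, Fintype.card_fin] at h6
        rw [h5] at h4
        omega
      · exact hk' (h3 k hk)
  · have key := allOdd n A B c hn h2 hM hd
    exact ⟨fun _ => key, fun _ => key⟩

theorem mat_eq_of_m2 {n : ℕ} {A B : Matrix (Fin n) (Fin n) ℤ} (hA : Adj A) (hB : Adj B)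
    (h : m2 A = m2 B) : A = B := by
  ext i j
  have h1 : ((A i j : ℤ) : ZMod 2) = ((B i j : ℤ) : ZMod 2) := congrFun (congrFun h i) j
  rcases hA.zo i j with ha | ha <;> rcases hB.zo i j with hb | hb <;> rw [ha, hb] at h1 ⊢
  · simp at h1
  · simp at h1

/-- Equal polynomial decks modulo 4. -/
theorem mainA (n : ℕ) (hn : 3 ≤ n) (A B : Matrix (Fin n) (Fin n) ℤ) (hA : Adj A) (hB : Adj B)
    (h : (Finset.univ : Finset (Fin n)).val.map (fun v => (del A v).charpoly) =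
      (Finset.univ : Finset (Fin n)).val.map (fun v => (del B v).charpoly)) :
    ((2 : ℤ) ∣ B.charpoly.coeff 0 - A.charpoly.coeff 0 →
      (4 : ℤ) ∣ B.charpoly.coeff 0 - A.charpoly.coeff 0) ∧
    ((n % 4 ≠ 2 ∨ ∃ k, 1 ≤ k ∧ ¬ (2 : ℤ) ∣ A.charpoly.coeff (4 * k)) →
      (4 : ℤ) ∣ B.charpoly.coeff 0 - A.charpoly.coeff 0) ∧
    ((4 : ℤ) ∣ B.charpoly.coeff 0 - A.charpoly.coeff 0 →
      ∀ ψ τ : ℤ[X], A.charpoly = X ^ (n % 2) * ψ ^ 2 + 2 * τ →
      ∃ (σ : Equiv.Perm (Fin n)) (D : (ZMod 2)[X]), D ∣ red ψ ∧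
        (∀ p, Irreducible p → p ∣ D → p ∣ red τ) ∧
        (m2 A + m2 (B.submatrix σ σ)) * aeval (m2 A) D = 0 ∧
        (A = B.submatrix σ σ ∨ 2 ≤ D.natDegree)) := by
  obtain ⟨σ, c, hM, hd⟩ := tMate n A B hn hA hB h
  have hcp : (B.submatrix σ σ).charpoly = B.charpoly := by
    rw [← Matrix.charpoly_reindex σ (B.submatrix σ σ)]
    congr 1
    ext i j
    simp
  have hc : B.charpoly.coeff 0 - A.charpoly.coeff 0 = c := by
    rw [← hcp, hM.cp, coeff_add, coeff_C_zero]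
    ring
  rw [hc]
  obtain ⟨h1, h2⟩ := four_dvd n hn A (B.submatrix σ σ) c hM hd
  refine ⟨h1, h2, fun h4 ψ τ hψ => ?_⟩
  obtain ⟨D, hD1, hD2, hD3, hD4⟩ := allStep n A (B.submatrix σ σ) c hM h4 ψ τ hψ
  refine ⟨σ, D, hD1, hD2, hD4, ?_⟩
  by_cases he : m2 A = m2 (B.submatrix σ σ)
  · exact Or.inl (mat_eq_of_m2 hA (hB.submatrix σ) he)
  · exact Or.inr (hD3 he)

end Pool.Agent.MP2696.Two
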