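import Pool.Agent.Lib.MP_2696ff_co.Two.MainA
import Pool.Agent.Lib.MP_2696ff_co.Two.ADiag
import Pool.Agent.Lib.MP_2696ff_co.Two.AWalk

/-!
# MP_2696ff_co, `Two`: the constant term modulo 4 and the criterion, for adjacency matrices
-/

set_option autoImplicit false

namespace Pool.Agent.MP2696.Two

open Matrix Polynomial

theorem charpoly_submatrix_perm {n : ℕ} (B : Matrix (Fin n) (Fin n) ℤ) (σ : Equiv.Perm (Fin n)) :
    (B.submatrix σ σ).charpoly = B.charpoly := by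
  rw [← Matrix.charpoly_reindex σ (B.submatrix σ σ)]
  congr 1
  ext i j
  simp

/-- The constant term modulo 4. -/
theorem mainB (n : ℕ) (hn : 3 ≤ n) (A B : Matrix (Fin n) (Fin n) ℤ) (hA : Adj A) (hB : Adj B)
    (h : (Finset.univ : Finset (Fin n)).val.map (fun v => (del A v).charpoly) =
      (Finset.univ : Finset (Fin n)).val.map (fun v => (del B v).charpoly)) :
    (4 : ℤ) ∣ B.charpoly.coeff 0 - A.charpoly.coeff 0 ∨
    (¬ (2 : ℤ) ∣ B.charpoly.coeff 0 - A.charpoly.coeff 0 ∧ n % 4 = 2 ∧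
      (∀ k, 1 ≤ k → (2 : ℤ) ∣ A.charpoly.coeff (4 * k)) ∧
      LinearIndependent (ZMod 2) (fun j : Fin (n / 2) => (m2 A ^ (j : ℕ)) *ᵥ 1)) := by
  obtain ⟨σ, c, hM, hd⟩ := tMate n A B hn hA hB h
  have hc : B.charpoly.coeff 0 - A.charpoly.coeff 0 = c := by
    rw [← charpoly_submatrix_perm B σ, hM.cp, coeff_add, coeff_C_zero]
    ring
  rw [hc]
  obtain ⟨h1, h2⟩ := four_dvd n hn A (B.submatrix σ σ) c hM hd
  by_cases h4 : (4 : ℤ) ∣ c
  · exact Or.inl h4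
  · right
    have hc2 : ¬ (2 : ℤ) ∣ c := fun h => h4 (h1 h)
    have hn4 : n % 4 = 2 := by
      by_contra h3
      exact h4 (h2 (Or.inl h3))
    have hk : ∀ k, 1 ≤ k → (2 : ℤ) ∣ A.charpoly.coeff (4 * k) := by
      intro k hk
      by_contra h3
      exact h4 (h2 (Or.inr ⟨k, hk, h3⟩))
    refine ⟨hc2, hn4, hk, ?_⟩
    obtain ⟨q, rfl⟩ : ∃ q, n = 2 * q := ⟨n / 2, by omega⟩
    have h5 := tWalk tDiag q A (B.submatrix σ σ) c hM hc2
    rwa [show 2 * q / 2 = q by omega]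

/-- The criterion. -/
theorem mainC (n : ℕ) (hn : 3 ≤ n) (A B : Matrix (Fin n) (Fin n) ℤ) (hA : Adj A) (hB : Adj B)
    (h : (Finset.univ : Finset (Fin n)).val.map (fun v => (del A v).charpoly) =
      (Finset.univ : Finset (Fin n)).val.map (fun v => (del B v).charpoly))
    (h4 : (4 : ℤ) ∣ B.charpoly.coeff 0 - A.charpoly.coeff 0)
    (hs : ∃ ψ τ : ℤ[X], A.charpoly = X ^ (n % 2) * ψ ^ 2 + 2 * τ ∧
      ∀ D : (ZMod 2)[X], D ∣ red ψ → (∀ p, Irreducible p → p ∣ D → p ∣ red τ) → D.natDegree ≤ 1) :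
    ∃ σ : Equiv.Perm (Fin n), A = B.submatrix σ σ := by
  obtain ⟨ψ, τ, hψ, hD⟩ := hs
  obtain ⟨σ, D, hD1, hD2, -, hD4⟩ := (mainA n hn A B hA hB h).2.2 h4 ψ τ hψ
  refine ⟨σ, ?_⟩
  rcases hD4 with h5 | h5
  · exact h5
  · have := hD D hD1 hD2
    omega

/-- Adjacency matrices of graphs. -/
theorem adj_graph {n : ℕ} (F : SimpleGraph (Fin n)) [DecidableRel F.Adj] : Adj (F.adjMatrix ℤ) := by
  refine ⟨fun i j => ?_, fun i => ?_, fun i j => ?_⟩
  · simp [SimpleGraph.adjMatrix_apply, F.adj_comm]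
  · simp [SimpleGraph.adjMatrix_apply]
  · rw [SimpleGraph.adjMatrix_apply]
    split_ifs
    · exact Or.inr rfl
    · exact Or.inl rfl

theorem m2_graph {n : ℕ} (F : SimpleGraph (Fin n)) [DecidableRel F.Adj] :
    m2 (F.adjMatrix ℤ) = F.adjMatrix (ZMod 2) := by
  ext i j
  rw [m2, Matrix.map_apply, SimpleGraph.adjMatrix_apply, SimpleGraph.adjMatrix_apply]
  split_ifs
  · simp
  · simp

end Pool.Agent.MP2696.Two
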