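import Pool.Agent.Lib.MP_2696ff_co.Split

/-!
# MP_2696ff_co, `Two`: polynomial decks modulo 4, part A (algebra): statements with proofs

`A`, `B` are symmetric integer matrices of order `n` with zero diagonal, `al A = adj (X - A)`, and
`Mate A B c` says that the diagonals of `al A`, `al B` (the characteristic polynomials of the
vertex-deleted subgraphs) are equal and that `charpoly B = charpoly A + c`. Modulo 2 the
characteristic polynomial is `X ^ (n % 2) * ψ ^ 2`, modulo 4 it is `X ^ (n % 2) * ψ ^ 2 + 2 τ`.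
Main results: `4 ∣ c` (`n` odd: `S_Odd`; `n` even: `S_Ev2`, `S_Ev1`) and `S_Step`: over `F_2` the
difference of `A` and `B` is killed by `D(A)`, where `D ∣ ψ` and all primes of `D` divide `τ`.

Modules `Two/A<Name>.lean` (import this file only), theorem `t<Name> : S_Y → .. → S_<Name>` in the
namespace `Pool.Agent.MP2696.Two`, all other declarations `private`.
-/

set_option autoImplicit false

namespace Pool.Agent.MP2696.Two

open Matrix Polynomial

/-- Symmetric with zero diagonal. -/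
def Sz {n : ℕ} {R : Type*} [Zero R] (A : Matrix (Fin n) (Fin n) R) : Prop :=
  (∀ i j, A i j = A j i) ∧ ∀ i, A i i = 0

/-- The adjugate of `X - A`. -/
noncomputable def al {n : ℕ} (A : Matrix (Fin n) (Fin n) ℤ) : Matrix (Fin n) (Fin n) ℤ[X] :=
  adjugate (charmatrix A)

/-- Reduction modulo 2 of integer polynomials. -/
noncomputable def red : ℤ[X] →+* (ZMod 2)[X] := mapRingHom (Int.castRingHom (ZMod 2))

/-- Reduction modulo 2 of integer matrices. -/
def m2 {n : ℕ} (A : Matrix (Fin n) (Fin n) ℤ) : Matrix (Fin n) (Fin n) (ZMod 2) :=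
  A.map (Int.castRingHom (ZMod 2))

/-- The same labelled polynomial deck, and characteristic polynomials which differ by `c`. -/
structure Mate {n : ℕ} (A B : Matrix (Fin n) (Fin n) ℤ) (c : ℤ) : Prop where
  szA : Sz A
  szB : Sz B
  diag : ∀ i, al A i i = al B i i
  cp : B.charpoly = A.charpoly + C c

/-- Jacobi: `det (X - A)` divides the two by two principal minors of its adjugate.

Proof. `R = ℤ[X]` is a domain, `M = charmatrix A`, `d = det M = A.charpoly` is monic, so `d ≠ 0`. For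
`i = j` the right side is zero. Let `i ≠ j`, `a = adjugate M`, and let `P = 1 + U * W`, where
`U : Matrix (Fin n) (Fin 2) R` has the columns `a(·,i) - e_i`, `a(·,j) - e_j` and `W : Matrix (Fin 2)
(Fin n) R` has the rows `e_i`, `e_j` (so `P` is the unit matrix with the columns `i`, `j` replaced by the
columns of `a`). By `Matrix.det_one_add_mul_comm`, `det P = det (1 + W * U) = a_ii a_jj - a_ij a_ji`
(`det_fin_two`). `M * P` is the matrix `M` with the columns `i`, `j` replaced by `d e_i`, `d e_j`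
(`mul_adjugate`), that is `(M.updateCol i (d • e_i)).updateCol j (d • e_j)`, so by `det_updateCol_smul`
twice `det (M * P) = d ^ 2 * m`. Hence `d * det P = d ^ 2 * m`, cancel `d`. -/
def S_Jac : Prop := ∀ (n : ℕ) (A : Matrix (Fin n) (Fin n) ℤ) (i j : Fin n),
  A.charpoly ∣ al A i i * al A j j - al A i j * al A j i

/-- Parity of the coefficients.

Proof. Let `S i j = A i j` for `i < j`, `S i j = - A i j` for `j < i`, `S i i = 0`. Then `Sᵀ = - S`, and
`S`, `A` agree modulo 2, so `charpoly S` and `charpoly A` agree modulo 2 (`charpoly_map`). Let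
`p = charpoly S`. Composition with `-X` (a ring homomorphism of `ℤ[X]`) maps `charmatrix S` to
`- X - S = - (X + S) = - (charmatrix (-S)) = - (charmatrix Sᵀ)`, so `p.comp (-X) = (-1) ^ n * p`
(`det_neg`, `charpoly_transpose`). Comparing coefficients, `(-1) ^ k p_k = (-1) ^ n p_k`, so `p_k = 0`
if `n + k` is odd. -/
def S_Par : Prop := ∀ (n : ℕ) (A : Matrix (Fin n) (Fin n) ℤ), Sz A → ∀ k, (n + k) % 2 = 1 →
  (2 : ℤ) ∣ A.charpoly.coeff k

/-- Degrees of the entries of `adj (X - A)`: off the diagonal the degree is at most `n - 2` and the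
coefficient of `X ^ (n - 2)` is `A i j`.

Proof. `charmatrix A * al A = charpoly • 1` gives
`X * al A i j = ∑ k, C (A i k) * al A k j + (if i = j then charpoly A else 0)` (*). Fix `j`, let `D` be the
maximum of `natDegree (al A i j)` over `i`. By (*) at an `i` with maximal degree (if `D ≥ n` then the
left side has degree `D + 1` and the right side has degree `≤ max D n`) we get `D ≤ n - 1`. For `i ≠ j`
the right side of (*) has degree `≤ n - 1`, so `natDegree (al A i j) ≤ n - 2`. The coefficient of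
`X ^ (n - 1)` in (*) for `i ≠ j`: `coeff (al A i j) (n-2) = ∑ k, A i k * coeff (al A k j) (n-1)
= A i j * 1`, since `al A j j` is the characteristic polynomial of a matrix of order `n - 1`
(`Pool.Agent.MP2696.charpoly_del`), hence monic of degree `n - 1`, and the others have degree
`≤ n - 2`. -/
def S_Deg : Prop := ∀ (n : ℕ) (A : Matrix (Fin n) (Fin n) ℤ) (i j : Fin n), i ≠ j →
  (al A i j).natDegree ≤ n - 2 ∧ (al A i j).coeff (n - 2) = A i j

/-- The characteristic polynomial modulo 4.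

Proof. Uses `S_Par`. Let `p = red (charpoly A)`, monic of degree `n`. By `S_Par` the coefficients
`p_k` with `k` not congruent to `n` modulo 2 vanish. Let `g = ∑_{j ≤ n/2} C (p_(2j + n % 2)) X ^ j`. Then
`p = X ^ (n % 2) * expand 2 g = X ^ (n % 2) * g ^ 2` (`ZMod.expand_card`). `g` is monic of degree `n / 2`.
Let `ψ` be a polynomial over `ℤ` with `red ψ = g` (`Polynomial.map_surjective`). Then
`red (charpoly A - X ^ (n % 2) * ψ ^ 2) = 0`, so all coefficients of this polynomial are even and it is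
`2 * τ` (`Polynomial.C_dvd_iff_dvd_coeff`). -/
def S_Form : Prop := ∀ (n : ℕ) (A : Matrix (Fin n) (Fin n) ℤ), Sz A →
  ∃ ψ τ : ℤ[X], A.charpoly = X ^ (n % 2) * ψ ^ 2 + 2 * τ ∧ (red ψ).Monic ∧ (red ψ).natDegree = n / 2

/-- The first divisibility of `N = al A - al B`.

Proof. Uses `S_Jac`. `al A` is symmetric (`adjugate_transpose`, `charmatrix A` is symmetric). By `S_Jac`,
`f_i f_j - (al A i j)^2 = charpoly A * m` and `f_i f_j - (al B i j)^2 = charpoly B * m'` with the same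
`f_i = al A i i = al B i i`. Modulo 2, `red (charpoly B) = red (charpoly A) = X ^ ρ * ψ ^ 2` (`ρ = n % 2`)
as `2 ∣ c`. So `X ^ ρ ψ ^ 2` divides `(red (al A i j))^2 - (red (al B i j))^2 = (red N_ij)^2`. Then
`ψ ^ 2 ∣ (red N_ij)^2`, so `ψ ∣ red N_ij` (`pow_dvd_pow_iff` in the euclidean domain `F_2[X]`), write
`red N_ij = ψ h`. If `ρ = 1` cancel `ψ ^ 2 ≠ 0` (`red (charpoly A)` is monic): `X ∣ h ^ 2`, so `X ∣ h`. -/
def S_N0 : Prop := ∀ (n : ℕ) (A B : Matrix (Fin n) (Fin n) ℤ) (c : ℤ), Mate A B c → (2 : ℤ) ∣ c →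
  ∀ ψ : (ZMod 2)[X], red A.charpoly = X ^ (n % 2) * ψ ^ 2 →
  ∀ i j, X ^ (n % 2) * ψ ∣ red (al A i j - al B i j)

/-- The quadratic form of a symmetric matrix with zero diagonal and entries in an ideal.

Proof. `∑ i, ∑ j, N i j * w i * w j = 2 * ∑ i, ∑ j, (if i < j then N i j * w i * w j else 0)`: split the
pairs `(i, j)` into `i < j`, `i = j`, `j < i` and use the symmetry; every summand of `P` is in `I`. -/
def S_Half : Prop := ∀ (n : ℕ) (N : Matrix (Fin n) (Fin n) ℤ[X]) (I : Ideal ℤ[X]), Sz N →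
  (∀ i j, N i j ∈ I) → ∀ w : Fin n → ℤ[X], ∃ P ∈ I, ∑ i, ∑ j, N i j * w i * w j = 2 * P

/-- The identity for the row sums `d i = ∑ j, A i j`.

Proof. `a = al A`, `φ = charpoly A`. `(X - A) a = φ` and `a (X - A) = φ` give `A a = X a - φ`,
`A a A = X a A - φ A = X (X a - φ) - φ A = X ^ 2 a - X φ - φ A`. Now take the sum of all entries:
`∑ (A a A)_kl = ∑_ij d_i a_ij d_j` because the column sums of `A` are the row sums, the sum of the entries
of `1` is `n`, of `A` it is `∑ d_i`. -/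
def S_Wid : Prop := ∀ (n : ℕ) (A : Matrix (Fin n) (Fin n) ℤ), Sz A →
  ∑ i, ∑ j, al A i j * C (∑ k, A i k) * C (∑ k, A j k) =
    X ^ 2 * ∑ i, ∑ j, al A i j - (X * C (n : ℤ) + C (∑ i, ∑ k, A i k)) * A.charpoly

/-- Odd order: `4 ∣ c`.

Proof. Uses `S_Par`, `S_Form`, `S_N0`, `S_Half`, `S_Wid`. `n = 2 q + 1`, `q ≥ 1`, `d_i = ∑ k, A i k = ∑ k, B i k`
(hypothesis), `s = ∑ i, d_i`; `s` is even (`A` symmetric with zero diagonal; `S_Half` for the matrix
`A.map C`, or directly). By `S_Par` with `k = 0` the constant coefficients of `charpoly A`, `charpoly B`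
are even, so `c` is even, `c = 2 c'`. Let `ψ` be as in `S_Form`, `I = Ideal.span {2, X * ψ}`. By `S_N0` every
entry of `N = al A - al B` is in `I` (`red N_ij = red (X ψ) * red h` implies `N_ij - X ψ h = 2 u`). `N` is
symmetric with zero diagonal. The difference of `S_Wid` for `A` and `B` is
`∑ N_ij d_i d_j = X ^ 2 ∑ N_ij + (X n + s) c` (as `charpoly A - charpoly B = - c`). By `S_Half` with `w = 1`
and `w = C d`: `2 P_1 = X ^ 2 * 2 P_0 + (X n + s) 2 c'`, so `(X n + s) c' ∈ I`, and as `s ∈ 2ℤ`, `n` odd,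
`X * C c' ∈ I`. Apply `red`: `red (X ψ) ∣ X * C (c' mod 2)`. If `c'` is odd then `red ψ ∣ 1` (cancel
`X`), so `natDegree (red ψ) = 0`, but it is `n / 2 ≥ 1`. So `c'` is even. -/
def S_Odd : Prop := ∀ (n : ℕ) (A B : Matrix (Fin n) (Fin n) ℤ) (c : ℤ), 3 ≤ n → n % 2 = 1 →
  Mate A B c → (∀ i, ∑ k, A i k = ∑ k, B i k) → (4 : ℤ) ∣ c

/-- The determinant of a skew symmetric matrix over a field of characteristic zero is a square.

Proof. Strong induction on the order; it is convenient to prove it for matrices indexed by an arbitrary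
`Fintype` with `DecidableEq`. If the index type is empty, `det = 1`. If `M = 0` and the index type is not
empty, `det M = 0`. Otherwise `M i j = u ≠ 0` for some `i ≠ j` (`M i i = 0` as `2 ≠ 0`). Reindex by
`κ ≃ Fin 2 ⊕ {k // k ≠ i ∧ k ≠ j}` (`0 ↦ i`, `1 ↦ j`): `M = fromBlocks E F (-Fᵀ) D` with
`E = !![0, u; -u, 0]`, `det E = u ^ 2`, `Dᵀ = - D`. By `Matrix.det_fromBlocks₁₁`
`det M = u ^ 2 * det (D + Fᵀ E⁻¹ F)` and `D + Fᵀ E⁻¹ F` is skew symmetric (`E⁻¹` is skew symmetric).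
Apply the induction hypothesis. -/
def S_Pf : Prop := ∀ (K : Type) [Field K] [CharZero K] (n : ℕ) (M : Matrix (Fin n) (Fin n) K),
  Mᵀ = - M → ∃ t : K, M.det = t ^ 2

/-- Expansion modulo 4.

Proof. `det (M + 2 Z)` is a multilinear function of the columns (or rows): `MultilinearMap.map_add_univ`
gives `∑ s, 2 ^ |s| * det (columns of Z for s, columns of M otherwise)`; `s = ∅`: `det M`; `|s| = 1`:
`2 * det (M.updateCol j (Z · j))`, and `∑ j, det (M.updateCol j (Z · j)) = ∑ j, (adjugate M * Z) j j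
= trace (adjugate M * Z)` (`cramer_apply`, `cramer_eq_adjugate_mulVec`); the other terms are multiples
of 4. -/
def S_Exp : Prop := ∀ (n : ℕ) (M Z : Matrix (Fin n) (Fin n) ℤ[X]),
  ∃ t : ℤ[X], (M + (2 : ℤ[X]) • Z).det = M.det + 2 * (adjugate M * Z).trace + 4 * t

/-- The determinant of a symmetric matrix with zero diagonal of even order `2 q` over `ℤ[X]` is
`(-1) ^ q` times a square modulo 4.

Proof. Uses `S_Pf`, `S_Exp`. Let `L i j = M i j` for `i < j` and `0` otherwise, `M = L + Lᵀ`,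
`S = L - Lᵀ`, `Sᵀ = - S`, `M = S + 2 Lᵀ`. By `S_Exp` `det M = det S + 2 tr (adj S Lᵀ) + 4 t`. As the order
is even, `(adj S)ᵀ = adj (Sᵀ) = adj (-S) = (-1) ^ (2 q - 1) adj S = - adj S` (`adjugate_transpose`,
`adjugate_smul` with the scalar `-1`; for `q = 0` the matrix is empty and everything is trivial). So
`tr (adj S L) = tr (Lᵀ (adj S)ᵀ) = - tr (adj S Lᵀ)` and
`2 q det S = tr (adj S S) = tr (adj S L) - tr (adj S Lᵀ) = - 2 tr (adj S Lᵀ)`, hence
`tr (adj S Lᵀ) = - q det S` (`ℤ[X]` has no 2-torsion) and `det M = (1 - 2 q) det S + 4 t`, and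
`1 - 2 q = (-1) ^ q + 4 m`. Finally `det S` is a square in `ℤ[X]`: by `S_Pf` over the field
`K = FractionRing ℤ[X]` it is `z ^ 2` with `z ∈ K`; `z` is integral over `ℤ[X]`, which is integrally closed
(`IsIntegrallyClosed.exists_algebraMap_eq_of_pow_mem` or a similar lemma), so `z ∈ ℤ[X]`. -/
def S_FP : Prop := ∀ (q : ℕ) (M : Matrix (Fin (2 * q)) (Fin (2 * q)) ℤ[X]), Sz M →
  ∃ s t : ℤ[X], M.det = (-1) ^ q * s ^ 2 + 4 * t

/-- Even order, `c` even: `4 ∣ c`.

Proof. Uses `S_FP`. Apply `S_FP` to `A.map C` and `B.map C` and evaluate at `0`: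
`det A = (-1) ^ q s ^ 2 + 4 t`, `det B = (-1) ^ q s' ^ 2 + 4 t'` with integers. The constant coefficient
of `charpoly A` is `det (-A) = det A` (even order), so `det B = det A + c`. As `c` is even, `s` and `s'`
have the same parity, so `s ^ 2 - s' ^ 2 = (s - s') (s + s')` is divisible by 4. -/
def S_Ev2 : Prop := ∀ (q : ℕ) (A B : Matrix (Fin (2 * q)) (Fin (2 * q)) ℤ) (c : ℤ), Mate A B c →
  (2 : ℤ) ∣ c → (4 : ℤ) ∣ c

/-- The square of `adj (X - A)`: `tr (a ^ 2) = (φ')^2 - φ φ''`.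

Proof. `a = al A`, `φ = charpoly A`. Differentiate the entries of `a * charmatrix A = φ • 1`
(`Matrix.map derivative`): `a' * charmatrix A + a = φ' • 1` (the derivative of `charmatrix A` is `1`).
Multiply by `a` on the right: `φ • a' + a * a = φ' • a`. Take traces: `tr a = φ'`
(`Pool.Agent.MP2696.derivative_charpoly` with `charpoly_del`), `tr a' = φ''`. -/
def S_Tr : Prop := ∀ (n : ℕ) (A : Matrix (Fin n) (Fin n) ℤ),
  (al A * al A).trace = derivative A.charpoly ^ 2 -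
    A.charpoly * derivative (derivative A.charpoly)

/-- The first equation for `Ψ`, where `2 Ψ` is the sum of all entries of `N = al A - al B`.

Proof. Uses `S_Tr`. `N` is symmetric with zero diagonal, so `Ψ = ∑_{i<j} N_ij` and
`tr (N * N) = 2 Θ`, `Θ = ∑_{i<j} N_ij ^ 2`, `red Θ = (red Ψ)^2` (characteristic 2:
`CharTwo.sum_sq` or `map_sum (frobenius ..)`). `tr (N * N) = tr (α α) - 2 tr (α β) + tr (β β)` with
`α = al A`, `β = al B`. `tr (α β) = ∑ f_i ^ 2 + 2 Λ`, `Λ = ∑_{i<j} α_ij β_ij`, `f_i = α_ii = β_ii`. With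
`φ = charpoly A`, `charpoly B = φ + c`, `φ'' = 2 χ` (the second derivative of an integer polynomial is
even: `k (k-1)` is even) and `S_Tr`:
`2 Θ = 2 φ' ^ 2 - (2 φ + c) * 2 χ - 2 ∑ f_i ^ 2 - 4 Λ`, so `Θ = φ' ^ 2 - (2 φ + c) χ - ∑ f_i ^ 2 - 2 Λ`.
Modulo 2: `∑ (red f_i)^2 = (∑ red f_i)^2 = (red φ')^2` (`derivative_charpoly`), so
`(red Ψ)^2 = red Θ = red χ` as `c` is odd. Write `φ = ψ₀ ^ 2 + 2 τ` with `red ψ₀ = ψ`; then
`φ'' = 2 ψ₀' ^ 2 + 2 ψ₀ ψ₀'' + 2 τ''`, `χ = ψ₀' ^ 2 + ψ₀ ψ₀'' + τ''` and `ψ₀''`, `τ''` are even, so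
`red χ = (ψ')^2`. So `(red Ψ - ψ')^2 = 0`. -/
def S_Q1 : Prop := ∀ (n : ℕ) (A B : Matrix (Fin n) (Fin n) ℤ) (c : ℤ), Mate A B c →
  ¬ (2 : ℤ) ∣ c → ∀ ψ : (ZMod 2)[X], red A.charpoly = ψ ^ 2 → ∀ Ψ : ℤ[X],
  ∑ i, ∑ j, (al A i j - al B i j) = 2 * Ψ → red Ψ = derivative ψ

/-- A rank one perturbation: `det (X - A - X J) = φ - X * (sum of the entries of al A)`, where
`- (X - A - X J)` has the off diagonal entries `A i j + X` and zero diagonal if `A` has.

Proof. As `Pool.Agent.MP2696.charpoly_add_J` (pass to the fraction field, use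
`det_add_replicateCol_mul_replicateRow`), with the column `-X` in place of `-1`. The matrix on the left
side is `- (charmatrix A - X J)`, the order is even. -/
def S_Rk : Prop := ∀ (q : ℕ) (A : Matrix (Fin (2 * q)) (Fin (2 * q)) ℤ),
  (Matrix.of fun i j => C (A i j) + (if i = j then 0 else X)).det =
    A.charpoly - X * ∑ i, ∑ j, al A i j

/-- The second equation for `Ψ`.

Proof. Uses `S_FP`, `S_Rk`. Let `ε = (-1) ^ q`, `E_A = ∑ al A i j`, `E_B` likewise, `E_A - E_B = 2 Ψ`. By `S_FP`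
for the two symmetric matrices of `S_Rk` (zero diagonal): `charpoly A - X E_A = ε s ^ 2 + 4 t`,
`charpoly B - X E_B = ε s' ^ 2 + 4 t'`. Subtract: `- c - 2 X Ψ = ε (s ^ 2 - s' ^ 2) + 4 t''`. Modulo 2,
`E_A` is the trace of `al A` (off diagonal entries come in equal pairs), which is `(charpoly A)'`, whose
reduction is `(ψ ^ 2)' = 0`. So `(red s)^2 = ψ ^ 2`, `red s = ψ`, and in the same way (`E_B` modulo 2 is
`(charpoly B)' = (charpoly A)'`) `(red s')^2 = ψ ^ 2 + 1 = (ψ + 1)^2`, `red s' = ψ + 1`, so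
`s' = s + 1 + 2 r`, `s ^ 2 - s' ^ 2 = - 1 - 2 s - 4 (..)`. Hence `c + 2 X Ψ = ε (1 + 2 s) + 4 (..)`,
`2 X Ψ = 2 s + (ε - c) + 4 (..)` (`2 ε s = 2 s` modulo 4), `ε - c = 2 m`, `X Ψ = s + m + 2 (..)`. Apply `red`:
`X * red Ψ = ψ + C m`; the constant coefficient gives `C m = C (ψ.coeff 0)` (characteristic 2). -/
def S_Q2 : Prop := ∀ (q : ℕ) (A B : Matrix (Fin (2 * q)) (Fin (2 * q)) ℤ) (c : ℤ), Mate A B c →
  ¬ (2 : ℤ) ∣ c → ∀ ψ : (ZMod 2)[X], red A.charpoly = ψ ^ 2 → ∀ Ψ : ℤ[X],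
  ∑ i, ∑ j, (al A i j - al B i j) = 2 * Ψ → X * red Ψ = ψ + C (ψ.coeff 0)

/-- Even order, `c` odd: the coefficients of `ψ` of even degree at least 2 vanish.

Proof. Uses `S_Half`, `S_Q1`, `S_Q2`. `Ψ` exists by `S_Half` with `I = ⊤`, `w = 1`. By `S_Q1`, `S_Q2`
`X * derivative ψ = ψ + C (ψ.coeff 0)`. The coefficient of `X ^ k`, `k ≥ 1`: `k * ψ_k = ψ_k`; for `k` even
the left side is zero. -/
def S_Ev1 : Prop := ∀ (q : ℕ) (A B : Matrix (Fin (2 * q)) (Fin (2 * q)) ℤ) (c : ℤ), Mate A B c →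
  ¬ (2 : ℤ) ∣ c → ∀ ψ : (ZMod 2)[X], red A.charpoly = ψ ^ 2 → ∀ k, 1 ≤ k → ψ.coeff (2 * k) = 0

/-- The labelled deck determines the closed walks of length less than `n`.

Proof. Let `a_l` be the coefficients of `charpoly A`. The coefficient matrices `C_k` of `al A`
(`(C_k) i j = (al A i j).coeff k`) satisfy `C_(k-1) - A C_k = a_k 1` (coefficient of `X ^ k` in
`(X - A) al A = charpoly A`), `C_k = 0` for `k ≥ n`. So `C_(n-1-m) = ∑_{l ≤ m} a_(n-l) A ^ (m-l)` for
`m < n`, by induction. Strong induction on `m < n`: `a_n = 1`,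
`(A ^ m)_ii = (al A i i).coeff (n-1-m) - ∑_{1 ≤ l ≤ m} a_(n-l) (A ^ (m-l))_ii`, and the right side is the
same for `B` (`a_(n-l)` with `l ≤ m < n` is not the constant coefficient). -/
def S_Diag : Prop := ∀ (n : ℕ) (A B : Matrix (Fin n) (Fin n) ℤ) (c : ℤ), Mate A B c →
  ∀ m < n, ∀ i, (A ^ m) i i = (B ^ m) i i

/-- If `c` is odd and `n` even then the walk vectors `A ^ j e`, `j < n / 2`, are linearly independent
over `F_2`.

Proof. Uses `S_Diag`. `M = m2 A`, `M' = m2 B`, `e = 1`. (i) `(M ^ (2 k)) i i = ∑_l (M ^ k i l)^2 =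
∑_l (M ^ k) i l = (M ^ k *ᵥ e) i` (symmetric, squares in `F_2`), `(M ^ (2 k + 1)) i i = x ⬝ᵥ M *ᵥ x = 0` with
`x = M ^ k e_i` (`M` symmetric with zero diagonal over `F_2`). So by `S_Diag` `M ^ k e = M' ^ k e` for
`2 k < n`, that is for `k < n / 2 = q`. (ii) Suppose that the vectors are dependent. Then there is
`r < q` with `M ^ r e = ∑_{j<r} g_j M ^ j e`. By induction on `k`, `M ^ k e = M' ^ k e` for all `k`: for
`k ≥ r` both sides are `∑_{j<r} g_j (..) ^ (k-r+j) e`. So `(M ^ m) i i = (M' ^ m) i i` for all `m`. (iii) The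
Cayley-Hamilton theorem (`aeval_self_charpoly`) for `M` and `M'`, diagonal entry `i` (there is an `i`,
for `n = 0` take care: `charpoly = 1` for both, `c = 0`): `∑_l a_l (M ^ l) i i = 0`,
`∑_l b_l (M' ^ l) i i = 0` where the coefficients of `charpoly M`, `charpoly M'` are equal except that
`b_0 = a_0 + c`. Subtract: `c = 0` in `F_2`. -/
def S_Walk : Prop := ∀ (q : ℕ) (A B : Matrix (Fin (2 * q)) (Fin (2 * q)) ℤ) (c : ℤ), Mate A B c →
  ¬ (2 : ℤ) ∣ c → LinearIndependent (ZMod 2) (fun j : Fin q => (m2 A ^ (j : ℕ)) *ᵥ 1)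

/-- The quadratic condition for `v = N_ij / (X ^ ρ ψ)` modulo 2.

Proof. Uses `S_Jac`, `S_N0`. `ρ = n % 2`, `φ = charpoly A = X ^ ρ ψ ^ 2 + 2 τ`, `c = 4 c'`, `N = al A - al B`,
`α = al A`. By `S_N0` `red N_ij = X ^ ρ red ψ v`; let `V` be a lift of `v`, `N_ij = X ^ ρ ψ V + 2 U`. By `S_Jac`
(`α`, `β` symmetric) `α_ij ^ 2 - β_ij ^ 2 = charpoly B m' - charpoly A m = φ (m' - m) + 4 c' m'`, and the
left side is `N_ij (2 α_ij - N_ij)`. Substituting, modulo 4:
`2 α X ^ ρ ψ V - X ^ (2 ρ) ψ ^ 2 V ^ 2 = φ (m' - m)`, and `X ^ (2 ρ) ψ ^ 2 V ^ 2 = X ^ ρ V ^ 2 (φ - 2 τ)`, so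
`2 X ^ ρ (α ψ V + τ V ^ 2) = φ m'' + 4 m'''`. Reduction modulo 2: `red φ * red m'' = 0`, `red φ ≠ 0`, so
`m'' = 2 m₁` and `X ^ ρ (α ψ V + τ V ^ 2) = φ m₁ + 2 m'''`. Apply `red` and cancel `X ^ ρ`:
`v (τ v + ψ α) = ψ ^ 2 red m₁`. -/
def S_N1 : Prop := ∀ (n : ℕ) (A B : Matrix (Fin n) (Fin n) ℤ) (c : ℤ), Mate A B c → (4 : ℤ) ∣ c →
  ∀ ψ τ : ℤ[X], A.charpoly = X ^ (n % 2) * ψ ^ 2 + 2 * τ → ∀ i j, ∃ v : (ZMod 2)[X],
  red (al A i j - al B i j) = X ^ (n % 2) * red ψ * v ∧
    red ψ ^ 2 ∣ v * (red τ * v + red ψ * red (al A i j))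

/-- A local divisibility.

Proof. `p` is prime (`Irreducible.prime`). Show `p ^ r ∣ v` for `r ≤ a` by induction on `r`: let
`v = p ^ r v₁`, `r < a`, `ψ = p ^ a ψ₁`. Then `v (τ v + ψ α) = p ^ (2 r) v₁ (τ v₁ + p ^ (a-r) ψ₁ α)` is divisible
by `p ^ (2 a)`, and `2 r + 1 ≤ 2 a`, so `p ∣ v₁ (τ v₁ + p ^ (a-r) ψ₁ α)`. If `p ∣ v₁` we are done, otherwise
`p ∣ τ v₁ + p ^ (a-r) ψ₁ α`, so `p ∣ τ v₁` and `p ∣ v₁`, a contradiction. -/
def S_Loc : Prop := ∀ (p ψ τ v α : (ZMod 2)[X]) (a : ℕ), Irreducible p → ¬ p ∣ τ → p ^ a ∣ ψ →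
  ψ ^ 2 ∣ v * (τ * v + ψ * α) → p ^ a ∣ v

/-- The main algebraic statement: the difference of `A` and `B` is small over `F_2`.

Proof. Uses `S_Deg`, `S_Form`, `S_N1`, `S_Loc`. `ρ = n % 2`, `M = m2 A`, `M' = m2 B`, `v i j` from `S_N1`,
`g = gcd` of `red ψ ≠ 0` and all `v i j` (`Finset.gcd` or the generator of the ideal spanned by them;
`F_2[X]` is a principal ideal domain), `red ψ = g * D`, `v i j = g * w i j`. (1) `D ∣ red ψ`. (2) Let `p` be
irreducible, `p ∣ D`, and suppose `¬ p ∣ red τ`. Let `p ^ a` be the exact power of `p` in `red ψ`. By `S_Loc`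
`p ^ a` divides all `v i j` and `red ψ`, so `p ^ a ∣ g` and `p ^ (a+1) ∣ g D = red ψ`, a contradiction. (3) If
`M ≠ M'` then some `v i j ≠ 0`, `i ≠ j` (otherwise `red N_ij = 0` for all `i ≠ j` and by `S_Deg` the coefficient of
`X ^ (n-2)` gives `A i j = B i j` modulo 2). By `S_Deg` `natDegree (red N_ij) ≤ n - 2`, and
`red N_ij = X ^ ρ red ψ v_ij` with `2 * natDegree (red ψ) + ρ = n` (degree of `red (charpoly A)`); so
`natDegree g ≤ natDegree v_ij ≤ natDegree (red ψ) - 2` and `natDegree D ≥ 2`. (4) From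
`(X - B) (α - β) = (X - A) α + (A - B) α - charpoly B = (A - B) α - c` we get modulo 2
`charmatrix M' * red N = (M - M') * red α` (matrices over `F_2[X]`), `red N = (X ^ ρ * red ψ * g) • w`.
Multiply on the right by `charmatrix M`:
`(X ^ ρ red ψ g) • (charmatrix M' * w * charmatrix M) = red (charpoly A) • (M - M') = (X ^ ρ red ψ g D) • (M - M')`;
cancel `X ^ ρ red ψ g`: `charmatrix M' * w * charmatrix M = D • (M - M')` (entries of
`M - M'` as constant polynomials). Apply `matPolyEquiv` : `(..) * (X - C M) = C (M - M') * (D mapped to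
polynomials with matrix coefficients)`, and evaluate at `M` with `Polynomial.eval_mul_X_sub_C`:
`0 = (M - M') * aeval M D` (see the proof of `Matrix.aeval_self_charpoly`). In characteristic 2 the
difference is the sum. -/
def S_Step : Prop := ∀ (n : ℕ) (A B : Matrix (Fin n) (Fin n) ℤ) (c : ℤ), Mate A B c → (4 : ℤ) ∣ c →
  ∀ ψ τ : ℤ[X], A.charpoly = X ^ (n % 2) * ψ ^ 2 + 2 * τ → ∃ D : (ZMod 2)[X], D ∣ red ψ ∧
  (∀ p, Irreducible p → p ∣ D → p ∣ red τ) ∧ (m2 A ≠ m2 B → 2 ≤ D.natDegree) ∧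
  (m2 A + m2 B) * aeval (m2 A) D = 0

/-- From equal decks to `Mate`.

Proof. As in `Pool.Agent.MP2696.main` (multisets, `Equiv.ofFiberEquiv`): there is `σ` with
`(del B (σ v)).charpoly = (del A v).charpoly`; `B' = B.submatrix σ σ` has
`(del B' v).charpoly = (del A v).charpoly` (`charpoly_del_submatrix`) and `B'.charpoly = B.charpoly`. By
`charpoly_del` the diagonals of the adjugates agree, by `derivative_charpoly` the derivatives of the
characteristic polynomials agree, so these differ by a constant. The row sums: `row_sums`. -/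
def S_Mate : Prop := ∀ (n : ℕ) (A B : Matrix (Fin n) (Fin n) ℤ), 3 ≤ n → Adj A → Adj B →
  (Finset.univ : Finset (Fin n)).val.map (fun v => (del A v).charpoly) =
    (Finset.univ : Finset (Fin n)).val.map (fun v => (del B v).charpoly) →
  ∃ (σ : Equiv.Perm (Fin n)) (c : ℤ), Mate A (B.submatrix σ σ) c ∧
    ∀ i, ∑ k, A i k = ∑ k, B.submatrix σ σ i k

end Pool.Agent.MP2696.Two
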