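import Pool.Agent.Lib.MP_2696ff_co.Two.SpecA

/-!
# MP_2696ff_co, `Two`: polynomial decks modulo 4, part B (counting): statements with proofs

Aim: for almost all graphs `G` every graph with the same polynomial deck is isomorphic to `G`. A graph on
`Fin n` is a symmetric matrix `M` over `F_2` with zero diagonal (`Sz M`), `cnt n P` is the number of those
with the property `P`, the total number is `2 ^ (n.choose 2)`. By `S_Step` a second graph with the same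
deck gives `Δ ≠ 0` with `Δ * D(M) = 0`, where all primes `p` of `D` satisfy `Bad M p`. Event B: some bad
prime of large degree. Event C: the kernel of `D(M)` is large although all primes of `D` have small degree.
Event D: the kernel is small, but `M` and `M + Δ` have the same vertex degrees. Event E: `c` odd.
All are first moment counts of `M`-invariant systems of vectors.

Modules `Two/B<Name>.lean` (import this file only), theorem `t<Name> : S_Y → .. → S_<Name>` in the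
namespace `Pool.Agent.MP2696.Two`, all other declarations `private`.
-/

set_option autoImplicit false

namespace Pool.Agent.MP2696.Two

open Matrix Polynomial

/-- The number of graphs (symmetric matrices over `F_2` with zero diagonal) with a property. -/
noncomputable def cnt (n : ℕ) (P : Matrix (Fin n) (Fin n) (ZMod 2) → Prop) : ℕ :=
  Set.ncard {M : Matrix (Fin n) (Fin n) (ZMod 2) | Sz M ∧ P M}

/-- Linearly independent, pairwise orthogonal and self-orthogonal vectors. -/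
def Iso {n k : ℕ} (u : Fin k → Fin n → ZMod 2) : Prop :=
  LinearIndependent (ZMod 2) u ∧ ∀ i j, u i ⬝ᵥ u j = 0

/-- The action of a polynomial. -/
noncomputable def act {n : ℕ} (M : Matrix (Fin n) (Fin n) (ZMod 2)) (g : (ZMod 2)[X])
    (w : Fin n → ZMod 2) : Fin n → ZMod 2 := (aeval M g) *ᵥ w

/-- The kernel of `g(M)`. -/
noncomputable def kr {n : ℕ} (M : Matrix (Fin n) (Fin n) (ZMod 2)) (g : (ZMod 2)[X]) :
    Submodule (ZMod 2) (Fin n → ZMod 2) := LinearMap.ker (aeval M g).mulVecLin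

/-- The Krylov vectors. -/
noncomputable def kry {n : ℕ} (M : Matrix (Fin n) (Fin n) (ZMod 2)) (w : Fin n → ZMod 2) (k : ℕ) :
    Fin k → Fin n → ZMod 2 := fun j => (M ^ (j : ℕ)) *ᵥ w

/-- The images of the Krylov vectors, if `g(M) w = 0`, `g` monic of degree `k`. -/
noncomputable def clo {n k : ℕ} (g : (ZMod 2)[X]) (u : Fin k → Fin n → ZMod 2) :
    Fin k → Fin n → ZMod 2 := fun j =>
  if h : (j : ℕ) + 1 < k then u ⟨j + 1, h⟩ else - ∑ l : Fin k, g.coeff l • u l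

/-- The integer matrix with entries 0, 1. -/
def lif {n : ℕ} (M : Matrix (Fin n) (Fin n) (ZMod 2)) : Matrix (Fin n) (Fin n) ℤ :=
  M.map fun a => (a.val : ℤ)

/-- A prime which divides `ψ` and `τ`, where the characteristic polynomial is
`X ^ (n % 2) * ψ ^ 2 + 2 * τ`. -/
def Bad {n : ℕ} (M : Matrix (Fin n) (Fin n) (ZMod 2)) (p : (ZMod 2)[X]) : Prop :=
  ∃ ψ τ : ℤ[X], (lif M).charpoly = X ^ (n % 2) * ψ ^ 2 + 2 * τ ∧ p ∣ red ψ ∧ p ∣ red τ

/-- Number of ones in a row. -/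
def rc {n : ℕ} (M : Matrix (Fin n) (Fin n) (ZMod 2)) (i : Fin n) : ℕ :=
  (Finset.univ.filter fun j => M i j ≠ 0).card

/-- The quadratic expression `∑_{i<j} M i j x_i x_j`. -/
noncomputable def qf {n : ℕ} {F : Type} [Field F] [Algebra (ZMod 2) F]
    (M : Matrix (Fin n) (Fin n) (ZMod 2)) (x : Fin n → F) : F :=
  ∑ i, ∑ j, if i < j then M i j • (x i * x j) else 0

/-! ### Linear algebra counts -/

/-- Proof. The matrix is given by its entries above the diagonal, the number of pairs `i < j` is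
`n.choose 2` (for instance through `Sym2`, or by induction, or `Finset.card` of the pairs; one may use
the number of simple graphs if Mathlib has it). -/
def S_Cnt : Prop := ∀ n : ℕ, cnt n (fun _ => True) = 2 ^ (n.choose 2)

/-- Proof. If `M`, `M'` are two solutions then `Z = M - M'` is symmetric with zero diagonal and
`Z u_j = 0`. Let `W` be the span of the `u_j`, of dimension `k`. There is a set `I` of `k` coordinates such
that the restriction of `W` to `F_2 ^ I` is bijective (the matrix of the `u_j` has rank `k`). Claim: `Z` is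
determined by its entries outside `I`: if `Z i j = 0` for all `i, j ∉ I` then for `i ∉ I`
`∑_{j ∈ I} Z i j * u_l j = 0` for all `l`, and the `u_l` restricted to `I` are a basis of `F_2 ^ I`, so
`Z i j = 0` for `j ∈ I`; by symmetry `Z i j = 0` for `i ∈ I`, `j ∉ I`, and the same argument for `i ∈ I`
gives `Z = 0`. So `M ↦ M` restricted to the complement of `I` is injective on the solutions, and the
number of the restrictions is at most `2 ^ ((n-k).choose 2)` (`S_Cnt`, after reindexing the complement of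
`I` by `Fin (n - k)`). Alternative: complete the `u_j` to a basis, `Z ↦ Pᵀ Z P`. -/
def S_U : Prop := ∀ (n k : ℕ) (u t : Fin k → Fin n → ZMod 2), LinearIndependent (ZMod 2) u →
  cnt n (fun M => ∀ j, M *ᵥ u j = t j) ≤ 2 ^ ((n - k).choose 2)

/-- Proof. The kernel of the surjective linear map `x ↦ (u_j ⬝ᵥ x)_j` to `F_2 ^ k` (surjective: the rank
of the matrix with the rows `u_j` is `k`). -/
def S_Perp : Prop := ∀ (n k : ℕ) (u : Fin k → Fin n → ZMod 2), LinearIndependent (ZMod 2) u →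
  Set.ncard {x : Fin n → ZMod 2 | ∀ j, u j ⬝ᵥ x = 0} = 2 ^ (n - k)

/-- Isotropic systems of `k + 1` vectors whose span does not contain the all-ones vector, the first
vector in `S`. -/
noncomputable def nA (n k : ℕ) (S : Set (Fin n → ZMod 2)) : ℕ :=
  Set.ncard {u : Fin (k + 1) → Fin n → ZMod 2 | Iso u ∧ u 0 ∈ S ∧
    (1 : Fin n → ZMod 2) ∉ Submodule.span (ZMod 2) (Set.range u)}

/-- The same with the all-ones vector in the span. -/
noncomputable def nB (n k : ℕ) (S : Set (Fin n → ZMod 2)) : ℕ :=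
  Set.ncard {u : Fin (k + 1) → Fin n → ZMod 2 | Iso u ∧ u 0 ∈ S ∧
    (1 : Fin n → ZMod 2) ∈ Submodule.span (ZMod 2) (Set.range u)}

/-- Proof. Uses `S_Perp`. The restriction `Fin.init` maps the systems of `k + 2` vectors to those of
`k + 1` vectors (`u 0` is kept). The last vector `x` satisfies `u_j ⬝ᵥ x = 0` and `x ⬝ᵥ x = 1 ⬝ᵥ x = 0`
(`a * a = a` in `ZMod 2`). If `1` is not in the span of the first `k + 1` vectors then these and `1` are
`k + 2` independent vectors, so there are at most `2 ^ (n - (k + 2))` such `x`, and if moreover `1` is in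
the span of all `k + 2` vectors then `x ∈ 1 + span`, at most `2 ^ (k + 1)` vectors. If `1` is in the span
of the first `k + 1` vectors then there are at most `2 ^ (n - (k + 1))` vectors `x`. -/
def S_Rec : Prop := ∀ (n k : ℕ) (S : Set (Fin n → ZMod 2)),
  nA n (k + 1) S ≤ 2 ^ (n - k - 2) * nA n k S ∧
    nB n (k + 1) S ≤ 2 ^ (k + 1) * nA n k S + 2 ^ (n - k - 1) * nB n k S

/-- Proof. Uses `S_Rec`, `S_Perp`. `k = 0` is clear. For `k + 1` in place of `k` and `S = univ`: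
`nA n 0 ≤ 2 ^ (n-1)` (vectors orthogonal to `1`), `nB n 0 ≤ 1` (the vector `1`). Let
`E_k = ∑_{j ≤ k} (n - 1 - j)`, so `E_k + (n-(k+1)).choose 2 = n.choose 2`. By induction
`nA n k ≤ 2 ^ E_k` and `nB n k * 2 ^ n ≤ 2 ^ (2 (k+1)) * 2 ^ E_k`: the step is
`nB n (k+1) * 2 ^ n ≤ 2 ^ E_k (2 ^ (k+1+n) + 2 ^ (n-k-1) 2 ^ (2k+2)) = 2 ^ E_k 2 ^ (n+k+2)
= 2 ^ (2(k+2)) 2 ^ (E_k + n - k - 2)`. As `2 (k+1) ≤ n`, `nB n k ≤ 2 ^ E_k`. The total is `nA + nB`. -/
def S_T0 : Prop := ∀ n k : ℕ, 2 * k ≤ n →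
  Set.ncard {u : Fin k → Fin n → ZMod 2 | Iso u} * 2 ^ ((n - k).choose 2) ≤ 2 * 2 ^ (n.choose 2)

/-- Proof. As `S_T0` with `S = {w}`: `nA n 0 ≤ 1`, `nB n 0 = 0` (`1 ∈ span {w}` means `w = 1`, as `1 ≠ 0`
because `n ≥ 2`), so `nA n k ≤ 2 ^ (E_k - (n-1))`, `nB n k * 2 ^ n ≤ 2 ^ (2 (k+1)) 2 ^ (E_k - (n-1))`. -/
def S_Tw : Prop := ∀ (n k : ℕ) (w : Fin n → ZMod 2), 2 * (k + 1) ≤ n → w ≠ 1 →
  Set.ncard {u : Fin (k + 1) → Fin n → ZMod 2 | Iso u ∧ u 0 = w} * 2 ^ ((n - (k + 1)).choose 2) *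
    2 ^ (n - 1) ≤ 2 * 2 ^ (n.choose 2)

/-- Proof. `S = {1}`: `nA n k = 0` (the span contains `u 0 = 1`), `nB n 0 ≤ 1`, so by `S_Rec`
`nB n k ≤ ∏_{i<k} 2 ^ (n-i-1)`; `∑_{i<k} (n-1-i) + (n-(k+1)).choose 2 + (n-(k+1)) = n.choose 2`. -/
def S_Te : Prop := ∀ n k : ℕ, k + 1 ≤ n →
  Set.ncard {u : Fin (k + 1) → Fin n → ZMod 2 | Iso u ∧ u 0 = 1} * 2 ^ ((n - (k + 1)).choose 2) *
    2 ^ (n - (k + 1)) ≤ 2 ^ (n.choose 2)

/-- Proof. Uses `S_U`, `S_T0`. Sum over `u` of the number of `M` (`S_U` with `t = T u`). -/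
def S_P0 : Prop := ∀ (n k : ℕ) (T : (Fin k → Fin n → ZMod 2) → (Fin k → Fin n → ZMod 2)), 2 * k ≤ n →
  Set.ncard {q : Matrix (Fin n) (Fin n) (ZMod 2) × (Fin k → Fin n → ZMod 2) |
    Sz q.1 ∧ Iso q.2 ∧ ∀ j, q.1 *ᵥ q.2 j = T q.2 j} ≤ 2 * 2 ^ (n.choose 2)

/-- Proof. Uses `S_U`, `S_Tw`: union bound over `u`. -/
def S_Pw : Prop := ∀ (n k : ℕ) (T : (Fin (k + 1) → Fin n → ZMod 2) → (Fin (k + 1) → Fin n → ZMod 2))
  (w : Fin n → ZMod 2), 2 * (k + 1) ≤ n → w ≠ 1 →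
  cnt n (fun M => ∃ u : Fin (k + 1) → Fin n → ZMod 2, Iso u ∧ u 0 = w ∧ ∀ j, M *ᵥ u j = T u j) *
    2 ^ (n - 1) ≤ 2 * 2 ^ (n.choose 2)

/-- Proof. Uses `S_U`, `S_Te`: union bound over `u`. -/
def S_Pe : Prop := ∀ (n k : ℕ) (T : (Fin (k + 1) → Fin n → ZMod 2) → (Fin (k + 1) → Fin n → ZMod 2)),
  k + 1 ≤ n →
  cnt n (fun M => ∃ u : Fin (k + 1) → Fin n → ZMod 2, Iso u ∧ u 0 = 1 ∧ ∀ j, M *ᵥ u j = T u j) *
    2 ^ (n - (k + 1)) ≤ 2 ^ (n.choose 2)

/-- Krylov systems.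

Proof. `g` monic of degree `k`, `k = natDegree g`. Independence: a relation `∑ c_j M ^ j w = 0` is
`act M r w = 0` with `r = ∑ c_j X ^ j`, `natDegree r < k` (or `r = 0`; for `k = 0` there is nothing to
show). Orthogonality: `(M ^ i w) ⬝ᵥ (M ^ j w) = w ⬝ᵥ M ^ (i+j) w` as `M` is symmetric. `M *ᵥ M ^ j w =
M ^ (j+1) w`; for `j = k - 1` use `act M g w = 0` and that `g` is monic of degree `k`. -/
def S_KI : Prop := ∀ (n : ℕ) (M : Matrix (Fin n) (Fin n) (ZMod 2)) (g : (ZMod 2)[X])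
  (w : Fin n → ZMod 2), Sz M → g.Monic → act M g w = 0 →
  (∀ r : (ZMod 2)[X], r ≠ 0 → r.natDegree < g.natDegree → act M r w ≠ 0) →
  (∀ r : (ZMod 2)[X], w ⬝ᵥ act M r w = 0) →
  Iso (kry M w g.natDegree) ∧ ∀ j, M *ᵥ kry M w g.natDegree j = clo g (kry M w g.natDegree) j

/-- Isotropy for an irreducible annihilator.

Proof. `h r = w ⬝ᵥ act M r w` is additive. `h (X * s ^ 2) = z ⬝ᵥ M *ᵥ z = 0` with `z = act M s w` (`M` symmetric
with zero diagonal over `F_2`). `h (p * r) = w ⬝ᵥ act M r (act M p w) = 0`. In the finite field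
`F = AdjoinRoot p` the element `X` is not zero (`p ≠ X`, and `p ∣ X` would imply `p = X`, the only unit
constant is 1) and every element is a square (characteristic 2), so for every `r` there is `s` with
`p ∣ r - X * s ^ 2`. Hence `h r = 0`. -/
def S_Irr : Prop := ∀ (n : ℕ) (M : Matrix (Fin n) (Fin n) (ZMod 2)) (p : (ZMod 2)[X])
  (w : Fin n → ZMod 2), Sz M → Irreducible p → p ≠ X → act M p w = 0 →
  ∀ r : (ZMod 2)[X], w ⬝ᵥ act M r w = 0

/-! ### Event C: large kernels for primes of small degree -/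

/-- Proof. Uses `S_U`, `S_P0`, `S_KI`, `S_Irr`. Count the pairs `(M, w)`, `w ≠ 0`, `act M p w = 0`. Every `M` in
the set has at least `2 ^ h - 1` such `w`. Case `p = X`: `M w = 0`, for every `w ≠ 0` at most
`2 ^ ((n-1).choose 2)` matrices (`S_U`, `k = 1`), `2 ^ n * 2 ^ ((n-1).choose 2) = 2 * 2 ^ (n.choose 2)`
(`n ≥ 1`). Case `p ≠ X`: `d = natDegree p`, `p` is monic (over `F_2` every nonzero polynomial is monic);
for `r ≠ 0` of degree `< d`, `r` and `p` are coprime, `s r + t p = 1`, so `act M r w = 0` would give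
`w = 0`. By `S_Irr` and `S_KI` the map `(M, w) ↦ (M, kry M w d)` is an injection (`w` is the vector with
index 0, `d ≥ 1`) to the set of `S_P0` with `T = clo p`. -/
def S_C1 : Prop := ∀ (n h : ℕ) (p : (ZMod 2)[X]), 1 ≤ n → Irreducible p → 2 * p.natDegree ≤ n →
  cnt n (fun M => h ≤ Module.finrank (ZMod 2) (kr M p)) * (2 ^ h - 1) ≤ 2 * 2 ^ (n.choose 2)

/-- A vector of exact order `p ^ g` with isotropic orbit. -/
def Cyc {n : ℕ} (M : Matrix (Fin n) (Fin n) (ZMod 2)) (p : (ZMod 2)[X]) (g : ℕ)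
    (w : Fin n → ZMod 2) : Prop :=
  act M (p ^ g) w = 0 ∧ act M (p ^ (g - 1)) w ≠ 0 ∧ ∀ r : (ZMod 2)[X], w ⬝ᵥ act M r w = 0

/-- Proof. Uses `S_P0`, `S_KI`. Let `d = natDegree p`, `k = g d = natDegree (p ^ g)`. Pairs `(M, w)` with
`Cyc M p g w`: for `r ≠ 0`, `natDegree r < k`, `act M r w ≠ 0`: the gcd of `r` and `p ^ g` is `p ^ j` with
`j ≤ g - 1` (it is `p ^ j` up to a unit, and `j = g` would give `p ^ g ∣ r`), so `act M r w = 0` would give
`act M (p ^ j) w = 0` and `act M (p ^ (g-1)) w = 0`. By `S_KI` and `S_P0` (`T = clo (p ^ g)`) there are at most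
`2 * 2 ^ (n.choose 2)` pairs (`w` is the Krylov vector of index 0, `k ≥ 1`). Every `M` in the set has at
least `2 ^ ((g-1) d)` such `w`: if `w` is one then `act M (1 + p s) w` for all polynomials `s` of degree
`< (g-1) d` (including 0; `Polynomial.degreeLT`, of cardinality `2 ^ ((g-1) d)`) are others: they are
different because `act M (p (s - s')) w = 0` with `natDegree (p (s - s')) < g d` implies `s = s'`;
`act M (p ^ g)` kills them; `act M (p ^ (g-1) (1 + p s)) w = act M (p ^ (g-1)) w + act M (p ^ g s) w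
= act M (p ^ (g-1)) w ≠ 0`; and `(act M a w) ⬝ᵥ act M r (act M a w) = w ⬝ᵥ act M (a ^ 2 r) w = 0`. -/
def S_C2 : Prop := ∀ (n g : ℕ) (p : (ZMod 2)[X]), Irreducible p → 1 ≤ g → 2 * (g * p.natDegree) ≤ n →
  cnt n (fun M => ∃ w, Cyc M p g w) * 2 ^ ((g - 1) * p.natDegree) ≤ 2 * 2 ^ (n.choose 2)

/-- Proof. `dim ker p(M)^j ≤ j * dim ker p(M) ≤ j h` (induction: `p(M)` maps `kr M (p^(j+1))` to
`kr M (p^j)`, the kernel of this map is in `kr M p`). If `act M (p^(2g-1)) w = 0` for all `w ∈ kr M (p^m)` then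
`kr M (p^m) ≤ kr M (p^(2g-1))` and the dimension is at most `(2 g - 1) h`. Otherwise let
`w ∈ kr M (p^m)` with `act M (p^(2g-1)) w ≠ 0` and let `L` be minimal with `act M (p^L) w = 0`, so
`2 g ≤ L`. Let `w' = act M (p^(L-g)) w`. Then `act M (p^g) w' = 0`, `act M (p^(g-1)) w' = act M (p^(L-1)) w ≠ 0`
and `w' ⬝ᵥ act M r w' = w ⬝ᵥ act M (p^(2(L-g)) r) w = 0` because `M` is symmetric and `2 (L-g) ≥ L`. So
`Cyc M p g w'`, a contradiction. -/
def S_C3 : Prop := ∀ (n g h m : ℕ) (M : Matrix (Fin n) (Fin n) (ZMod 2)) (p : (ZMod 2)[X]), Sz M → 1 ≤ g →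
  Module.finrank (ZMod 2) (kr M p) ≤ h → (¬ ∃ w, Cyc M p g w) →
  Module.finrank (ZMod 2) (kr M (p ^ m)) ≤ 2 * g * h

/-- Proof. `finrank (kr M (a b)) ≤ finrank (kr M a) + finrank (kr M b)` (`b(M)` maps `kr M (a b)` to
`kr M a`, the kernel is in `kr M b`). Write `D` as the product of `p ^ (m_p)` over the distinct irreducible
`p ∣ D` (over `F_2` all nonzero polynomials are monic, so `normalizedFactors` has no choice of units);
these `p` are polynomials of degree `< K`, of which there are at most `2 ^ K`. -/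
def S_C4 : Prop := ∀ (n K b : ℕ) (M : Matrix (Fin n) (Fin n) (ZMod 2)),
  (∀ p : (ZMod 2)[X], Irreducible p → p.natDegree < K → ∀ m,
    Module.finrank (ZMod 2) (kr M (p ^ m)) ≤ b) →
  ∀ D : (ZMod 2)[X], D ≠ 0 → (∀ p, Irreducible p → p ∣ D → p.natDegree < K) →
  Module.finrank (ZMod 2) (kr M D) ≤ 2 ^ K * b

/-- Event C.

Proof. Uses `S_C1`, `S_C2`, `S_C3`, `S_C4`. For given `K`, `ε` choose `h`, `g ≥ 1` with
`2 ^ K * (2 / (2 ^ (h+1) - 1) + 2 / 2 ^ (g-1)) ≤ ε` (an irreducible `p` has `natDegree p ≥ 1`, so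
`2 ^ ((g-1) natDegree p) ≥ 2 ^ (g-1)`), `b = 2 ^ K * (2 g h)`, `n₀ = 2 g K + 1`. If `M` is in the set then by
`S_C4` and `S_C3` there is an irreducible `p` of degree `< K` with `finrank (kr M p) ≥ h + 1` or with
`∃ w, Cyc M p g w`. Union bound over the at most `2 ^ K` polynomials `p` of degree `< K`. -/
def S_EvC : Prop := ∀ (K : ℕ) (ε : ℝ), 0 < ε → ∃ b n₀ : ℕ, ∀ n ≥ n₀,
  (cnt n (fun M => ∃ D : (ZMod 2)[X], D ≠ 0 ∧ (∀ p, Irreducible p → p ∣ D → p.natDegree < K) ∧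
    b < Module.finrank (ZMod 2) (kr M D)) : ℝ) ≤ ε * 2 ^ (n.choose 2)

/-! ### Event B: bad primes of large degree -/

/-- Self-orthogonal codes without words of weight 2.

Proof. Let `Cp = {p | ∀ a ∈ C, a ⬝ᵥ p = 0}`, `C ≤ Cp`; `{q | ∀ p ∈ Cp, p ⬝ᵥ q = 0} = C` (dimensions,
`S_Perp`, or a lemma on bilinear forms). Let `L` be the set of all `c ∈ C` with `∑ p_i p'_i c_i = 0` for all
`p, p' ∈ Cp`; `Λ ≤ L`. For `c ∈ L`, `p ∈ Cp`: `c * p ∈ C` (coordinatewise product). `L` is closed under the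
product: for `c, c' ∈ L`, `c * c' ∈ C` as `c' ∈ Cp`, and `∑ p_i p'_i c_i c'_i = ∑ (c' * p)_i p'_i c_i = 0` as
`c' * p ∈ C ≤ Cp`. Let `J` be a set of coordinates such that the restriction `L → F_2 ^ J` is bijective
(choose coordinate functionals which form a basis of the dual of `L`), `|J| = dim L`. For `j ∈ J` let
`c^j ∈ L` be the element with restriction `e_j`. `c^j * c^l = 0` for `j ≠ l` (it is in `L` with restriction 0).
`c^j` has even weight (`c^j ⬝ᵥ c^j = 0`), so there is `b_j ≠ j` with `c^j_(b_j) = 1`; `b_j ∉ J`, and the `b_j` are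
different (disjoint supports). Let `J' = J ∪ {b_j}`, `|J'| = 2 |J|`. The restriction `C → F_2 ^ J'` is
surjective: otherwise there is `z ≠ 0` supported on `J'` with `z ∈ Cp`, and `z * c^j ∈ C` is supported on
`{j, b_j}`, of even weight, not of weight 2, so `z * c^j = 0` and `z_j = z_(b_j) = 0` for all `j`. So
`dim C ≥ 2 dim L ≥ 2 dim Λ`. -/
def S_Lam : Prop := ∀ (n : ℕ) (C Λ : Submodule (ZMod 2) (Fin n → ZMod 2)),
  (∀ a ∈ C, ∀ b ∈ C, a ⬝ᵥ b = 0) → (∀ a ∈ C, (Finset.univ.filter fun i => a i ≠ 0).card ≠ 2) →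
  Λ ≤ C → (∀ c ∈ Λ, ∀ p p' : Fin n → ZMod 2, (∀ a ∈ C, a ⬝ᵥ p = 0) → (∀ a ∈ C, a ⬝ᵥ p' = 0) →
    ∑ i, p i * p' i * c i = 0) →
  2 * Module.finrank (ZMod 2) Λ ≤ Module.finrank (ZMod 2) C

/-- The number of graphs with a prescribed eigenvector and prescribed value of the quadratic form.

Proof. Uses `S_U`, `S_Lam`. `d = finrank F`, `b` a basis of `F`, `u l i = (b.repr (x i)) l`; `hx1` says that the
`u l` are independent. If the set is empty we are done, otherwise subtract one element: the number is at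
most the number of `Z` in `K = {Z | Sz Z ∧ ∀ i, ∑ j, Z i j • x j = 0}` (an additive group) with
`qf Z x = 0`. `qf (·) x : K → F` is additive, so this number times the number of elements of the image
is `|K| ≤ 2 ^ ((n-d).choose 2)` (`S_U` with `t = 0`: `∑ j, Z i j • x j = 0` for all `i` iff `Z *ᵥ u l = 0` for
all `l`). Image: let `Cp = {p | ∑ p_i • x_i = 0}`. For `p, p' ∈ Cp` the matrix
`Z i j = p i p' j + p' i p j` is in `K` and `qf Z x = ∑_{i≠j} p_i p'_j x_i x_j = (∑ p_i x_i)(∑ p'_j x_j)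
- ∑ p_i p'_i x_i ^ 2 = (∑ p_i p'_i x_i) ^ 2` (characteristic 2). Let `W` be the `F_2`-span of all
`∑ p_i p'_i • x_i`. The squares of the elements of `W` are in the image (squaring is additive and
injective), so the image has at least `|W|` elements. Claim: `d ≤ 2 dim W`. Let `Ann` be the space of
`φ : F →ₗ F_2` with `φ(W) = 0`, of dimension `d - dim W`. `φ ↦ (φ (x i))_i` is injective by `hx1`; let `C` be
its image (dimension `d`), `Λ` the image of `Ann`. `S_Lam` applies: `hx2`, `hx3`; if `a ⬝ᵥ p = 0` for all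
`a ∈ C` then `φ (∑ p_i x_i) = 0` for all `φ`, so `p ∈ Cp`, and `∑ p_i p'_i φ(x_i) = φ(∑ p_i p'_i x_i) = 0` for
`φ ∈ Ann`. So `2 (d - dim W) ≤ d`. Finally `number ^ 2 * |F| ≤ number ^ 2 * |W| ^ 2 ≤ |K| ^ 2`. -/
def S_UQ : Prop := ∀ (F : Type) [Field F] [Fintype F] [Algebra (ZMod 2) F] (n : ℕ) (x y : Fin n → F) (c : F),
  Submodule.span (ZMod 2) (Set.range x) = ⊤ →
  (∀ φ φ' : F →ₗ[ZMod 2] ZMod 2, ∑ i, φ (x i) * φ' (x i) = 0) →
  (∀ φ : F →ₗ[ZMod 2] ZMod 2, (Finset.univ.filter fun i => φ (x i) ≠ 0).card ≠ 2) →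
  (cnt n (fun M => (∀ i, ∑ j, M i j • x j = y i) ∧ qf M x = c)) ^ 2 * Fintype.card F ≤
    (2 ^ ((n - Module.finrank (ZMod 2) F).choose 2)) ^ 2

/-- Eigenvectors over `F` are isotropic.

Proof. (1) The span `Y` of the `x i` over `F_2` is stable under `θ` (`θ x_i = ∑ M i j x_j`), so it is an
`F_2[θ] = F`-subspace of `F`, not zero, so `Y = F`. (2) `b φ φ' = ∑ i, φ (x i) * φ' (x i)`. With
`(φ θ)(z) = φ (θ z)`: `b (φ θ) φ' = ∑_i ∑_j M i j φ(x_j) φ'(x_i) = b φ (φ' θ)` (symmetry) and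
`b (φ θ) φ = ∑_ij M i j φ(x_j) φ(x_i) = 0` (symmetric, zero diagonal, characteristic 2). By induction
`b (φ p) φ' = b φ (φ' p)` for all `p ∈ F_2[θ] = F`. Let `φ₀ ≠ 0`; every functional is `φ₀ λ` for some `λ ∈ F`
(the dual is one-dimensional over `F`; count: `λ ↦ φ₀ λ` is injective). `b (φ₀ λ) (φ₀ μ) =
b (φ₀ λ μ) φ₀ = h (λ μ)` with `h ν = b (φ₀ ν) φ₀` additive. `h (θ λ ^ 2) = b (φ₀ λ θ) (φ₀ λ) = 0` and
every element of `F` is `θ λ ^ 2` (`θ ≠ 0`, squaring is bijective). So `h = 0`. -/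
def S_Bx : Prop := ∀ (F : Type) [Field F] [Fintype F] [Algebra (ZMod 2) F] (θ : F) (n : ℕ)
  (M : Matrix (Fin n) (Fin n) (ZMod 2)) (x : Fin n → F), Algebra.adjoin (ZMod 2) {θ} = ⊤ → θ ≠ 0 →
  Sz M → x ≠ 0 → (∀ i, ∑ j, M i j • x j = θ * x i) →
  Submodule.span (ZMod 2) (Set.range x) = ⊤ ∧
    ∀ φ φ' : F →ₗ[ZMod 2] ZMod 2, ∑ i, φ (x i) * φ' (x i) = 0

/-- A bad prime gives an eigenvector with vanishing quadratic form.

Proof. `F = AdjoinRoot p`, `θ = root p ≠ 0` (`natDegree p ≥ 2`), `A = lif M`, `m2 A = M`,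
`charpoly A = X ^ ρ ψ ^ 2 + 2 τ`. Let `P` be a monic integer polynomial with `red P = p` (`p` is monic). As
`p ∣ red ψ`, `p ∣ red τ`: `ψ = P h + 2 k`, `τ = P h' + 2 k'`, so `charpoly A = P a + 4 b`. Let
`ev : ℤ[X] → F` be reduction followed by `AdjoinRoot.mk p`; its kernel is the ideal `(2, P)`.
(0) For any `x : Fin n → F` with `∑ j, M i j x_j = θ x_i`: `θ ∑ x_i ^ 2 = ∑_ij M i j x_i x_j = 0`, so
`(∑ x_i) ^ 2 = ∑ x_i ^ 2 = 0` and `∑ x_i = 0`. (1) Suppose some entry `ev (al A i j) ≠ 0`. Let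
`X_i = al A i j` for this `j`, `x_i = ev X_i`, `x ≠ 0`. `(X - A) X_• = charpoly A e_j`, so `x` is an eigenvector,
`∑ x_i = 0`, so `∑ X_i = 2 u + P t`, and `(∑ X_i) ^ 2 ∈ (4, P)`. Multiply by `X_•`:
`charpoly A * X_j = X ∑ X_i ^ 2 - 2 ∑_{i<l} A i l X_i X_l = X (∑ X_i) ^ 2 - 2 Q`,
`Q = ∑_{i<l} (X + A i l) X_i X_l`. So `2 Q ∈ (4, P)`, `2 Q = 4 s + P t'`, `P t'` is even, `P` is monic, so `t'` is
even and `Q ∈ (2, P)`: `ev Q = 0`. (2) Otherwise all `ev (al A i j) = 0`. Then the kernel of `N = θ - M` over `F`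
has dimension at least 2: it is not zero (`det N = ev (charpoly A) = 0`); if it is spanned by `x` with
`x_i ≠ 0`, then the matrix `N` without row and column `i` is injective (if it kills `z`, extend `z` by 0,
`N z = t e_i`, `0 = (N x) ⬝ z = x ⬝ N z = t x_i`, so `t = 0`, `z = λ x`, `λ x_i = 0`, `z = 0`), so its
determinant, which is `ev (al A i i)` (`adj_diag`), is not zero, a contradiction. Let `x, x'` be independent
in the kernel. `Q(x) = ∑_{i<j} (M i j + θ) x_i x_j` satisfies `Q(λ x) = λ ^ 2 Q(x)` and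
`Q(x + x') = Q(x) + Q(x') + ∑_ij M i j x_i x'_j + θ (∑ x_i)(∑ x'_i) - θ ∑ x_i x'_i = Q(x) + Q(x')`, by (0)
and the eigenvector equation. Choose `λ, μ` with `λ ^ 2 = Q(x')`, `μ ^ 2 = Q(x)` (squaring is surjective):
`Q(λ x + μ x') = 2 Q(x) Q(x') = 0`; if `λ = μ = 0` then `Q(x) = 0` and take `x`. -/
def S_LemQ : Prop := ∀ (n : ℕ) (M : Matrix (Fin n) (Fin n) (ZMod 2)) (p : (ZMod 2)[X]),
  Sz M → Irreducible p → 2 ≤ p.natDegree → Bad M p →
  ∃ x : Fin n → AdjoinRoot p, x ≠ 0 ∧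
    (∀ i, ∑ j, AdjoinRoot.of p (M i j) * x j = AdjoinRoot.root p * x i) ∧
    ∑ i, ∑ j, (if i < j then (AdjoinRoot.of p (M i j) + AdjoinRoot.root p) * (x i * x j) else 0) = 0

/-- The main count for event B.

Proof. Uses `S_T0`, `S_UQ`, `S_Bx`, `S_LemQ`. `d = natDegree p`, `F = AdjoinRoot p`, `θ = root p ≠ 0`,
`|F| = 2 ^ d`, `finrank F = d`, `adjoin {θ} = ⊤`. By `S_LemQ` there is for every `M` in the set an `x ≠ 0` with
`∑ j, M i j • x j = θ x_i` and `qf M x = θ ∑_{i<j} x_i x_j` (characteristic 2). By `S_Bx` `x` satisfies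
`hx1`, `hx2` of `S_UQ`; it also satisfies `hx3`, because `a = (φ (x i))_i` with exactly two nonzero
coordinates `i ≠ j` is `e_i + e_j` and `act M p a = (φ (p(θ) x_i))_i = 0`, which is excluded. The multiples
`λ x`, `λ ≠ 0`, have the same properties (the quadratic expression is multiplied by `λ ^ 2`). So the
number `N` of the `M` in the set satisfies `N (2 ^ d - 1) ≤ ∑_x m(x)`, where `x` runs over all vectors
with `hx1`, `hx2`, `hx3` and `m(x)` is the number of `S_UQ` for `y = θ x`, `c = θ ∑_{i<j} x_i x_j`. The number of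
these `x` is at most the number of isotropic systems `u : Fin d → Fin n → ZMod 2` (coordinates of `x` in
a basis of `F`), so with `S_UQ` and `S_T0`
`(N (2 ^ d - 1)) ^ 2 * 2 ^ d ≤ (number of u * 2 ^ ((n-d).choose 2)) ^ 2 ≤ (2 * 2 ^ (n.choose 2)) ^ 2`. -/
def S_B1 : Prop := ∀ (n : ℕ) (p : (ZMod 2)[X]), Irreducible p → 2 ≤ p.natDegree → 2 * p.natDegree ≤ n →
  (cnt n (fun M => Bad M p ∧ ∀ i j : Fin n, i ≠ j → act M p (Pi.single i 1 + Pi.single j 1) ≠ 0) *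
    (2 ^ p.natDegree - 1)) ^ 2 * 2 ^ p.natDegree ≤ (2 * 2 ^ (n.choose 2)) ^ 2

/-- Words of weight 2.

Proof. Uses `S_Pw`, `S_KI`, `S_Irr`. For fixed `i ≠ j` let `w = e_i + e_j ≠ 0`, `w ≠ 1` as `n ≥ 3`. If
`act M p w = 0` then, as in `S_C1`, the Krylov system of length `d = natDegree p = k + 1` starting with `w` is
isotropic and closed, so by `S_Pw` with `T = clo p` the number of `M` times `2 ^ (n-1)` is at most
`2 * 2 ^ (n.choose 2)`. Union bound over at most `n ^ 2` pairs. -/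
def S_B2 : Prop := ∀ (n : ℕ) (p : (ZMod 2)[X]), 3 ≤ n → Irreducible p → p ≠ X → 2 * p.natDegree ≤ n →
  cnt n (fun M => ∃ i j : Fin n, i ≠ j ∧ act M p (Pi.single i 1 + Pi.single j 1) = 0) * 2 ^ (n - 1) ≤
    n ^ 2 * (2 * 2 ^ (n.choose 2))

/-- Event B.

Proof. Uses `S_B1`, `S_B2`. For `d ≥ 2` there are at most `2 ^ d` polynomials of degree `d`. By `S_B1` the
number of `M` for one `p` is at most `4 * 2 ^ (-d) * 2 ^ (-d/2) * 2 ^ (n.choose 2)` (`2 ^ d - 1 ≥ 2 ^ d / 2`),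
by `S_B2` at most `4 n ^ 2 2 ^ (-n) 2 ^ (n.choose 2)`. Sum over `p` and over `K ≤ d ≤ n/2`:
`≤ (4 ∑_{d ≥ K} 2 ^ (-d/2) + 4 n ^ 2 2 ^ (-n) * 2 * 2 ^ (n/2)) 2 ^ (n.choose 2)`. The first sum is a tail of a
convergent geometric series, the second term tends to 0. `K ≥ 2`. -/
def S_EvB : Prop := ∀ ε : ℝ, 0 < ε → ∃ K n₀ : ℕ, ∀ n ≥ n₀,
  (cnt n (fun M => ∃ p : (ZMod 2)[X], Irreducible p ∧ K ≤ p.natDegree ∧ 2 * p.natDegree ≤ n ∧
    Bad M p) : ℝ) ≤ ε * 2 ^ (n.choose 2)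

/-! ### Event D: small kernels -/

/-- Systems with a small class.

Proof. `N = 2 ^ k`. A system `u` is a map `f : Fin n → (Fin k → ZMod 2)`, there are `N ^ n` maps. For fixed
`ξ` the number of `f` with `2 N |f⁻¹(ξ)| < n`: second moment, `∑_f (N |f⁻¹(ξ)| - n) ^ 2 =
N ^ n * n (N - 1) ≤ N ^ n n N`, and for these `f` the summand is at least `n ^ 2 / 4`, so their number times
`n` is at most `4 N * N ^ n`. Union over the `N` classes `ξ`. (`∑_f |f⁻¹(ξ)| = n N ^ (n-1)`,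
`∑_f |f⁻¹(ξ)| ^ 2 = n N ^ (n-1) + n (n-1) N ^ (n-2)`.) -/
def S_D1 : Prop := ∀ n k : ℕ,
  Set.ncard {u : Fin k → Fin n → ZMod 2 | ∃ ξ : Fin k → ZMod 2,
    2 ^ (k + 1) * (Finset.univ.filter fun i => ∀ l, u l i = ξ l).card < n} * n ≤
    4 * 4 ^ k * 2 ^ (n * k)

/-- Proof. Take `X ⊆ V_a`, `Y ⊆ V_b` with `m` elements each, where `V_ξ` is the class of `ξ` and
`a`, `b` are such that `∑_lm ω l m a_l b_m = 1` (they exist, as `ω ≠ 0`: unit vectors); `a ≠ b` since `ω` is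
symmetric with zero diagonal, so `X ∩ Y = ∅`. The class function: `Δ i j = 1` iff
`∑ ω l m (ξ_i)_l (ξ_j)_m = 1`. Fix all entries of `M` outside `X × Y` and `Y × X`. For `i ∈ X` let
`S(i) = {j | Δ i j = 1} ⊇ Y`. `rc M i = rc (M + Δ) i` iff exactly half of the `j ∈ S(i)` have `M i j = 1`; so the
number of `j ∈ Y` with `M i j = 1` is determined by the fixed entries (for `i ∈ X`, `j ∉ Y` the entry
`(i, j)` is fixed), and there are at most `m.choose (m/2)` possibilities for the row `(M i j)_{j ∈ Y}`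
(`Nat.choose_le_middle`). There are `2 ^ (n.choose 2 - m ^ 2)` choices for the fixed entries (`S_Cnt`: the
group of all matrices is the product of the group of those supported on `X × Y ∪ Y × X`, which has
`2 ^ (m ^ 2)` elements, and of the group of the others). -/
def S_Dc : Prop := ∀ (n k m : ℕ) (u : Fin k → Fin n → ZMod 2) (ω : Matrix (Fin k) (Fin k) (ZMod 2)),
  Sz ω → ω ≠ 0 → (∀ ξ : Fin k → ZMod 2, m ≤ (Finset.univ.filter fun i => ∀ l, u l i = ξ l).card) →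
  cnt n (fun M => ∀ i, rc M i = rc (M + Matrix.of fun i j => ∑ l, ∑ l', ω l l' * u l i * u l' j) i) *
    2 ^ (m * m) ≤ 2 ^ (n.choose 2) * (m.choose (m / 2)) ^ m

/-- Proof. For instance `(centralBinom m) ^ 2 * (2 m + 1) ≤ 16 ^ m` by induction, and
`(2 m + 1).choose m ≤ 2 * ..`; or any other argument. -/
def S_Mid : Prop := ∀ ε : ℝ, 0 < ε → ∃ m₀ : ℕ, ∀ m ≥ m₀, ((m.choose (m / 2) : ℕ) : ℝ) ≤ ε * 2 ^ m

/-- The difference matrix in terms of a basis of the kernel.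

Proof. `W = kr M D`, `k = finrank W`, `u` a basis of `W`. `M` commutes with `D(M)`, so `M W ⊆ W` and `T` exists.
`D(M)` is symmetric, so `D(M) Δ = (Δ D(M))ᵀ = 0` and the columns of `Δ` are in `W`: `Δ = U C'` with `U` the
matrix with the columns `u l`. `U` has a left inverse `L` (`L U = 1`). `Δᵀ = Δ`: `U C' = C'ᵀ Uᵀ`, so
`C' = L C'ᵀ Uᵀ`, `Δ = U ω Uᵀ`, `ω = L C'ᵀ`. `ω = L Δ Lᵀ` is symmetric. The diagonal:
`0 = Δ i i = ∑_l ω l l (u l i) ^ 2 + 2 (..) = ∑_l ω l l u l i` for all `i`, so `ω l l = 0` by independence. -/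
def S_Dm : Prop := ∀ (n : ℕ) (M Δ : Matrix (Fin n) (Fin n) (ZMod 2)) (D : (ZMod 2)[X]), Sz M → Sz Δ →
  Δ * aeval M D = 0 → ∃ (u : Fin (Module.finrank (ZMod 2) (kr M D)) → Fin n → ZMod 2)
    (T ω : Matrix (Fin (Module.finrank (ZMod 2) (kr M D))) (Fin (Module.finrank (ZMod 2) (kr M D)))
      (ZMod 2)),
    LinearIndependent (ZMod 2) u ∧ (∀ j, M *ᵥ u j = ∑ l, T j l • u l) ∧ Sz ω ∧
    Δ = Matrix.of fun i j => ∑ l, ∑ l', ω l l' * u l i * u l' j

/-- Proof. Uses `S_U`, `S_D1`, `S_Dc`, `S_Mid`. Fix `k`. (1) `u` has a small class as in `S_D1`: union over `T`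
(`2 ^ (k ^ 2)` matrices) and `u`, for each at most `2 ^ ((n-k).choose 2)` matrices `M` (`S_U` with
`t j = ∑ l, T j l • u l`): the number times `n` is at most
`2 ^ (k^2) * 4 * 4 ^ k * 2 ^ (n k) * 2 ^ ((n-k).choose 2)`, and `n k + (n-k).choose 2 =
n.choose 2 + k (k+1) / 2` for `k ≤ n`. So the number is at most `C_k / n * 2 ^ (n.choose 2)`. (2) All
classes satisfy `n ≤ 2 ^ (k+1) |V_ξ|`; let `m = ⌈n / 2 ^ (k+1)⌉`, so `m ≤ |V_ξ|`. Union over `u` and `ω`
(`2 ^ (n k)`, `2 ^ (k^2)`), `S_Dc`: at most `2 ^ (n k + k^2) (m.choose (m/2) / 2 ^ m) ^ m 2 ^ (n.choose 2)`, and by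
`S_Mid` for `n` large `m.choose (m/2) ≤ 2 ^ (- (k+1) 2 ^ (k+1)) 2 ^ m`, so the bound is at most
`2 ^ (n k + k^2 - (k+1) 2 ^ (k+1) m) ≤ 2 ^ (k^2 - n)` times `2 ^ (n.choose 2)`. -/
def S_Dk : Prop := ∀ (k : ℕ) (ε : ℝ), 0 < ε → ∃ n₀ : ℕ, ∀ n ≥ n₀,
  (cnt n (fun M => ∃ (u : Fin k → Fin n → ZMod 2) (T ω : Matrix (Fin k) (Fin k) (ZMod 2)),
    LinearIndependent (ZMod 2) u ∧ (∀ j, M *ᵥ u j = ∑ l, T j l • u l) ∧ Sz ω ∧ ω ≠ 0 ∧
    ∀ i, rc M i = rc (M + Matrix.of fun i j => ∑ l, ∑ l', ω l l' * u l i * u l' j) i) : ℝ) ≤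
    ε * 2 ^ (n.choose 2)

/-- Event D.

Proof. Uses `S_Dm`, `S_Dk`. `Δ ≠ 0` implies `ω ≠ 0`; `k = finrank (kr M D) ≤ b`; sum over `k ≤ b`. -/
def S_EvD : Prop := ∀ (b : ℕ) (ε : ℝ), 0 < ε → ∃ n₀ : ℕ, ∀ n ≥ n₀,
  (cnt n (fun M => ∃ (Δ : Matrix (Fin n) (Fin n) (ZMod 2)) (D : (ZMod 2)[X]), Sz Δ ∧ Δ ≠ 0 ∧
    Δ * aeval M D = 0 ∧ Module.finrank (ZMod 2) (kr M D) ≤ b ∧ ∀ i, rc M i = rc (M + Δ) i) : ℝ) ≤
    ε * 2 ^ (n.choose 2)

/-! ### Event E: odd difference -/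

/-- Proof. Uses `S_Pe`. `n = 2 q`, `e = 1`. (i) `e ⬝ᵥ M ^ m e = 0` for all `m`: `m = 2 l + 1`: `z ⬝ᵥ M z = 0`,
`z = M ^ l e`; `m = 2 l`, `l ≥ 1`: `z ⬝ᵥ z = e ⬝ᵥ z = e ⬝ᵥ M ^ l e`, induction; `m = 0`: `n = 0` in `F_2`. So the walk
vectors `u_j = M ^ j e`, `j < q`, which are independent by hypothesis, are isotropic. (ii) If
`charpoly M = ψ ^ 2` then `ψ(M) e = 0`: let `x = ψ(M) e_i`, then `(ψ(M) e)_i = x ⬝ᵥ e = x ⬝ᵥ x
= (ψ(M) ^ 2)_ii = 0` (`ψ(M)` symmetric, Cayley-Hamilton). `ψ` is monic of degree `q`, so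
`M u_j = clo ψ u j`. (iii) For fixed `ψ` the number of `M` is at most `2 ^ (n.choose 2) / 2 ^ q` by `S_Pe` with
`k + 1 = q`, `T = clo ψ`. The number of monic `ψ` of degree `q` with `ψ_k = 0` for all even `k ≥ 2` is at most
`2 ^ (q / 2 + 1)` (free coefficients: index 0 and the odd indices less than `q`). -/
def S_E1 : Prop := ∀ q : ℕ, 1 ≤ q →
  cnt (2 * q) (fun M => LinearIndependent (ZMod 2) (fun j : Fin q => (M ^ (j : ℕ)) *ᵥ 1) ∧
    ∃ ψ : (ZMod 2)[X], M.charpoly = ψ ^ 2 ∧ ∀ k, 1 ≤ k → ψ.coeff (2 * k) = 0) * 2 ^ q ≤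
    2 ^ (q / 2 + 1) * 2 ^ ((2 * q).choose 2)

/-! ### The result -/

/-- Almost all graphs have no second graph with the same labelled polynomial deck.

Proof. Uses everything: `S_Odd`, `S_Ev2`, `S_Ev1`, `S_Walk`, `S_Form`, `S_Step`, `S_EvB`, `S_EvC`, `S_EvD`,
`S_E1`. Let `K ≥ 2` (enlarge it) and `b` be the constants of `S_EvB` for `ε/4` and `S_EvC` for `K`, `ε/4`, `n` large,
`M` in the set, `A = lif M`, `m2 A = M`, `M' = m2 B ≠ M` (both `A` and `B` have entries 0, 1). If `n` is odd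
then `4 ∣ c` by `S_Odd`. If `n = 2 q` and `c` is even then `4 ∣ c` by `S_Ev2`. If `n = 2 q` and `c` is odd then
by `S_Form` (reduction modulo 2), `S_Ev1`, `S_Walk` `M` is in the set of `S_E1`, which has at most
`2 ^ (q/2 + 1 - q) 2 ^ (n.choose 2)` elements. Now let `4 ∣ c`, `ψ`, `τ` from `S_Form`, `D` from `S_Step`,
`Δ = M + M' ≠ 0`, `D ≠ 0` as `D ∣ red ψ` and `red ψ` is monic. If some irreducible `p ∣ D` has degree `≥ K` then
`Bad M p`, `2 natDegree p ≤ 2 natDegree (red ψ) ≤ n`, event B. Otherwise `finrank (kr M D) ≤ b` or `M` is in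
the set of `S_EvC`. In the first case `M` is in the set of `S_EvD`: `M + Δ = M'`, and the row sums of
`A` and `B` are `rc M i` and `rc M' i`. -/
def S_Alm : Prop := ∀ ε : ℝ, 0 < ε → ∃ n₀ : ℕ, ∀ n ≥ n₀,
  (cnt n (fun M => ∃ (B : Matrix (Fin n) (Fin n) ℤ) (c : ℤ), Adj B ∧ Mate (lif M) B c ∧
    (∀ i, ∑ k, lif M i k = ∑ k, B i k) ∧ B ≠ lif M) : ℝ) ≤ ε * 2 ^ (n.choose 2)

end Pool.Agent.MP2696.Two
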